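import Mathlib
import Pool.Agent.H906R3.YM.Phi

/-!
# The comb gauge in a block
-/

open Matrix
open scoped Matrix.Norms.Frobenius
open Pool.Agent.H906R3.YM

namespace Pool.Agent.Q205.YM

set_option linter.unusedSectionVars false

noncomputable section

section grp

variable {D : ℕ} {G : Type*} [Group G]

/-- the link variable in the comb gauge -/
def tl (u : Pt D → Fin D → G) (w : Pt D) (k : Fin D) : G := fr u w * u w k * (fr u (w + es k))⁻¹

lemma fr_tree (u : Pt D → Fin D → G) (w : Pt D) (k : Fin D) (h : ∀ i < k, w i = 0) :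
    fr u (w + es k) = fr u w * u w k := by
  have h2 : ∃ i, 0 < (w + es k) i := ⟨k, by simp [es]⟩
  have h3 : mi (w + es k) h2 = k := by
    refine mi_eq _ _ (by simp [es]) fun i hi => ?_
    simp [es, h i hi, hi.ne]
  rw [fr_succ u h2, h3, add_tsub_cancel_right]

lemma tl_tree (u : Pt D → Fin D → G) (w : Pt D) (k : Fin D) (h : ∀ i < k, w i = 0) :
    tl u w k = 1 := by
  unfold tl
  rw [fr_tree u w k h, mul_inv_cancel]

lemma tl_step (u : Pt D → Fin D → G) (v : Pt D) (j k : Fin D) (hjk : j < k)
    (hv : ∀ i < j, v i = 0) :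
    tl u (v + es j) k = (fr u v * plq u v j k * (fr u v)⁻¹) * tl u v k := by
  have h1 : fr u (v + es j) = fr u v * u v j := fr_tree u v j hv
  have h2 : fr u (v + es j + es k) = fr u (v + es k) * u (v + es k) j := by
    rw [add_right_comm]
    refine fr_tree u _ j fun i hi => ?_
    simp only [Pi.add_apply, hv i hi, zero_add]
    exact es_ne (hi.trans hjk).ne
  unfold tl plq
  rw [h1, h2]
  group

/-- the plaquette in the comb gauge -/
lemma tl_plq (u : Pt D → Fin D → G) (v : Pt D) (j k : Fin D) :
    tl u v j * tl u (v + es j) k * (tl u (v + es k) j)⁻¹ * (tl u v k)⁻¹ =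
      fr u v * plq u v j k * (fr u v)⁻¹ := by
  unfold tl plq
  rw [add_right_comm v (es k) (es j)]
  group

/-- Induction along the comb. -/
lemma comb_ind {P : Pt D → Fin D → Prop} (h0 : ∀ w k, (∀ i < k, w i = 0) → P w k)
    (h1 : ∀ v j k, j < k → (∀ i < j, v i = 0) → P v k → P (v + es j) k) (w : Pt D) (k : Fin D) :
    P w k := by
  induction hn : sz w generalizing w with
  | zero =>
    refine h0 w k fun i _ => ?_
    by_contra hc
    have := sz_sub (Nat.pos_of_ne_zero hc)
    omega
  | succ q ih =>
    by_cases hwp : ∃ i, 0 < w i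
    · by_cases hjk : mi w hwp < k
      · obtain ⟨j, hj⟩ : ∃ j, j = mi w hwp := ⟨_, rfl⟩
        have hjp : 0 < w j := by rw [hj]; exact mi_pos w hwp
        have hs := sz_sub hjp
        have hv0 : ∀ i < j, (w - es j) i = 0 := fun i' hi' => by
          have h1 : w i' = 0 := by
            by_contra hc
            have h2 := mi_le w hwp (Nat.pos_of_ne_zero hc)
            rw [← hj] at h2
            exact absurd hi' (not_lt.2 h2)
          have h3 : (w - es j) i' ≤ w i' := Nat.sub_le _ _
          omega
        have h2 := h1 (w - es j) j k (by rw [hj]; exact hjk) hv0 (ih (w - es j) (by omega))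
        rwa [sub_add_es hjp] at h2
      · refine h0 w k fun i hi => ?_
        by_contra hc
        have h2 := mi_le w hwp (Nat.pos_of_ne_zero hc)
        exact hjk (lt_of_le_of_lt h2 hi)
    · refine h0 w k fun i _ => ?_
      by_contra hc
      exact hwp ⟨i, Nat.pos_of_ne_zero hc⟩

end grp

section path

variable {D m : ℕ}

/-- number of passages of the comb path to `w` through the link `s`, with fuel -/
def pf (s : Sb D m) : ℕ → Pt D → ℕ
  | 0, _ => 0
  | k + 1, w => if h : ∃ i, 0 < w i then pf s k (w - es (mi w h)) +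
      (if w - es (mi w h) = cv s.1 ∧ mi w h = s.2 then 1 else 0) else 0

/-- number of passages of the comb path to `w` through the link `s` -/
def pp (s : Sb D m) (w : Pt D) : ℕ := pf s (sz w) w

lemma pp_zero (s : Sb D m) {w : Pt D} (h : ¬∃ i, 0 < w i) : pp s w = 0 := by
  unfold pp
  have h1 : sz w = 0 := by
    unfold sz
    refine Finset.sum_eq_zero fun i _ => ?_
    by_contra hi
    exact h ⟨i, Nat.pos_of_ne_zero hi⟩
  rw [h1]; rfl

lemma pp_succ (s : Sb D m) {w : Pt D} (h : ∃ i, 0 < w i) :
    pp s w = pp s (w - es (mi w h)) + (if w - es (mi w h) = cv s.1 ∧ mi w h = s.2 then 1 else 0) := by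
  unfold pp
  rw [sz_sub (mi_pos w h)]
  simp only [pf]
  rw [dif_pos h]

/-- the left exponent -/
def al (s : Sb D m) (w : Pt D) (k : Fin D) : ℕ := pp s w + (if w = cv s.1 ∧ k = s.2 then 1 else 0)

/-- the right exponent -/
def be (s : Sb D m) (w : Pt D) (k : Fin D) : ℕ := pp s (w + es k)

variable {G : Type*} [Group G] [TopologicalSpace G] {N n : ℕ} {L : LD G N n}

/-- the one-parameter group seen from the corner -/
def gg (L : LD G N n) (s : Sb D m) (a : Fin n) (t : ℝ) (U : Sb D m → G) : G :=
  fr (ext U) (cv s.1) * L.ex a t * (fr (ext U) (cv s.1))⁻¹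

lemma ext_shift (s : Sb D m) (a : Fin n) (t : ℝ) (U : Sb D m → G) (w : Pt D) (k : Fin D) :
    ext (L.shift s a t U) w k = if w = cv s.1 ∧ k = s.2 then L.ex a t * ext U w k
      else ext U w k := by
  by_cases h : ∀ i, w i < m
  · have hx : cv (fun i => (⟨w i, h i⟩ : Fin m)) = w := rfl
    unfold H906R3.YM.ext
    rw [dif_pos h, dif_pos h]
    unfold LD.shift
    by_cases hs : (fun i => (⟨w i, h i⟩ : Fin m), k) = s
    · have hc : w = cv s.1 ∧ k = s.2 := by rw [← hs]; exact ⟨rfl, rfl⟩
      rw [if_pos hc, Pi.mul_apply, hs, Pi.mulSingle_eq_same]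
    · have hc : ¬(w = cv s.1 ∧ k = s.2) := by
        rintro ⟨hw, hk⟩
        apply hs
        refine Prod.ext ?_ hk
        funext i
        exact Fin.ext (congrFun hw i)
      rw [if_neg hc, Pi.mul_apply, Pi.mulSingle_eq_of_ne hs, one_mul]
  · have hc : ¬(w = cv s.1 ∧ k = s.2) := by
      rintro ⟨hw, -⟩
      exact h fun i => by rw [hw]; exact (s.1 i).2
    unfold H906R3.YM.ext
    rw [dif_neg h, dif_neg h, if_neg hc]

lemma fr_shift (s : Sb D m) (a : Fin n) (t : ℝ) (U : Sb D m → G) (w : Pt D) :
    fr (ext (L.shift s a t U)) w = gg L s a t U ^ pp s w * fr (ext U) w := by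
  induction hn : sz w generalizing w with
  | zero =>
    have h1 : ¬∃ i, 0 < w i := by
      rintro ⟨i, hi⟩
      have := sz_sub hi
      omega
    rw [fr_zero _ h1, fr_zero _ h1, pp_zero s h1, pow_zero, one_mul]
  | succ k ih =>
    by_cases hw : ∃ i, 0 < w i
    · have hs := sz_sub (mi_pos w hw)
      rw [fr_succ _ hw, fr_succ _ hw, pp_succ s hw, ih _ (by omega), ext_shift]
      by_cases hc : w - es (mi w hw) = cv s.1 ∧ mi w hw = s.2
      · rw [if_pos hc, if_pos hc, pow_succ]
        have : gg L s a t U = fr (ext U) (w - es (mi w hw)) * L.ex a t *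
            (fr (ext U) (w - es (mi w hw)))⁻¹ := by
          unfold gg; rw [hc.1]
        conv_rhs => rw [mul_assoc (gg L s a t U ^ _)]
        nth_rewrite 3 [this]
        group
      · rw [if_neg hc, if_neg hc, add_zero, mul_assoc]
    · exfalso
      have h1 : sz w = 0 := by
        unfold sz
        refine Finset.sum_eq_zero fun i _ => ?_
        by_contra hi
        exact hw ⟨i, Nat.pos_of_ne_zero hi⟩
      omega

lemma tl_shift (s : Sb D m) (a : Fin n) (t : ℝ) (U : Sb D m → G) (w : Pt D) (k : Fin D) :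
    tl (ext (L.shift s a t U)) w k =
      gg L s a t U ^ al s w k * tl (ext U) w k * (gg L s a t U ^ be s w k)⁻¹ := by
  unfold tl al be
  rw [fr_shift, fr_shift, ext_shift]
  by_cases hc : w = cv s.1 ∧ k = s.2
  · rw [if_pos hc, if_pos hc, pow_succ]
    have : gg L s a t U = fr (ext U) w * L.ex a t * (fr (ext U) w)⁻¹ := by
      unfold gg; rw [hc.1]
    have h2 : gg L s a t U * (fr (ext U) w * ext U w k) = fr (ext U) w * (L.ex a t * ext U w k) := by
      rw [this]; group
    calc gg L s a t U ^ pp s w * fr (ext U) w * (L.ex a t * ext U w k) *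
          (gg L s a t U ^ pp s (w + es k) * fr (ext U) (w + es k))⁻¹
        = gg L s a t U ^ pp s w * (fr (ext U) w * (L.ex a t * ext U w k)) *
          (gg L s a t U ^ pp s (w + es k) * fr (ext U) (w + es k))⁻¹ := by group
      _ = _ := by rw [← h2]; group
  · rw [if_neg hc, if_neg hc, add_zero]
    group

lemma gg_pow (s : Sb D m) (a : Fin n) (t : ℝ) (U : Sb D m → G) (k : ℕ) :
    gg L s a t U ^ k = gg L s a (k * t) U := by
  induction k with
  | zero =>
    unfold gg
    rw [pow_zero, Nat.cast_zero, zero_mul, L.ex_zero]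
    group
  | succ k ih =>
    rw [pow_succ, ih]
    unfold gg
    have : ((k + 1 : ℕ) : ℝ) * t = k * t + t := by push_cast; ring
    rw [this, L.ex_add]
    group

end path

end

end Pool.Agent.Q205.YM
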