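import Mathlib

/-!
# Traces of square roots of positive semidefinite matrices
-/

open Matrix
open scoped MatrixOrder

namespace Pool.Agent.Q205.YM

set_option linter.unusedSectionVars false

noncomputable section

variable {ι : Type*} [Fintype ι] [DecidableEq ι]

/-- real square matrices -/
abbrev RM (ι : Type*) := Matrix ι ι ℝ

lemma exists_sq {A : RM ι} (hA : A.PosSemidef) : ∃ R : RM ι, R.PosSemidef ∧ R * R = A :=
  ⟨CFC.sqrt A, (CFC.sqrt_nonneg A).posSemidef, CFC.sqrt_mul_sqrt_self A hA.nonneg⟩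

lemma sym {R : RM ι} (hR : R.PosSemidef) : Rᵀ = R := by
  have := hR.isHermitian
  unfold Matrix.IsHermitian at this
  rwa [conjTranspose_eq_transpose_of_trivial] at this

lemma psd_iff {R : RM ι} : R.PosSemidef ↔ Rᵀ = R ∧ ∀ v : ι → ℝ, 0 ≤ v ⬝ᵥ (R *ᵥ v) := by
  rw [posSemidef_iff_dotProduct_mulVec]
  unfold Matrix.IsHermitian
  rw [conjTranspose_eq_transpose_of_trivial]
  simp

lemma psd_sq {R : RM ι} (hR : R.PosSemidef) : (R * R).PosSemidef := by
  have := posSemidef_conjTranspose_mul_self R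
  rwa [hR.isHermitian.eq] at this

lemma dot_sq {R : RM ι} (hR : R.PosSemidef) (v : ι → ℝ) :
    v ⬝ᵥ ((R * R) *ᵥ v) = (R *ᵥ v) ⬝ᵥ (R *ᵥ v) := by
  rw [← mulVec_mulVec, dotProduct_mulVec, ← mulVec_transpose, sym hR]

lemma dot_comm' {R : RM ι} (hR : R.PosSemidef) (v w : ι → ℝ) :
    v ⬝ᵥ (R *ᵥ w) = (R *ᵥ v) ⬝ᵥ w := by
  rw [dotProduct_mulVec, ← mulVec_transpose, sym hR]

/-- The square root is monotone. -/
lemma mono {R S : RM ι} (hR : R.PosSemidef) (hS : S.PosSemidef)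
    (h : (S * S - R * R).PosSemidef) : (S - R).PosSemidef := by
  have hh : (S - R).IsHermitian := hS.isHermitian.sub hR.isHermitian
  rw [hh.posSemidef_iff_eigenvalues_nonneg]
  intro i
  by_contra hneg
  simp only [Pi.zero_apply, not_le] at hneg
  obtain ⟨l, hl⟩ : ∃ l, l = hh.eigenvalues i := ⟨_, rfl⟩
  obtain ⟨v, hv⟩ : ∃ v : ι → ℝ, v = (hh.eigenvectorBasis i : EuclideanSpace ℝ ι).ofLp := ⟨_, rfl⟩
  have h1 : (S - R) *ᵥ v = l • v := by
    have := hh.mulVec_eigenvectorBasis i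
    rw [hv, hl]; exact this
  have hvv : v ⬝ᵥ v = 1 := by
    have h2 := hh.eigenvectorBasis.orthonormal.1 i
    have h3 : ‖hh.eigenvectorBasis i‖ ^ 2 = 1 := by rw [h2]; norm_num
    rw [EuclideanSpace.norm_sq_eq] at h3
    rw [hv]
    unfold dotProduct
    rw [← h3]
    exact Finset.sum_congr rfl fun j _ => by rw [Real.norm_eq_abs, sq_abs]; ring
  have h2 := (psd_iff.1 h).2 v
  rw [sub_mulVec, dotProduct_sub, dot_sq hS, dot_sq hR] at h2
  have hS1 := (psd_iff.1 hS).2 v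
  have hR1 := (psd_iff.1 hR).2 v
  have hd : S *ᵥ v = R *ᵥ v + l • v := by rw [← h1, sub_mulVec]; abel
  have h3 : (S *ᵥ v) ⬝ᵥ (S *ᵥ v) - (R *ᵥ v) ⬝ᵥ (R *ᵥ v) = l * (v ⬝ᵥ (S *ᵥ v) + v ⬝ᵥ (R *ᵥ v)) := by
    have e1 : v ⬝ᵥ (S *ᵥ v) = v ⬝ᵥ (R *ᵥ v) + l * (v ⬝ᵥ v) := by
      rw [hd, dotProduct_add, dotProduct_smul, smul_eq_mul]
    rw [e1, hd]
    simp only [dotProduct_add, add_dotProduct, dotProduct_smul, smul_dotProduct, smul_eq_mul]
    rw [dotProduct_comm (R *ᵥ v) v]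
    ring
  rw [h3] at h2
  rw [← hl] at hneg
  have h4 : v ⬝ᵥ (S *ᵥ v) + v ⬝ᵥ (R *ᵥ v) = 0 := by
    nlinarith
  have h5 : v ⬝ᵥ (S *ᵥ v) = 0 := by linarith
  have h6 : v ⬝ᵥ (R *ᵥ v) = 0 := by linarith
  have h7 : v ⬝ᵥ (S *ᵥ v) = v ⬝ᵥ (R *ᵥ v) + l * (v ⬝ᵥ v) := by
    rw [hd, dotProduct_add, dotProduct_smul, smul_eq_mul]
  rw [h5, h6, hvv] at h7
  linarith

lemma trace_mono {R S : RM ι} (h : (S - R).PosSemidef) : R.trace ≤ S.trace := by
  have := h.trace_nonneg
  rw [trace_sub] at this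
  linarith

lemma uniq {R S : RM ι} (hR : R.PosSemidef) (hS : S.PosSemidef) (h : R * R = S * S) : R = S := by
  have h1 := mono hR hS (by rw [h, sub_self]; exact PosSemidef.zero)
  have h2 := mono hS hR (by rw [h, sub_self]; exact PosSemidef.zero)
  have h3 : R ≤ S := h1
  have h4 : S ≤ R := h2
  exact le_antisymm h3 h4

lemma trace_mul_nonneg {A B : RM ι} (hA : A.PosSemidef) (hB : B.PosSemidef) :
    0 ≤ (A * B).trace := by
  obtain ⟨C, hC, rfl⟩ := exists_sq hA
  have h1 := hB.conjTranspose_mul_mul_same C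
  have h2 := h1.trace_nonneg
  rw [hC.isHermitian.eq, trace_mul_comm, ← Matrix.mul_assoc] at h2
  exact h2

/-- the regularized square root -/
lemma exists_reg {A : RM ι} (hA : A.PosSemidef) {η : ℝ} (hη : 0 < η) :
    ∃ T : RM ι, T.PosSemidef ∧ T * T = A + (η • (1 : RM ι)) * (η • (1 : RM ι)) ∧
      T⁻¹ * T = 1 ∧ T * T⁻¹ = 1 := by
  have h1 : (η • (1 : RM ι)).PosDef := PosDef.smul PosDef.one hη
  have h2 : ((η • (1 : RM ι)) * (η • (1 : RM ι))).PosDef := by
    rw [smul_mul_smul_comm, one_mul]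
    exact PosDef.smul PosDef.one (by positivity)
  have h3 : (A + (η • (1 : RM ι)) * (η • (1 : RM ι))).PosDef := PosDef.posSemidef_add hA h2
  obtain ⟨T, hT, hTT⟩ := exists_sq h3.posSemidef
  have h4 : IsUnit (T * T) := by rw [hTT]; exact h3.isUnit
  have h5 : IsUnit T := by
    rw [Matrix.isUnit_iff_isUnit_det] at h4 ⊢
    rw [det_mul] at h4
    exact isUnit_of_mul_isUnit_left h4
  exact ⟨T, hT, hTT, Matrix.nonsing_inv_mul _ ((Matrix.isUnit_iff_isUnit_det _).1 h5),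
    Matrix.mul_nonsing_inv _ ((Matrix.isUnit_iff_isUnit_det _).1 h5)⟩

lemma trace_inv_sq {P T : RM ι} (hP : P.PosSemidef) (hT : T.PosSemidef) (h1 : T⁻¹ * T = 1)
    (h2 : T * T⁻¹ = 1) (h : (T * T - P * P).PosSemidef) : (T⁻¹ * (P * P)).trace ≤ P.trace := by
  have hTi : T⁻¹.PosSemidef := hT.inv
  have e0 : (T⁻¹)ᴴ = T⁻¹ := hTi.isHermitian.eq
  have e1 : Pᴴ = P := hP.isHermitian.eq
  have c1 := h.conjTranspose_mul_mul_same T⁻¹
  rw [e0] at c1
  have c2 : T⁻¹ * (T * T - P * P) * T⁻¹ = 1 - T⁻¹ * P * (P * T⁻¹) := by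
    calc T⁻¹ * (T * T - P * P) * T⁻¹ = (T⁻¹ * T) * (T * T⁻¹) - T⁻¹ * P * (P * T⁻¹) := by
          noncomm_ring
      _ = _ := by rw [h1, h2, one_mul]
  rw [c2] at c1
  have c3 := trace_mul_nonneg c1 hP
  have c4 := (hP.mul_mul_conjTranspose_same (P * T⁻¹ - 1)).trace_nonneg
  rw [conjTranspose_sub, conjTranspose_mul, e0, e1, conjTranspose_one] at c4
  have c5 : (P * T⁻¹ - 1) * P * (T⁻¹ * P - 1) = P * T⁻¹ * P * (T⁻¹ * P) - P * T⁻¹ * P -
      P * T⁻¹ * P + P := by noncomm_ring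
  rw [c5, trace_add, trace_sub, trace_sub] at c4
  rw [sub_mul, one_mul, trace_sub] at c3
  have c6 : (P * T⁻¹ * P * (T⁻¹ * P)).trace = (T⁻¹ * P * (P * T⁻¹) * P).trace := by
    rw [trace_mul_comm]
    simp only [Matrix.mul_assoc]
  have c7 : (P * T⁻¹ * P).trace = (T⁻¹ * (P * P)).trace := by
    rw [Matrix.mul_assoc, trace_mul_comm, Matrix.mul_assoc]
  rw [c6, c7] at c4
  linarith

lemma psd_sum {K : Type*} (s : Finset K) {P : K → RM ι} (h : ∀ k, (P k).PosSemidef) :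
    (∑ k ∈ s, P k).PosSemidef := posSemidef_sum s fun k _ => h k

lemma smul_one_psd {η : ℝ} (hη : 0 ≤ η) : (η • (1 : RM ι)).PosSemidef := by
  have : (1 : RM ι).PosSemidef := PosSemidef.one
  exact this.smul hη

lemma trace_smul_one (η : ℝ) : (η • (1 : RM ι)).trace = η * Fintype.card ι := by
  rw [trace_smul, trace_one, smul_eq_mul]

/-- The trace of the square root is subadditive and monotone. -/
theorem family {K : Type*} [Fintype K] {R : RM ι} {P : K → RM ι} (hR : R.PosSemidef)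
    (hP : ∀ k, (P k).PosSemidef) (h : (∑ k, P k * P k - R * R).PosSemidef) :
    R.trace ≤ ∑ k, (P k).trace := by
  classical
  have hA : (∑ k, P k * P k).PosSemidef := psd_sum _ fun k => psd_sq (hP k)
  have key : ∀ η : ℝ, 0 < η → R.trace ≤ ∑ k, (P k).trace + η * Fintype.card ι := by
    intro η hη
    obtain ⟨T, hT, hTT, hi1, hi2⟩ := exists_reg hA hη
    have hη1 : (η • (1 : RM ι)).PosSemidef := smul_one_psd hη.le
    have h1 : R.trace ≤ T.trace := by
      refine trace_mono (mono hR hT ?_)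
      rw [hTT, add_sub_right_comm]
      exact h.add (psd_sq hη1)
    have h2 : T.trace = (T⁻¹ * (T * T)).trace := by
      rw [← Matrix.mul_assoc, hi1, one_mul]
    have h3 : ∀ k, (T⁻¹ * (P k * P k)).trace ≤ (P k).trace := by
      intro k
      refine trace_inv_sq (hP k) hT hi1 hi2 ?_
      rw [hTT, add_sub_right_comm, ← Finset.sum_erase_add _ _ (Finset.mem_univ k), add_sub_cancel_right]
      exact (psd_sum _ fun k => psd_sq (hP k)).add (psd_sq hη1)
    have h4 : (T⁻¹ * ((η • (1 : RM ι)) * (η • (1 : RM ι)))).trace ≤ (η • (1 : RM ι)).trace := by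
      refine trace_inv_sq hη1 hT hi1 hi2 ?_
      rw [hTT, add_sub_cancel_right]
      exact hA
    rw [h2, hTT, mul_add, trace_add, Finset.mul_sum, trace_sum] at h1
    rw [trace_smul_one] at h4
    have h5 := Finset.sum_le_sum fun k (_ : k ∈ Finset.univ) => h3 k
    linarith
  refine le_of_forall_pos_le_add fun ε hε => ?_
  have h1 := key (ε / (Fintype.card ι + 1)) (by positivity)
  have h2 : ε / (Fintype.card ι + 1) * (Fintype.card ι : ℝ) ≤ ε := by
    rw [div_mul_eq_mul_div, div_le_iff₀ (by positivity)]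
    nlinarith
  linarith

lemma dual_le {κ : Type*} [Fintype κ] [DecidableEq κ] {X : Matrix ι κ ℝ} {S : RM ι} {K : RM κ}
    (hS : S.PosSemidef) (hK : K.PosSemidef) (h1 : S * S = X * Xᵀ) (h2 : K * K = Xᵀ * X) :
    K.trace ≤ S.trace := by
  have key : ∀ η : ℝ, 0 < η → K.trace ≤ S.trace + η * Fintype.card κ := by
    intro η hη
    obtain ⟨T, hT, hTT, hi1, hi2⟩ := exists_reg (psd_sq hK) hη
    have hη1 : (η • (1 : RM κ)).PosSemidef := smul_one_psd hη.le
    have hTi : T⁻¹.PosSemidef := hT.inv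
    have e0 : (T⁻¹)ᴴ = T⁻¹ := hTi.isHermitian.eq
    have c1 : (1 - T⁻¹ * (K * K) * T⁻¹).PosSemidef := by
      have c2 := (psd_sq hη1).conjTranspose_mul_mul_same T⁻¹
      rw [e0] at c2
      have c3 : (η • (1 : RM κ)) * (η • (1 : RM κ)) = T * T - K * K := by
        rw [hTT]; abel
      rw [c3] at c2
      have c4 : T⁻¹ * (T * T - K * K) * T⁻¹ = (T⁻¹ * T) * (T * T⁻¹) - T⁻¹ * (K * K) * T⁻¹ := by
        noncomm_ring
      rw [c4, hi1, hi2, one_mul] at c2
      exact c2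
    have c5 := c1.mul_mul_conjTranspose_same X
    rw [conjTranspose_eq_transpose_of_trivial] at c5
    have c6 : (X * T⁻¹ * Xᵀ).PosSemidef := by
      have := hTi.mul_mul_conjTranspose_same X
      rwa [conjTranspose_eq_transpose_of_trivial] at this
    have c7 : X * (1 - T⁻¹ * (K * K) * T⁻¹) * Xᵀ = S * S - (X * T⁻¹ * Xᵀ) * (X * T⁻¹ * Xᵀ) := by
      rw [h1, h2, Matrix.mul_sub, Matrix.sub_mul, Matrix.mul_one]
      simp only [Matrix.mul_assoc]
    rw [c7] at c5
    have c8 := trace_mono (mono c6 hS c5)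
    have c9 : (X * T⁻¹ * Xᵀ).trace = (T⁻¹ * (K * K)).trace := by
      rw [trace_mul_comm, ← Matrix.mul_assoc, ← h2, trace_mul_comm]
    have d1 : K.trace ≤ T.trace := by
      refine trace_mono (mono hK hT ?_)
      rw [hTT, add_sub_cancel_left]
      exact psd_sq hη1
    have d2 : T.trace = (T⁻¹ * (T * T)).trace := by
      rw [← Matrix.mul_assoc, hi1, one_mul]
    have d3 : (T⁻¹ * ((η • (1 : RM κ)) * (η • (1 : RM κ)))).trace ≤ (η • (1 : RM κ)).trace := by
      refine trace_inv_sq hη1 hT hi1 hi2 ?_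
      rw [hTT, add_sub_cancel_right]
      exact psd_sq hK
    rw [d2, hTT, mul_add, trace_add] at d1
    rw [trace_smul_one] at d3
    linarith
  refine le_of_forall_pos_le_add fun ε hε => ?_
  have h1 := key (ε / (Fintype.card κ + 1)) (by positivity)
  have h2 : ε / (Fintype.card κ + 1) * (Fintype.card κ : ℝ) ≤ ε := by
    rw [div_mul_eq_mul_div, div_le_iff₀ (by positivity)]
    nlinarith
  linarith

/-- `tr √(X Xᵀ) = tr √(Xᵀ X)` -/
theorem dual {κ : Type*} [Fintype κ] [DecidableEq κ] {X : Matrix ι κ ℝ} {S : RM ι} {K : RM κ}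
    (hS : S.PosSemidef) (hK : K.PosSemidef) (h1 : S * S = X * Xᵀ) (h2 : K * K = Xᵀ * X) :
    S.trace = K.trace :=
  le_antisymm (dual_le (X := Xᵀ) hK hS (by rw [h2, transpose_transpose])
    (by rw [h1, transpose_transpose])) (dual_le hS hK h1 h2)

/-- If `A = R²` and `C = S²` with `A C = 0` then `R S = 0`. -/
lemma mul_zero_of_sq {R S : RM ι} (hR : R.PosSemidef) (hS : S.PosSemidef)
    (h : (R * R) * (S * S) = 0) : R * S = 0 ∧ S * R = 0 := by
  have e1 : Rᴴ = R := hR.isHermitian.eq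
  have e2 : Sᴴ = S := hS.isHermitian.eq
  have h1 : R * (S * S) = 0 := by
    have : (R * (S * S))ᴴ * (R * (S * S)) = 0 := by
      rw [conjTranspose_mul, conjTranspose_mul, e1, e2]
      calc S * S * R * (R * (S * S)) = S * S * ((R * R) * (S * S)) := by
            simp only [Matrix.mul_assoc]
        _ = 0 := by rw [h, mul_zero]
    exact conjTranspose_mul_self_eq_zero.1 this
  have h2 : R * S = 0 := by
    have : (R * S) * (R * S)ᴴ = 0 := by
      rw [conjTranspose_mul, e1, e2]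
      calc R * S * (S * R) = (R * (S * S)) * R := by simp only [Matrix.mul_assoc]
        _ = 0 := by rw [h1, zero_mul]
    exact self_mul_conjTranspose_eq_zero.1 this
  refine ⟨h2, ?_⟩
  have h3 := congrArg conjTranspose h2
  rwa [conjTranspose_mul, e1, e2, conjTranspose_zero] at h3

/-- Square roots of orthogonal pieces. -/
theorem orth_add {R S K : RM ι} (hR : R.PosSemidef) (hS : S.PosSemidef) (hK : K.PosSemidef)
    (h : (R * R) * (S * S) = 0) (hs : R * R + S * S = K * K) : R + S = K := by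
  obtain ⟨h1, h2⟩ := mul_zero_of_sq hR hS h
  refine uniq (hR.add hS) hK ?_
  rw [add_mul, mul_add, mul_add, h1, h2, ← hs]
  abel

end

end Pool.Agent.Q205.YM
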