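import Mathlib
import Pool.Agent.Q205.YM.LA

/-!
# The square root of the Laplacian of the discrete torus
-/

open Matrix
open scoped MatrixOrder

namespace Pool.Agent.Q205.YM

set_option linter.unusedSectionVars false

noncomputable section

variable {D l : ℕ} [NeZero l]

/-- sites of the torus -/
abbrev Si (D l : ℕ) := Fin D → ZMod l

/-- the character -/
def ch (k x : Si D l) : ℂ := ZMod.stdAddChar (∑ i, k i * x i)

lemma ch_add (k x y : Si D l) : ch k (x + y) = ch k x * ch k y := by
  unfold ch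
  rw [← AddChar.map_add_eq_mul, ← Finset.sum_add_distrib]
  congr 1
  exact Finset.sum_congr rfl fun i _ => by rw [Pi.add_apply, mul_add]

lemma ch_comm (k x : Si D l) : ch k x = ch x k := by
  unfold ch
  congr 1
  exact Finset.sum_congr rfl fun i _ => mul_comm _ _

lemma ch_zero (k : Si D l) : ch k 0 = 1 := by
  unfold ch; simp

lemma ch_neg (k x : Si D l) : ch k (-x) = starRingEnd ℂ (ch k x) := by
  unfold ch
  rw [← AddChar.map_neg_eq_conj]
  congr 1
  rw [← Finset.sum_neg_distrib]
  exact Finset.sum_congr rfl fun i _ => by rw [Pi.neg_apply, mul_neg]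

lemma ch_neg' (k x : Si D l) : ch (-k) x = starRingEnd ℂ (ch k x) := by
  rw [ch_comm, ch_neg, ch_comm]

lemma ch_sub (k x y : Si D l) : ch k (x - y) = ch k x * starRingEnd ℂ (ch k y) := by
  rw [sub_eq_add_neg, ch_add, ch_neg]

/-- orthogonality -/
lemma ch_sum (y : Si D l) : ∑ k, ch k y = if y = 0 then ((l : ℂ) ^ D) else 0 := by
  have h1 : ∀ k : Si D l, ch k y = ∏ i, ZMod.stdAddChar (k i * y i) := by
    intro k
    unfold ch
    have := map_prod (ZMod.stdAddChar (N := l)).toMonoidHom (fun i => Multiplicative.ofAdd (k i * y i))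
      Finset.univ
    exact this
  simp only [h1]
  have h2 := (Finset.prod_univ_sum (fun _ : Fin D => (Finset.univ : Finset (ZMod l)))
    (fun i k => (ZMod.stdAddChar (k * y i) : ℂ))).symm
  rw [Fintype.piFinset_univ] at h2
  rw [h2]
  have h3 : ∀ i, ∑ k : ZMod l, (ZMod.stdAddChar (k * y i) : ℂ) = if y i = 0 then (l : ℂ) else 0 := by
    intro i
    have := AddChar.sum_mulShift (y i) (ZMod.isPrimitive_stdAddChar l)
    rw [this, ZMod.card]
    push_cast
    rfl
  simp only [h3]
  by_cases hy : y = 0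
  · rw [if_pos hy]
    subst hy
    simp
  · rw [if_neg hy]
    obtain ⟨i, hi⟩ := Function.ne_iff.1 hy
    exact Finset.prod_eq_zero (Finset.mem_univ i) (if_neg hi)

/-- the squared frequency -/
def om2 (k : Si D l) : ℝ := ∑ i, (2 - 2 * (ch k (Pi.single i 1)).re)

/-- the frequency -/
def om (k : Si D l) : ℝ := Real.sqrt (om2 k)

lemma norm_ch (k x : Si D l) : ‖ch k x‖ = 1 := by
  unfold ch
  exact AddChar.norm_apply _ _

lemma om2_nonneg (k : Si D l) : 0 ≤ om2 k := by
  unfold om2
  refine Finset.sum_nonneg fun i _ => ?_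
  have h1 := Complex.re_le_norm (ch k (Pi.single i 1))
  rw [norm_ch] at h1
  linarith

lemma om_sq (k : Si D l) : om k * om k = om2 k := Real.mul_self_sqrt (om2_nonneg k)

lemma om2_neg (k : Si D l) : om2 (-k) = om2 k := by
  unfold om2
  refine Finset.sum_congr rfl fun i _ => ?_
  rw [ch_neg']
  simp

lemma om_neg (k : Si D l) : om (-k) = om k := by
  unfold om; rw [om2_neg]

/-- the kernel with symbol `f` -/
def kc (f : Si D l → ℝ) (x : Si D l) : ℂ := ((l : ℂ) ^ D)⁻¹ * ∑ k, (f k : ℂ) * ch k x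

lemma ld0 : ((l : ℂ) ^ D) ≠ 0 := pow_ne_zero _ (by exact_mod_cast NeZero.ne l)

lemma kc_real {f : Si D l → ℝ} (hf : ∀ k, f (-k) = f k) (x : Si D l) :
    ((kc f x).re : ℂ) = kc f x := by
  rw [← Complex.conj_eq_iff_re]
  unfold kc
  rw [map_mul, map_inv₀, map_pow, Complex.conj_natCast, map_sum]
  congr 1
  refine Fintype.sum_equiv (Equiv.neg _) _ _ fun k => ?_
  rw [Equiv.neg_apply, hf, ch_neg', map_mul, Complex.conj_ofReal]

lemma kc_conv (f g : Si D l → ℝ) (x z : Si D l) :
    ∑ y, kc f (x - y) * kc g (y - z) = kc (fun k => f k * g k) (x - z) := by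
  have h1 : ∀ y, kc f (x - y) * kc g (y - z) = ((l : ℂ) ^ D)⁻¹ * ((l : ℂ) ^ D)⁻¹ *
      ∑ k, ∑ k', ((f k : ℂ) * g k' * ch k x * starRingEnd ℂ (ch k' z)) * ch (k' - k) y := by
    intro y
    unfold kc
    have e1 : ∀ a b c d : ℂ, a * b * (c * d) = a * c * (b * d) := fun a b c d => by ring
    rw [e1, Finset.sum_mul_sum]
    congr 1
    refine Finset.sum_congr rfl fun k _ => Finset.sum_congr rfl fun k' _ => ?_
    rw [ch_sub, ch_sub, sub_eq_add_neg k' k, ch_comm (k' + -k), ch_add, ch_neg, ch_comm y k,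
      ch_comm y k']
    ring
  simp only [h1]
  rw [← Finset.mul_sum, Finset.sum_comm]
  have h2 : ∀ k : Si D l, ∑ y, ∑ k', ((f k : ℂ) * g k' * ch k x * starRingEnd ℂ (ch k' z)) *
      ch (k' - k) y = (l : ℂ) ^ D * ((f k * g k : ℝ) * ch k (x - z)) := by
    intro k
    rw [Finset.sum_comm]
    have h3 : ∀ k' : Si D l, ∑ y, ((f k : ℂ) * g k' * ch k x * starRingEnd ℂ (ch k' z)) *
        ch (k' - k) y = if k' = k then (l : ℂ) ^ D * ((f k * g k : ℝ) * ch k (x - z)) else 0 := by
      intro k'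
      rw [← Finset.mul_sum]
      have h4 : ∑ y, ch (k' - k) y = if k' = k then ((l : ℂ) ^ D) else 0 := by
        have h5 : ∀ y : Si D l, ch (k' - k) y = ch y (k' - k) := fun y => ch_comm _ _
        simp only [h5]
        rw [ch_sum]
        simp only [sub_eq_zero]
      rw [h4]
      split_ifs with h
      · subst h
        rw [ch_sub]
        push_cast
        ring
      · rw [mul_zero]
    simp only [h3]
    rw [Finset.sum_ite_eq' Finset.univ k, if_pos (Finset.mem_univ _)]
  simp only [h2]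
  unfold kc
  rw [← Finset.mul_sum, ← mul_assoc, mul_assoc (((l : ℂ) ^ D)⁻¹), inv_mul_cancel₀ ld0, mul_one]

/-- the real matrix with symbol `f` -/
def Km (f : Si D l → ℝ) : RM (Si D l) := Matrix.of fun x y => (kc f (x - y)).re

lemma Km_mul {f g : Si D l → ℝ} (hf : ∀ k, f (-k) = f k) (hg : ∀ k, g (-k) = g k) :
    Km f * Km g = Km fun k => f k * g k := by
  ext x z
  rw [mul_apply]
  have h1 : ((∑ y, Km f x y * Km g y z : ℝ) : ℂ) = ((Km (fun k => f k * g k) x z : ℝ) : ℂ) := by
    push_cast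
    have h2 : ∀ y, ((Km f x y : ℝ) : ℂ) * ((Km g y z : ℝ) : ℂ) = kc f (x - y) * kc g (y - z) := by
      intro y
      show (((kc f (x - y)).re : ℝ) : ℂ) * (((kc g (y - z)).re : ℝ) : ℂ) = _
      rw [kc_real hf, kc_real hg]
    simp only [h2]
    rw [kc_conv]
    show _ = (((kc (fun k => f k * g k) (x - z)).re : ℝ) : ℂ)
    rw [kc_real (fun k => by rw [hf, hg])]
  exact_mod_cast h1

lemma Km_trace (f : Si D l → ℝ) : (Km f).trace = ∑ k, f k := by
  unfold Matrix.trace
  simp only [diag_apply]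
  have h1 : ∀ x : Si D l, Km f x x = (((l : ℝ) ^ D)⁻¹ * ∑ k, f k) := by
    intro x
    show (kc f (x - x)).re = _
    unfold kc
    rw [sub_self]
    simp only [ch_zero, mul_one]
    rw [← Complex.ofReal_sum, ← Complex.ofReal_natCast, ← Complex.ofReal_pow, ← Complex.ofReal_inv,
      ← Complex.ofReal_mul, Complex.ofReal_re]
  simp only [h1]
  rw [Finset.sum_const, Finset.card_univ, Fintype.card_fun, Fintype.card_fin, ZMod.card,
    nsmul_eq_mul]
  push_cast
  have : (l : ℝ) ^ D ≠ 0 := pow_ne_zero _ (by exact_mod_cast NeZero.ne l)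
  rw [← mul_assoc, mul_inv_cancel₀ this, one_mul]

lemma Km_psd {f : Si D l → ℝ} (hf : ∀ k, f (-k) = f k) (h0 : ∀ k, 0 ≤ f k) :
    (Km f).PosSemidef := by
  rw [psd_iff]
  constructor
  · ext x y
    rw [transpose_apply]
    show (kc f (y - x)).re = (kc f (x - y)).re
    have h1 : kc f (y - x) = starRingEnd ℂ (kc f (x - y)) := by
      unfold kc
      rw [map_mul, map_inv₀, map_pow, Complex.conj_natCast, map_sum]
      congr 1
      refine Finset.sum_congr rfl fun k _ => ?_
      rw [map_mul, Complex.conj_ofReal, ← ch_neg, neg_sub]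
    rw [h1, Complex.conj_re]
  · intro v
    have h1 : ((v ⬝ᵥ (Km f *ᵥ v) : ℝ) : ℂ) = (((((l : ℝ) ^ D)⁻¹ *
        ∑ k, f k * Complex.normSq (∑ x, (v x : ℂ) * ch k x)) : ℝ) : ℂ) := by
      unfold dotProduct mulVec dotProduct
      push_cast
      have h2 : ∀ x y, ((Km f x y : ℝ) : ℂ) = kc f (x - y) := fun x y => kc_real hf _
      simp only [h2]
      have h3 : ∀ x, (v x : ℂ) * ∑ y, kc f (x - y) * (v y : ℂ) = ((l : ℂ) ^ D)⁻¹ *
          ∑ k, (f k : ℂ) * ∑ y, ((v x : ℂ) * ch k x) * starRingEnd ℂ ((v y : ℂ) * ch k y) := by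
        intro x
        unfold kc
        rw [Finset.mul_sum, Finset.mul_sum]
        have h4 : ∀ y, (v x : ℂ) * (((l : ℂ) ^ D)⁻¹ * (∑ k, (f k : ℂ) * ch k (x - y)) * (v y : ℂ)) =
            ∑ k, ((l : ℂ) ^ D)⁻¹ * ((f k : ℂ) * (((v x : ℂ) * ch k x) *
              starRingEnd ℂ ((v y : ℂ) * ch k y))) := by
          intro y
          rw [Finset.mul_sum, Finset.sum_mul, Finset.mul_sum]
          refine Finset.sum_congr rfl fun k _ => ?_
          rw [ch_sub, map_mul, Complex.conj_ofReal]
          ring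
        simp only [h4]
        rw [Finset.sum_comm]
        refine Finset.sum_congr rfl fun k _ => ?_
        rw [Finset.mul_sum, Finset.mul_sum]
      simp only [h3]
      rw [← Finset.mul_sum, Finset.sum_comm]
      congr 1
      refine Finset.sum_congr rfl fun k _ => ?_
      rw [← Finset.mul_sum]
      congr 1
      rw [Complex.normSq_eq_conj_mul_self, map_sum, Finset.sum_mul_sum]
      rw [Finset.sum_comm]
      refine Finset.sum_congr rfl fun x _ => Finset.sum_congr rfl fun y _ => ?_
      ring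
    have h2 : v ⬝ᵥ (Km f *ᵥ v) = ((l : ℝ) ^ D)⁻¹ *
        ∑ k, f k * Complex.normSq (∑ x, (v x : ℂ) * ch k x) := by exact_mod_cast h1
    rw [h2]
    exact mul_nonneg (by positivity) (Finset.sum_nonneg fun k _ =>
      mul_nonneg (h0 k) (Complex.normSq_nonneg _))

/-- the Laplacian of the torus -/
def Lp (D l : ℕ) [NeZero l] : RM (Si D l) := Matrix.of fun x y =>
  ∑ i : Fin D, ((2 : ℝ) * (if x = y then 1 else 0) - (if x + Pi.single i 1 = y then 1 else 0) -
    (if x - Pi.single i 1 = y then 1 else 0))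

lemma Km_om2 : Km (om2 (D := D) (l := l)) = Lp D l := by
  ext x y
  have h1 : ((Km om2 x y : ℝ) : ℂ) = ((Lp D l x y : ℝ) : ℂ) := by
    have h2 : ((Km om2 x y : ℝ) : ℂ) = kc om2 (x - y) := kc_real om2_neg _
    rw [h2]
    unfold kc
    have h3 : ∀ k : Si D l, (om2 k : ℂ) * ch k (x - y) = ∑ i, (2 * ch k (x - y) -
        ch k (x + Pi.single i 1 - y) - ch k (x - Pi.single i 1 - y)) := by
      intro k
      unfold om2
      push_cast
      rw [Finset.sum_mul]
      refine Finset.sum_congr rfl fun i _ => ?_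
      have e1 : (2 : ℂ) * ((ch k (Pi.single i 1)).re : ℂ) = ch k (Pi.single i 1) +
          starRingEnd ℂ (ch k (Pi.single i 1)) := by
        rw [Complex.add_conj]; push_cast; ring
      have e2 : x + Pi.single i 1 - y = (x - y) + Pi.single i 1 := by abel
      have e3 : x - Pi.single i 1 - y = (x - y) - Pi.single i 1 := by abel
      rw [e1, e2, e3, ch_add k (x - y), ch_sub k (x - y) (Pi.single i 1)]
      ring
    simp only [h3]
    rw [Finset.sum_comm, Finset.mul_sum]
    have h4 : ∀ i : Fin D, ((l : ℂ) ^ D)⁻¹ * ∑ k : Si D l, (2 * ch k (x - y) -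
        ch k (x + Pi.single i 1 - y) - ch k (x - Pi.single i 1 - y)) =
        2 * (if x = y then 1 else 0) - (if x + Pi.single i 1 = y then 1 else 0) -
        (if x - Pi.single i 1 = y then 1 else 0) := by
      intro i
      rw [Finset.sum_sub_distrib, Finset.sum_sub_distrib, ← Finset.mul_sum, ch_sum, ch_sum, ch_sum]
      simp only [sub_eq_zero]
      have := ld0 (D := D) (l := l)
      have e : ∀ p : Prop, ∀ [Decidable p], (if p then (l : ℂ) ^ D else 0) =
          (l : ℂ) ^ D * (if p then 1 else 0) := fun p _ => by split_ifs <;> simp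
      rw [e, e, e]
      field_simp
    simp only [h4]
    show _ = ((∑ i : Fin D, ((2 : ℝ) * (if x = y then 1 else 0) -
      (if x + Pi.single i 1 = y then 1 else 0) - (if x - Pi.single i 1 = y then 1 else 0)) : ℝ) : ℂ)
    rw [Complex.ofReal_sum]
    refine Finset.sum_congr rfl fun i _ => ?_
    split_ifs <;> simp
  exact_mod_cast h1

/-- The square root of the Laplacian and its trace. -/
theorem sqrt_Lp {K : RM (Si D l)} (hK : K.PosSemidef) (h : K * K = Lp D l) :
    K.trace = ∑ k : Si D l, om k := by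
  have h1 : Km om * Km om = Lp D l := by
    rw [Km_mul om_neg om_neg, ← Km_om2]
    congr 1
    funext k
    exact om_sq k
  have h2 : K = Km om := uniq hK (Km_psd om_neg fun k => Real.sqrt_nonneg _) (h.trans h1.symm)
  rw [h2, Km_trace]

lemma ch_single (k : Si D l) (i : Fin D) :
    2 - 2 * (ch k (Pi.single i 1)).re = 4 * Real.sin (Real.pi * (k i).val / l) ^ 2 := by
  have h1 : ∑ j, k j * (Pi.single i 1 : Si D l) j = k i := by
    simp [Pi.single_apply]
  unfold ch
  rw [h1, ZMod.stdAddChar_apply, ZMod.toCircle_apply]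
  have h2 : (Complex.exp (2 * Real.pi * Complex.I * (k i).val / l)).re =
      Real.cos (2 * (Real.pi * (k i).val / l)) := by
    have : (2 * Real.pi * Complex.I * (k i).val / l : ℂ) =
        ((2 * (Real.pi * (k i).val / l) : ℝ) : ℂ) * Complex.I := by push_cast; ring
    rw [this, Complex.exp_ofReal_mul_I_re]
  rw [h2, Real.cos_two_mul]
  have := Real.sin_sq_add_cos_sq (Real.pi * (k i).val / l)
  linarith

end

end Pool.Agent.Q205.YM
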