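import Mathlib
import Pool.Agent.Q205.YM.Fou
import Pool.Agent.H906R3.YM.Torus

/-!
# The quadratic form of the magnetic energy of the torus
-/

open Matrix
open scoped MatrixOrder
open Pool.Agent.H906R3.YM

namespace Pool.Agent.Q205.YM

set_option linter.unusedSectionVars false

noncomputable section

section gen

variable {ι : Type*} [Fintype ι] [DecidableEq ι]

lemma eq_of_quad {A B : RM ι} (hA : Aᵀ = A) (hB : Bᵀ = B)
    (h : ∀ v : ι → ℝ, v ⬝ᵥ (A *ᵥ v) = v ⬝ᵥ (B *ᵥ v)) : A = B := by
  have h1 : (B - A).PosSemidef := by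
    rw [psd_iff]
    refine ⟨by rw [transpose_sub, hA, hB], fun v => ?_⟩
    rw [sub_mulVec, dotProduct_sub, h, sub_self]
  have h2 : (A - B).PosSemidef := by
    rw [psd_iff]
    refine ⟨by rw [transpose_sub, hA, hB], fun v => ?_⟩
    rw [sub_mulVec, dotProduct_sub, h, sub_self]
  have h3 : A ≤ B := h1
  have h4 : B ≤ A := h2
  exact le_antisymm h3 h4

/-- sum of the squares of the forms `b k` -/
def SQ {K : Type*} [Fintype K] (b : K → ι → ℝ) : RM ι := ∑ k, vecMulVec (b k) (b k)

lemma SQ_sym {K : Type*} [Fintype K] (b : K → ι → ℝ) : (SQ b)ᵀ = SQ b := by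
  unfold SQ
  rw [transpose_sum]
  exact Finset.sum_congr rfl fun k _ => by rw [transpose_vecMulVec]

lemma SQ_quad {K : Type*} [Fintype K] (b : K → ι → ℝ) (v : ι → ℝ) :
    v ⬝ᵥ (SQ b *ᵥ v) = ∑ k, (b k ⬝ᵥ v) ^ 2 := by
  unfold SQ
  rw [sum_mulVec, dotProduct_sum]
  refine Finset.sum_congr rfl fun k _ => ?_
  rw [vecMulVec_mulVec]
  rw [op_smul_eq_smul, dotProduct_smul, smul_eq_mul]
  rw [dotProduct_comm v, sq]

lemma SQ_psd {K : Type*} [Fintype K] (b : K → ι → ℝ) : (SQ b).PosSemidef := by
  rw [psd_iff]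
  exact ⟨SQ_sym b, fun v => by
    rw [SQ_quad]
    exact Finset.sum_nonneg fun k _ => sq_nonneg _⟩

end gen

variable {D l : ℕ} [NeZero l]

/-- incidence numbers of the torus -/
def incT (p : Si D l × Fin D × Fin D) (e : Ed D l) : ℝ :=
  (if e = (p.1, p.2.1) then 1 else 0) + (if e = (p.1 + eT p.2.1, p.2.2) then 1 else 0) -
    (if e = (p.1 + eT p.2.2, p.2.1) then 1 else 0) - (if e = (p.1, p.2.2) then 1 else 0)

lemma incT_sum {V : Type*} [AddCommGroup V] [Module ℝ V] (p : Si D l × Fin D × Fin D)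
    (a : Ed D l → V) : ∑ e, incT p e • a e =
      a (p.1, p.2.1) + a (p.1 + eT p.2.1, p.2.2) - a (p.1 + eT p.2.2, p.2.1) - a (p.1, p.2.2) := by
  unfold incT
  simp only [sub_smul, add_smul, Finset.sum_sub_distrib, Finset.sum_add_distrib, ite_smul,
    one_smul, zero_smul, Finset.sum_ite_eq', Finset.mem_univ, if_true]

/-- the quadratic form of the magnetic energy -/
def MT (D l : ℕ) [NeZero l] : RM (Ed D l) := SQ fun p : Pl D l => incT p.1

lemma MT_quad (v : Ed D l → ℝ) : v ⬝ᵥ (MT D l *ᵥ v) = ∑ p : Pl D l,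
    (v (p.1.1, p.1.2.1) + v (p.1.1 + eT p.1.2.1, p.1.2.2) - v (p.1.1 + eT p.1.2.2, p.1.2.1) -
      v (p.1.1, p.1.2.2)) ^ 2 := by
  unfold MT
  rw [SQ_quad]
  refine Finset.sum_congr rfl fun p _ => ?_
  congr 1
  exact incT_sum p.1 v

/-- the gradient -/
def d0 (D l : ℕ) [NeZero l] : Matrix (Ed D l) (Si D l) ℝ := Matrix.of fun e y =>
  (if y = e.1 + eT e.2 then 1 else 0) - (if y = e.1 then 1 else 0)

lemma d0_mulVec (f : Si D l → ℝ) (e : Ed D l) : (d0 D l *ᵥ f) e = f (e.1 + eT e.2) - f e.1 := by
  show ∑ y, ((if y = e.1 + eT e.2 then (1 : ℝ) else 0) - (if y = e.1 then 1 else 0)) * f y = _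
  simp [sub_mul, Finset.sum_sub_distrib]

lemma MT_d0 : MT D l * d0 D l = 0 := by
  have h : ∀ f : Si D l → ℝ, MT D l *ᵥ (d0 D l *ᵥ f) = 0 := by
    intro f
    unfold MT SQ
    rw [sum_mulVec]
    refine Finset.sum_eq_zero fun p _ => ?_
    rw [vecMulVec_mulVec]
    have h1 : incT p.1 ⬝ᵥ (d0 D l *ᵥ f) = 0 := by
      have h2 := incT_sum p.1 (d0 D l *ᵥ f)
      simp only [smul_eq_mul] at h2
      unfold dotProduct
      rw [h2]
      simp only [d0_mulVec]
      rw [add_right_comm p.1.1 (eT p.1.2.2) (eT p.1.2.1)]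
      ring
    rw [h1]
    simp
  ext e y
  have h1 := congrFun (h (Pi.single y 1)) e
  rw [mulVec_mulVec, mulVec_single_one] at h1
  exact h1

lemma sum_shift (j : Fin D) (f : Si D l → ℝ) : ∑ x, f (x + eT j) = ∑ x, f x :=
  Fintype.sum_equiv (Equiv.addRight (eT j)) _ _ fun x => rfl

lemma sum_shift' (j : Fin D) (f : Si D l → ℝ) : ∑ x, f (x - eT j) = ∑ x, f x :=
  Fintype.sum_equiv (Equiv.subRight (eT j)) _ _ fun x => rfl

lemma cross (f g : Si D l → ℝ) (i j : Fin D) :
    ∑ y, (f (y - eT i) - f y) * (g (y - eT j) - g y) =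
      ∑ y, (f (y + eT j) - f y) * (g (y + eT i) - g y) := by
  have e1 : ∑ y, f (y - eT i) * g (y - eT j) = ∑ y, f (y + eT j) * g (y + eT i) := by
    rw [← sum_shift i fun y => f (y - eT i) * g (y - eT j),
      ← sum_shift j fun y => f (y + eT i - eT i) * g (y + eT i - eT j)]
    refine Finset.sum_congr rfl fun y _ => ?_
    congr 2 <;> abel
  have e2 : ∑ y, f (y - eT i) * g y = ∑ y, f y * g (y + eT i) := by
    rw [← sum_shift i fun y => f (y - eT i) * g y]
    refine Finset.sum_congr rfl fun y _ => ?_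
    rw [add_sub_cancel_right]
  have e3 : ∑ y, f y * g (y - eT j) = ∑ y, f (y + eT j) * g y := by
    rw [← sum_shift j fun y => f y * g (y - eT j)]
    refine Finset.sum_congr rfl fun y _ => ?_
    rw [add_sub_cancel_right]
  simp only [sub_mul, mul_sub, Finset.sum_sub_distrib, e1, e2, e3]
  ring

lemma Pl_sum (F : Si D l × Fin D × Fin D → ℝ) (hs : ∀ x i j, F (x, i, j) = F (x, j, i))
    (h0 : ∀ x i, F (x, i, i) = 0) :
    2 * ∑ p : Pl D l, F p.1 = ∑ x, ∑ i, ∑ j, F (x, i, j) := by
  have h1 : ∑ p : Pl D l, F p.1 = ∑ x, ∑ i, ∑ j, if i < j then F (x, i, j) else 0 := by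
    have h2 : ∑ p : Pl D l, F p.1 = ∑ p ∈ (Finset.univ.filter
        fun p : Si D l × Fin D × Fin D => p.2.1 < p.2.2), F p := by
      rw [Finset.sum_subtype (p := fun p : Si D l × Fin D × Fin D => p.2.1 < p.2.2)]
      intro p; simp
    rw [h2, Finset.sum_filter, Fintype.sum_prod_type]
    exact Finset.sum_congr rfl fun x _ => by rw [Fintype.sum_prod_type]
  rw [h1, Finset.mul_sum]
  refine Finset.sum_congr rfl fun x _ => ?_
  have h3 : ∑ i, ∑ j, (if i < j then F (x, i, j) else 0) =
      ∑ i, ∑ j, (if j < i then F (x, i, j) else 0) := by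
    rw [Finset.sum_comm]
    refine Finset.sum_congr rfl fun i _ => Finset.sum_congr rfl fun j _ => ?_
    rw [hs]
  rw [two_mul]
  nth_rewrite 2 [h3]
  rw [← Finset.sum_add_distrib]
  refine Finset.sum_congr rfl fun i _ => ?_
  rw [← Finset.sum_add_distrib]
  refine Finset.sum_congr rfl fun j _ => ?_
  rcases lt_trichotomy i j with h | h | h
  · rw [if_pos h, if_neg h.asymm, add_zero]
  · subst h; simp [h0]
  · rw [if_neg h.asymm, if_pos h, zero_add]

/-- the Hodge decomposition of the vector Laplacian -/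
lemma hodge : MT D l + d0 D l * (d0 D l)ᵀ = blockDiagonal fun _ : Fin D => Lp D l := by
  have hLs : (Lp D l)ᵀ = Lp D l := by
    rw [← Km_om2]
    exact sym (Km_psd om2_neg fun k => om2_nonneg k)
  refine eq_of_quad ?_ ?_ fun v => ?_
  · rw [transpose_add, transpose_mul, transpose_transpose]
    congr 1
    exact SQ_sym _
  · rw [blockDiagonal_transpose]
    congr 1
    funext i
    exact hLs
  · rw [add_mulVec, dotProduct_add, MT_quad]
    have h1 : v ⬝ᵥ (d0 D l * (d0 D l)ᵀ) *ᵥ v = ∑ y, (∑ i, (v (y - eT i, i) - v (y, i))) ^ 2 := by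
      rw [← mulVec_mulVec, dotProduct_mulVec, ← mulVec_transpose]
      unfold dotProduct
      refine Finset.sum_congr rfl fun y _ => ?_
      rw [sq]
      have h2 : ((d0 D l)ᵀ *ᵥ v) y = ∑ i, (v (y - eT i, i) - v (y, i)) := by
        show ∑ e : Ed D l, ((if y = e.1 + eT e.2 then (1 : ℝ) else 0) -
          (if y = e.1 then 1 else 0)) * v e = _
        rw [Fintype.sum_prod_type, Finset.sum_comm]
        refine Finset.sum_congr rfl fun i _ => ?_
        simp only [sub_mul, Finset.sum_sub_distrib, ite_mul, one_mul, zero_mul]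
        congr 1
        · have : ∀ x : Si D l, (if y = x + eT i then v (x, i) else 0) =
              if y - eT i = x then v (x, i) else 0 := by
            intro x
            simp only [sub_eq_iff_eq_add]
          simp only [this]
          rw [Finset.sum_ite_eq, if_pos (Finset.mem_univ _)]
        · rw [Finset.sum_ite_eq, if_pos (Finset.mem_univ _)]
      rw [h2]
    have h2 : v ⬝ᵥ ((blockDiagonal fun _ : Fin D => Lp D l) *ᵥ v) =
        ∑ j, ∑ i, ∑ x, (v (x + eT i, j) - v (x, j)) ^ 2 := by
      have h3 : v ⬝ᵥ ((blockDiagonal fun _ : Fin D => Lp D l) *ᵥ v) =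
          ∑ j, ∑ x, v (x, j) * ∑ i, (2 * v (x, j) - v (x + eT i, j) - v (x - eT i, j)) := by
        unfold dotProduct
        rw [Fintype.sum_prod_type, Finset.sum_comm]
        refine Finset.sum_congr rfl fun j _ => Finset.sum_congr rfl fun x _ => ?_
        congr 1
        show ∑ e : Ed D l, (if j = e.2 then Lp D l x e.1 else 0) * v e = _
        rw [Fintype.sum_prod_type, Finset.sum_comm]
        simp only [ite_mul, zero_mul]
        have h4 : ∀ i : Fin D, ∑ y : Si D l, (if j = i then Lp D l x y * v (y, i) else 0) =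
            if j = i then ∑ y, Lp D l x y * v (y, i) else 0 := by
          intro i
          split_ifs with h
          · rfl
          · simp
        simp only [h4]
        rw [Finset.sum_ite_eq, if_pos (Finset.mem_univ _)]
        show ∑ y, (∑ i : Fin D, ((2 : ℝ) * (if x = y then 1 else 0) -
          (if x + Pi.single i 1 = y then 1 else 0) - (if x - Pi.single i 1 = y then 1 else 0))) *
          v (y, j) = _
        simp only [Finset.sum_mul]
        rw [Finset.sum_comm]
        refine Finset.sum_congr rfl fun i _ => ?_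
        simp only [sub_mul, Finset.sum_sub_distrib, mul_ite, ite_mul, one_mul, zero_mul, mul_one,
          mul_zero, Finset.sum_ite_eq, Finset.mem_univ, if_true]
        rfl
      rw [h3]
      refine Finset.sum_congr rfl fun j _ => ?_
      simp only [Finset.mul_sum]
      rw [Finset.sum_comm]
      refine Finset.sum_congr rfl fun i _ => ?_
      have e1 : ∑ x, v (x, j) * v (x - eT i, j) = ∑ x, v (x + eT i, j) * v (x, j) := by
        rw [← sum_shift i fun x => v (x, j) * v (x - eT i, j)]
        refine Finset.sum_congr rfl fun y _ => ?_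
        rw [add_sub_cancel_right]
      have e2 : ∑ x, v (x + eT i, j) * v (x + eT i, j) = ∑ x, v (x, j) * v (x, j) :=
        sum_shift i fun x => v (x, j) * v (x, j)
      have e3 : ∀ x, (v (x + eT i, j) - v (x, j)) ^ 2 = v (x + eT i, j) * v (x + eT i, j) +
          v (x, j) * v (x, j) - 2 * (v (x + eT i, j) * v (x, j)) := fun x => by ring
      have e4 : ∀ x, v (x, j) * (2 * v (x, j) - v (x + eT i, j) - v (x - eT i, j)) =
          2 * (v (x, j) * v (x, j)) - v (x + eT i, j) * v (x, j) - v (x, j) * v (x - eT i, j) :=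
        fun x => by ring
      simp only [e3, e4, Finset.sum_sub_distrib, Finset.sum_add_distrib, ← Finset.mul_sum, e1, e2]
      ring
    rw [h1, h2]
    have h3 := Pl_sum (D := D) (l := l) (fun p => (v (p.1, p.2.1) + v (p.1 + eT p.2.1, p.2.2) -
      v (p.1 + eT p.2.2, p.2.1) - v (p.1, p.2.2)) ^ 2) (fun x i j => by dsimp only; ring)
      (fun x i => by dsimp only; ring)
    have h4 : ∑ y, (∑ i, (v (y - eT i, i) - v (y, i))) ^ 2 =
        ∑ i, ∑ j, ∑ y, (v (y + eT j, i) - v (y, i)) * (v (y + eT i, j) - v (y, j)) := by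
      simp only [sq, Finset.sum_mul_sum]
      rw [Finset.sum_comm]
      refine Finset.sum_congr rfl fun i _ => ?_
      rw [Finset.sum_comm]
      refine Finset.sum_congr rfl fun j _ => ?_
      exact cross (fun y => v (y, i)) (fun y => v (y, j)) i j
    have h5 : ∑ x, ∑ i, ∑ j, (v (x, i) + v (x + eT i, j) - v (x + eT j, i) - v (x, j)) ^ 2 =
        2 * (∑ j, ∑ i, ∑ x, (v (x + eT i, j) - v (x, j)) ^ 2) -
        2 * ∑ i, ∑ j, ∑ y, (v (y + eT j, i) - v (y, i)) * (v (y + eT i, j) - v (y, j)) := by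
      have a1 : ∑ j, ∑ i, ∑ x, (v (x + eT i, j) - v (x, j)) ^ 2 =
          ∑ x, ∑ i, ∑ j, (v (x + eT i, j) - v (x, j)) ^ 2 := by
        rw [Finset.sum_comm]
        simp only [Finset.sum_comm (s := (Finset.univ : Finset (Si D l)))]
      have a2 : ∑ j, ∑ i, ∑ x, (v (x + eT i, j) - v (x, j)) ^ 2 =
          ∑ x, ∑ i, ∑ j, (v (x + eT j, i) - v (x, i)) ^ 2 := by
        simp only [Finset.sum_comm (s := (Finset.univ : Finset (Si D l)))]
      have a3 : ∑ i, ∑ j, ∑ y, (v (y + eT j, i) - v (y, i)) * (v (y + eT i, j) - v (y, j)) =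
          ∑ x, ∑ i, ∑ j, (v (x + eT j, i) - v (x, i)) * (v (x + eT i, j) - v (x, j)) := by
        simp only [Finset.sum_comm (s := (Finset.univ : Finset (Si D l)))]
      rw [two_mul]
      nth_rewrite 2 [a2]
      rw [a1, a3, Finset.mul_sum, ← Finset.sum_add_distrib, ← Finset.sum_sub_distrib]
      refine Finset.sum_congr rfl fun x _ => ?_
      rw [Finset.mul_sum, ← Finset.sum_add_distrib, ← Finset.sum_sub_distrib]
      refine Finset.sum_congr rfl fun i _ => ?_
      rw [Finset.mul_sum, ← Finset.sum_add_distrib, ← Finset.sum_sub_distrib]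
      refine Finset.sum_congr rfl fun j _ => ?_
      ring
    rw [h4]
    dsimp only at h3
    linarith

lemma blk_psd {K : RM (Si D l)} (hK : K.PosSemidef) :
    (blockDiagonal fun _ : Fin D => K).PosSemidef := by
  obtain ⟨C, hC, rfl⟩ := exists_sq hK
  have h1 : (blockDiagonal fun _ : Fin D => C * C) =
      (blockDiagonal fun _ : Fin D => C)ᴴ * (blockDiagonal fun _ : Fin D => C) := by
    rw [blockDiagonal_mul, blockDiagonal_conjTranspose]
    congr 2
    funext i
    exact hC.isHermitian.eq.symm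
  rw [h1]
  exact posSemidef_conjTranspose_mul_self _

/-- The trace of the square root of the quadratic form of the magnetic energy. -/
theorem trace_sqrt_MT {R : RM (Ed D l)} (hR : R.PosSemidef) (h : R * R = MT D l) :
    R.trace = (D - 1) * ∑ k : Si D l, om k := by
  have hL : (Lp D l).PosSemidef := by
    rw [← Km_om2]; exact Km_psd om2_neg fun k => om2_nonneg k
  obtain ⟨K, hK, hKK⟩ := exists_sq hL
  have hd : (d0 D l * (d0 D l)ᵀ).PosSemidef := by
    have := posSemidef_self_mul_conjTranspose (d0 D l)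
    rwa [conjTranspose_eq_transpose_of_trivial] at this
  obtain ⟨S, hS, hSS⟩ := exists_sq hd
  have h1 : R + S = blockDiagonal fun _ : Fin D => K := by
    refine orth_add hR hS (blk_psd hK) ?_ ?_
    · rw [h, hSS, ← Matrix.mul_assoc, MT_d0, Matrix.zero_mul]
    · rw [h, hSS, hodge, ← blockDiagonal_mul]
      congr 1
      funext i
      exact hKK.symm
  have h2 : (d0 D l)ᵀ * d0 D l = Lp D l := by
    refine eq_of_quad ?_ (sym hL) fun v => ?_
    · rw [transpose_mul, transpose_transpose]
    · rw [← mulVec_mulVec, dotProduct_mulVec, vecMul_transpose]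
      have h3 : v ⬝ᵥ (Lp D l *ᵥ v) =
          ∑ x, v x * ∑ i, (2 * v x - v (x + eT i) - v (x - eT i)) := by
        unfold dotProduct
        refine Finset.sum_congr rfl fun x _ => ?_
        congr 1
        show ∑ y, (∑ i : Fin D, ((2 : ℝ) * (if x = y then 1 else 0) -
          (if x + Pi.single i 1 = y then 1 else 0) - (if x - Pi.single i 1 = y then 1 else 0))) *
          v y = _
        simp only [Finset.sum_mul]
        rw [Finset.sum_comm]
        refine Finset.sum_congr rfl fun i _ => ?_
        simp only [sub_mul, Finset.sum_sub_distrib, mul_ite, ite_mul, one_mul, zero_mul, mul_one,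
          mul_zero, Finset.sum_ite_eq, Finset.mem_univ, if_true]
        rfl
      rw [h3]
      unfold dotProduct
      rw [Fintype.sum_prod_type, Finset.sum_comm]
      simp only [d0_mulVec, Finset.mul_sum]
      rw [Finset.sum_comm (s := (Finset.univ : Finset (Si D l)))]
      refine Finset.sum_congr rfl fun i _ => ?_
      have e1 : ∑ x, v x * v (x - eT i) = ∑ x, v (x + eT i) * v x := by
        rw [← sum_shift i fun x => v x * v (x - eT i)]
        refine Finset.sum_congr rfl fun y _ => ?_
        rw [add_sub_cancel_right]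
      have e2 : ∑ x, v (x + eT i) * v (x + eT i) = ∑ x, v x * v x :=
        sum_shift i fun x => v x * v x
      have e3 : ∀ x, (v (x + eT i) - v x) * (v (x + eT i) - v x) = v (x + eT i) * v (x + eT i) +
          v x * v x - 2 * (v (x + eT i) * v x) := fun x => by ring
      have e4 : ∀ x, v x * (2 * v x - v (x + eT i) - v (x - eT i)) =
          2 * (v x * v x) - v (x + eT i) * v x - v x * v (x - eT i) :=
        fun x => by ring
      simp only [e3, e4, Finset.sum_sub_distrib, Finset.sum_add_distrib, ← Finset.mul_sum, e1, e2]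
      ring
  have h3 : S.trace = K.trace := dual hS hK hSS (by rw [h2, hKK])
  have h4 := congrArg Matrix.trace h1
  rw [trace_add, trace_blockDiagonal, h3, Finset.sum_const, Finset.card_univ, Fintype.card_fin,
    nsmul_eq_mul, sqrt_Lp hK hKK] at h4
  linarith

end

end Pool.Agent.Q205.YM
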