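import Mathlib
import Pool.Agent.W793.YM.Dev
import Pool.Agent.Q205.YM.Pth
import Pool.Agent.Q205.YM.Tor

/-!
# The comb gauge near flat configurations
-/

open Matrix
open scoped Matrix.Norms.Frobenius ContDiff
open Pool.Agent.H906R3.YM
open Pool.Agent.W793.YM (dv norm_sq_ip abs_ip_le norm_ct norm_lmul norm_rmul norm_X dv_nonneg
  dv_mul dv_conj dv_sq dv_one dv_inv)

namespace Pool.Agent.Q205.YM

set_option linter.unusedSectionVars false

noncomputable section

variable {G : Type*} [Group G] [TopologicalSpace G] [IsTopologicalGroup G] [CompactSpace G]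
  [SecondCountableTopology G] [MeasurableSpace G] [BorelSpace G] {N n D m : ℕ} {L : LD G N n}

variable (L) in
/-- deviation of the link variable in the comb gauge from the identity -/
def wm (U : Sb D m → G) (w : Pt D) (k : Fin D) : Mat N := L.rho (tl (ext U) w k) - 1

variable (L) in
/-- its curl -/
def dwm (U : Sb D m → G) (v : Pt D) (j k : Fin D) : Mat N :=
  wm L U v j + wm L U (v + es j) k - wm L U (v + es k) j - wm L U v k

/-- links which belong to plaquettes -/
def good (s : Sb D m) : Prop := (s.1 s.2 : ℕ) + 1 < m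

instance (s : Sb D m) : Decidable (good s) := by unfold good; infer_instance

variable (L) in
/-- the size of the deviation -/
def zz (U : Sb D m → G) : ℝ := ∑ s : Sb D m, if good s then ‖wm L U (cv s.1) s.2‖ else 0

lemma zz_nonneg (U : Sb D m → G) : 0 ≤ zz L U :=
  Finset.sum_nonneg fun s _ => by split_ifs <;> positivity

lemma wm_le_zz (U : Sb D m → G) {w : Pt D} {k : Fin D} (hw : ∀ i, w i < m) (hk : w k + 1 < m) :
    ‖wm L U w k‖ ≤ zz L U := by
  have h1 := Finset.single_le_sum (f := fun s : Sb D m => if good s then ‖wm L U (cv s.1) s.2‖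
    else 0) (fun s _ => by split_ifs <;> positivity)
    (Finset.mem_univ ((fun i => ⟨w i, hw i⟩, k) : Sb D m))
  have h2 : good ((fun i => ⟨w i, hw i⟩, k) : Sb D m) := hk
  dsimp only at h1
  rw [if_pos h2] at h1
  exact h1

variable (L) in
/-- the deviation of a plaquette -/
def vq (U : Sb D m → G) (q : Qi D m) : ℝ := dv L (plq (ext U) (cv q.1.1) q.1.2.1 q.1.2.2)

variable (L) in
/-- the curl at a plaquette -/
def yq (U : Sb D m → G) (q : Qi D m) : ℝ := ‖dwm L U (cv q.1.1) q.1.2.1 q.1.2.2‖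

lemma vq_nonneg (U : Sb D m → G) (q : Qi D m) : 0 ≤ vq L U q := dv_nonneg _

lemma yq_nonneg (U : Sb D m → G) (q : Qi D m) : 0 ≤ yq L U q := norm_nonneg _

lemma VS_vq (U : Sb D m → G) : L.ev U (VS L D m) = 1 / 2 * ∑ q, vq L U q ^ 2 := by
  rw [VS_apply, Finset.mul_sum]
  refine Finset.sum_congr rfl fun q _ => ?_
  unfold vq
  rw [dv_sq]; ring

lemma sz_add_es (v : Pt D) (j : Fin D) : sz (v + es j) = sz v + 1 := by
  have h : 0 < (v + es j) j := by simp [es]
  have := sz_sub h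
  rwa [add_tsub_cancel_right] at this

lemma wm_tree (U : Sb D m → G) {w : Pt D} {k : Fin D} (h : ∀ i < k, w i = 0) : wm L U w k = 0 := by
  unfold wm
  rw [tl_tree _ _ _ h, map_one, sub_self]

lemma qi_mk {v : Pt D} {j k : Fin D} (hjk : j < k) (h1 : ∀ i, (v + es j) i < m)
    (h2 : (v + es j) k + 1 < m) : ∃ q : Qi D m, cv q.1.1 = v ∧ q.1.2.1 = j ∧ q.1.2.2 = k ∧
      (∀ i, v i < m) ∧ v k + 1 < m := by
  have hv : ∀ i, v i < m := fun i => lt_of_le_of_lt (by simp) (h1 i)
  have hj : v j + 1 < m := by have := h1 j; simpa [es] using this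
  have hk : v k + 1 < m := by
    have := h2
    simp only [Pi.add_apply, es_ne hjk.ne'] at this
    simpa using this
  exact ⟨⟨(fun i => ⟨v i, hv i⟩, j, k), hjk, hj, hk⟩, rfl, rfl, rfl, hv, hk⟩

/-- the discrete Stokes bound -/
lemma wm_le_v (U : Sb D m → G) (w : Pt D) (k : Fin D) : (∀ i, w i < m) → w k + 1 < m →
    ‖wm L U w k‖ ≤ sz w * ∑ q, vq L U q := by
  have hT : 0 ≤ ∑ q, vq L U q := Finset.sum_nonneg fun q _ => vq_nonneg U q
  refine comb_ind (P := fun w k => (∀ i, w i < m) → w k + 1 < m →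
    ‖wm L U w k‖ ≤ sz w * ∑ q, vq L U q) ?_ ?_ w k
  · intro w k h _ _
    rw [wm_tree U h, norm_zero]
    positivity
  · intro v j k hjk hv ih h1 h2
    obtain ⟨q, q1, q2, q3, hvm, hkm⟩ := qi_mk hjk h1 h2
    have h3 := ih hvm hkm
    have h4 : ‖wm L U (v + es j) k‖ ≤ vq L U q + ‖wm L U v k‖ := by
      have e1 : ‖wm L U (v + es j) k‖ = dv L (tl (ext U) (v + es j) k) := rfl
      rw [e1, tl_step _ v j k hjk hv]
      refine (dv_mul _ _).trans ?_
      rw [dv_conj]
      unfold vq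
      rw [q1, q2, q3]
      rfl
    have h5 := Finset.single_le_sum (f := fun q => vq L U q) (fun q _ => vq_nonneg U q)
      (Finset.mem_univ q)
    rw [sz_add_es]
    push_cast
    linarith

/-- the linear Stokes bound -/
lemma wm_le_y (U : Sb D m → G) (w : Pt D) (k : Fin D) : (∀ i, w i < m) → w k + 1 < m →
    ‖wm L U w k‖ ≤ sz w * ∑ q, yq L U q := by
  have hT : 0 ≤ ∑ q, yq L U q := Finset.sum_nonneg fun q _ => yq_nonneg U q
  refine comb_ind (P := fun w k => (∀ i, w i < m) → w k + 1 < m →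
    ‖wm L U w k‖ ≤ sz w * ∑ q, yq L U q) ?_ ?_ w k
  · intro w k h _ _
    rw [wm_tree U h, norm_zero]
    positivity
  · intro v j k hjk hv ih h1 h2
    obtain ⟨q, q1, q2, q3, hvm, hkm⟩ := qi_mk hjk h1 h2
    have h3 := ih hvm hkm
    have h4 : ‖wm L U (v + es j) k‖ ≤ yq L U q + ‖wm L U v k‖ := by
      have e1 : wm L U (v + es j) k = dwm L U v j k + wm L U v k := by
        unfold dwm
        rw [wm_tree U hv, wm_tree U (w := v + es k) (k := j) (fun i hi => by
          rw [Pi.add_apply, hv i hi, es_ne (hi.trans hjk).ne])]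
        abel
      rw [e1]
      refine (norm_add_le _ _).trans ?_
      unfold yq
      rw [q1, q2, q3]
    have h5 := Finset.single_le_sum (f := fun q => yq L U q) (fun q _ => yq_nonneg U q)
      (Finset.mem_univ q)
    rw [sz_add_es]
    push_cast
    linarith

/-- comparison of a plaquette with the curl -/
lemma vq_yq (U : Sb D m → G) (q : Qi D m) : |vq L U q - yq L U q| ≤ 2 * zz L U ^ 2 := by
  obtain ⟨v, hv⟩ : ∃ v, v = cv q.1.1 := ⟨_, rfl⟩
  obtain ⟨j, hj⟩ : ∃ j, j = q.1.2.1 := ⟨_, rfl⟩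
  obtain ⟨k, hk⟩ : ∃ k, k = q.1.2.2 := ⟨_, rfl⟩
  have hjk : j < k := by rw [hj, hk]; exact q.2.1
  have hjm : v j + 1 < m := by rw [hv, hj]; exact q.2.2.1
  have hkm : v k + 1 < m := by rw [hv, hk]; exact q.2.2.2
  have hvm : ∀ i, v i < m := fun i => by rw [hv]; exact (q.1.1 i).2
  have hadd : ∀ (j i : Fin D), v j + 1 < m → (v + es j) i < m := fun j i hj => by
    by_cases hi : i = j
    · subst hi; simpa [es] using hj
    · simpa [es, hi] using hvm i
  have b1 := wm_le_zz (L := L) U hvm hjm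
  have b2 : ‖wm L U (v + es j) k‖ ≤ zz L U := wm_le_zz U (fun i => hadd j i hjm) (by
    simp only [Pi.add_apply, es_ne hjk.ne']; simpa using hkm)
  have b3 : ‖wm L U (v + es k) j‖ ≤ zz L U := wm_le_zz U (fun i => hadd k i hkm) (by
    simp only [Pi.add_apply, es_ne hjk.ne]; simpa using hjm)
  have b4 := wm_le_zz (L := L) U hvm hkm
  have hz := zz_nonneg (L := L) U
  -- the plaquette
  have h1 : vq L U q = ‖L.rho (tl (ext U) v j) * L.rho (tl (ext U) (v + es j) k) -
      L.rho (tl (ext U) v k) * L.rho (tl (ext U) (v + es k) j)‖ := by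
    unfold vq
    rw [← hv, ← hj, ← hk, ← dv_conj (fr (ext U) v), ← tl_plq]
    show ‖L.rho _ - 1‖ = _
    rw [← norm_rmul (tl (ext U) v k * tl (ext U) (v + es k) j)]
    congr 1
    rw [sub_mul, one_mul, ← map_mul, map_mul L.rho (tl (ext U) v k), ← map_mul L.rho (tl (ext U) v j)]
    congr 2
    group
  have h2 : L.rho (tl (ext U) v j) * L.rho (tl (ext U) (v + es j) k) -
      L.rho (tl (ext U) v k) * L.rho (tl (ext U) (v + es k) j) = dwm L U v j k +
      (wm L U v j * wm L U (v + es j) k - wm L U v k * wm L U (v + es k) j) := by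
    unfold dwm wm
    noncomm_ring
  have h3 : yq L U q = ‖dwm L U v j k‖ := by unfold yq; rw [← hv, ← hj, ← hk]
  rw [h1, h2, h3]
  refine (abs_norm_sub_norm_le _ _).trans ?_
  rw [add_sub_cancel_left]
  refine (norm_sub_le _ _).trans ?_
  have c1 := norm_mul_le (wm L U v j) (wm L U (v + es j) k)
  have c2 := norm_mul_le (wm L U v k) (wm L U (v + es k) j)
  have c3 : ‖wm L U v j‖ * ‖wm L U (v + es j) k‖ ≤ zz L U * zz L U :=
    mul_le_mul b1 b2 (norm_nonneg _) hz
  have c4 : ‖wm L U v k‖ * ‖wm L U (v + es k) j‖ ≤ zz L U * zz L U :=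
    mul_le_mul b4 b3 (norm_nonneg _) hz
  nlinarith

lemma sz_le {w : Pt D} (hw : ∀ i, w i < m) : sz w ≤ D * m := by
  unfold sz
  refine (Finset.sum_le_sum fun i _ => (hw i).le).trans ?_
  simp

lemma zz_le_of (U : Sb D m → G) {T : ℝ} (hT : 0 ≤ T) (h : ∀ (w : Pt D) (k : Fin D),
    (∀ i, w i < m) → w k + 1 < m → ‖wm L U w k‖ ≤ sz w * T) :
    zz L U ≤ (Fintype.card (Sb D m) * (D * m)) * T := by
  unfold zz
  have h1 : ∀ s : Sb D m, (if good s then ‖wm L U (cv s.1) s.2‖ else 0) ≤ (D * m : ℝ) * T := by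
    intro s
    split_ifs with hs
    · refine (h _ _ (fun i => (s.1 i).2) hs).trans ?_
      refine mul_le_mul_of_nonneg_right ?_ hT
      exact_mod_cast sz_le (m := m) fun i => (s.1 i).2
    · positivity
  refine (Finset.sum_le_sum fun s _ => h1 s).trans (le_of_eq ?_)
  rw [Finset.sum_const, Finset.card_univ, nsmul_eq_mul]; ring

lemma zz_le_v (U : Sb D m → G) :
    zz L U ≤ (Fintype.card (Sb D m) * (D * m)) * ∑ q, vq L U q :=
  zz_le_of U (Finset.sum_nonneg fun q _ => vq_nonneg U q) (wm_le_v U)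

lemma zz_le_y (U : Sb D m → G) :
    zz L U ≤ (Fintype.card (Sb D m) * (D * m)) * ∑ q, yq L U q :=
  zz_le_of U (Finset.sum_nonneg fun q _ => yq_nonneg U q) (wm_le_y U)

lemma sq_sum_le {K : Type*} [Fintype K] (f : K → ℝ) :
    (∑ k, f k) ^ 2 ≤ Fintype.card K * ∑ k, f k ^ 2 := by
  have := sq_sum_le_card_mul_sum_sq (s := (Finset.univ : Finset K)) (f := f)
  simpa using this

lemma norm_dv_le (g : G) : ‖L.rho g - 1‖ ≤ 2 * Real.sqrt N := by
  have h1 : ‖(1 : Mat N)‖ = Real.sqrt N := by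
    have h2 : ‖(1 : Mat N)‖ ^ 2 = N := by
      rw [norm_sq_ip, ip_apply, conjTranspose_one, one_mul, trace_one]
      simp
    rw [← h2, Real.sqrt_sq (norm_nonneg _)]
  have h2 : ‖L.rho g‖ = Real.sqrt N := by
    have := norm_lmul (L := L) g 1
    rw [mul_one] at this
    rw [this, h1]
  refine (norm_sub_le _ _).trans ?_
  rw [h1, h2]; linarith

lemma zz_bdd (U : Sb D m → G) : zz L U ≤ Fintype.card (Sb D m) * (2 * Real.sqrt N) := by
  unfold zz
  have h1 : ∀ s : Sb D m, (if good s then ‖wm L U (cv s.1) s.2‖ else 0) ≤ 2 * Real.sqrt N := by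
    intro s
    split_ifs with hs
    · exact norm_dv_le _
    · positivity
  refine (Finset.sum_le_sum fun s _ => h1 s).trans (le_of_eq ?_)
  rw [Finset.sum_const, Finset.card_univ, nsmul_eq_mul]

/-! ### the incidence matrix -/

/-- incidence vector -/
def iq (q : Qi D m) : Sb D m → ℝ := inc (cv q.1.1) q.1.2.1 q.1.2.2

lemma ei_sum {V : Type*} [AddCommGroup V] [Module ℝ V] {w : Pt D} {k : Fin D}
    (hw : ∀ i, w i < m) (a : Pt D → Fin D → V) :
    ∑ s : Sb D m, ei w k s • a (cv s.1) s.2 = a w k := by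
  rw [Finset.sum_eq_single ((fun i => ⟨w i, hw i⟩, k) : Sb D m)]
  · unfold ei
    rw [if_pos ⟨rfl, rfl⟩, one_smul]
    rfl
  · intro s _ hs
    unfold ei
    rw [if_neg, zero_smul]
    rintro ⟨h1, h2⟩
    apply hs
    refine Prod.ext ?_ h2.symm
    funext i
    exact Fin.ext (congrFun h1 i).symm
  · simp

lemma iq_sum {V : Type*} [AddCommGroup V] [Module ℝ V] (q : Qi D m) (a : Pt D → Fin D → V) :
    ∑ s : Sb D m, iq q s • a (cv s.1) s.2 = a (cv q.1.1) q.1.2.1 +
      a (cv q.1.1 + es q.1.2.1) q.1.2.2 - a (cv q.1.1 + es q.1.2.2) q.1.2.1 -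
      a (cv q.1.1) q.1.2.2 := by
  have hvm : ∀ i, cv q.1.1 i < m := fun i => (q.1.1 i).2
  have hadd : ∀ (j i : Fin D), cv q.1.1 j + 1 < m → (cv q.1.1 + es j) i < m := fun j i hj => by
    by_cases hi : i = j
    · subst hi; simpa [es] using hj
    · simpa [es, hi] using hvm i
  unfold iq inc
  simp only [sub_smul, add_smul, Finset.sum_sub_distrib, Finset.sum_add_distrib]
  rw [ei_sum hvm, ei_sum (fun i => hadd _ i q.2.2.1), ei_sum (fun i => hadd _ i q.2.2.2),
    ei_sum hvm]

lemma iq_bad (q : Qi D m) {s : Sb D m} (hs : ¬good s) : iq q s = 0 := by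
  have hq := q.2
  have e : ∀ (w : Pt D) (k : Fin D), w k + 1 < m → ei w k s = 0 := by
    intro w k hw
    unfold ei
    rw [if_neg]
    rintro ⟨h1, h2⟩
    apply hs
    show cv s.1 s.2 + 1 < m
    rw [← h1, ← h2]; exact hw
  unfold iq inc
  have h1 : cv q.1.1 q.1.2.1 + 1 < m := hq.2.1
  have h2 : cv q.1.1 q.1.2.2 + 1 < m := hq.2.2
  rw [e _ _ h1, e _ _ (by
      simp only [Pi.add_apply, es_ne hq.1.ne']; simpa using h2), e _ _ (by
      simp only [Pi.add_apply, es_ne hq.1.ne]; simpa using h1), e _ _ h2]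
  ring

/-- the quadratic form of the magnetic energy of the block -/
def MB (D m : ℕ) : RM (Sb D m) := SQ fun q : Qi D m => iq q

end

end Pool.Agent.Q205.YM
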