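import Mathlib
import Pool.Agent.H906R3.YM.Moll
import Pool.Agent.Q205.YM.Loc

/-!
# Derivatives of the quadratic form of the deviations in the comb gauge
-/

open Matrix
open scoped Matrix.Norms.Frobenius ContDiff
open Pool.Agent.H906R3.YM
open Pool.Agent.W793.YM (dv norm_sq_ip abs_ip_le norm_ct norm_lmul norm_rmul norm_X dv_nonneg
  dv_mul dv_conj dv_sq dv_one dv_inv)

namespace Pool.Agent.Q205.YM

set_option linter.unusedSectionVars false

noncomputable section

variable {G : Type*} [Group G] [TopologicalSpace G] [IsTopologicalGroup G] [CompactSpace G]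
  [SecondCountableTopology G] [MeasurableSpace G] [BorelSpace G] {N n D m : ℕ} {L : LD G N n}

lemma hasDeriv_ip {P Q : ℝ → Mat N} {P' Q' : Mat N} {t : ℝ} (hP : HasDerivAt P P' t)
    (hQ : HasDerivAt Q Q' t) :
    HasDerivAt (fun t => ip (P t) (Q t)) (ip P' (Q t) + ip (P t) Q') t := by
  simp only [ip_sum_co]
  rw [← Finset.sum_add_distrib]
  refine HasDerivAt.fun_sum fun c _ => ?_
  exact ((co c).hasFDerivAt.comp_hasDerivAt t hP).mul ((co c).hasFDerivAt.comp_hasDerivAt t hQ)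

lemma ip_sub_left (A A' B : Mat N) : ip (A - A') B = ip A B - ip A' B := by
  rw [ip_comm, map_sub, ip_comm B A, ip_comm B A']

lemma ip_smul_left (c : ℝ) (A B : Mat N) : ip (c • A) B = c * ip A B := by
  rw [ip_comm, map_smul, smul_eq_mul, ip_comm B A]

lemma ip_sum_left {K : Type*} (s : Finset K) (A : K → Mat N) (B : Mat N) :
    ip (∑ k ∈ s, A k) B = ∑ k ∈ s, ip (A k) B := by
  rw [ip_comm, map_sum]
  exact Finset.sum_congr rfl fun k _ => ip_comm _ _

/-- Bessel's inequality -/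
lemma bessel (B : Mat N) : ∑ a, ip (L.X a) B ^ 2 ≤ ‖B‖ ^ 2 := by
  have h1 : 0 ≤ ‖B - ∑ a, ip (L.X a) B • L.X a‖ ^ 2 := by positivity
  rw [norm_sq_ip, map_sub, ip_sub_left, ip_sub_left, ← norm_sq_ip] at h1
  have h2 : ip B (∑ a, ip (L.X a) B • L.X a) = ∑ a, ip (L.X a) B ^ 2 := by
    rw [map_sum]
    refine Finset.sum_congr rfl fun a _ => ?_
    rw [map_smul, smul_eq_mul, ip_comm B, sq]
  have h3 : ip (∑ a, ip (L.X a) B • L.X a) B = ∑ a, ip (L.X a) B ^ 2 := by
    rw [ip_comm, h2]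
  have h4 : ip (∑ a, ip (L.X a) B • L.X a) (∑ a, ip (L.X a) B • L.X a) =
      ∑ a, ip (L.X a) B ^ 2 := by
    rw [map_sum]
    refine Finset.sum_congr rfl fun a _ => ?_
    rw [map_smul, ip_sum_left, smul_eq_mul]
    simp only [ip_smul_left, ip_X, mul_ite, mul_one, mul_zero, Finset.sum_ite_eq',
      Finset.mem_univ, if_true]
    ring
  rw [h2, h3, h4] at h1
  linarith

lemma norm_rho (g : G) : ‖L.rho g‖ = Real.sqrt N := by
  have h1 : ‖(1 : Mat N)‖ = Real.sqrt N := by
    have h2 : ‖(1 : Mat N)‖ ^ 2 = N := by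
      rw [norm_sq_ip, ip_apply, conjTranspose_one, one_mul, trace_one]
      simp
    rw [← h2, Real.sqrt_sq (norm_nonneg _)]
  have := norm_lmul (L := L) g 1
  rw [mul_one] at this
  rw [this, h1]

/-! ### smoothness -/

lemma SmG_fr (w : Pt D) : SmG L fun U : Sb D m → G => fr (ext U) w :=
  SmG.gam (fun U => ext U) (fun _ _ => SmG.ext _ _) _ _

lemma SmG_tl (w : Pt D) (k : Fin D) : SmG L fun U : Sb D m → G => tl (ext U) w k :=
  ((SmG_fr w).mul (SmG.ext w k)).mul (SmG_fr _).inv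

lemma SmM_wm (w : Pt D) (k : Fin D) : SmM L fun U : Sb D m → G => wm L U w k :=
  SmM.sub (SmG_tl w k) (SmM.const 1)

/-- the deviation of the link `s` -/
def ws (L : LD G N n) (s : Sb D m) (U : Sb D m → G) : Mat N := wm L U (cv s.1) s.2

/-- its coordinates -/
def cw (L : LD G N n) (s : Sb D m) (c : Fin N × Fin N × Bool) : Sm L (Sb D m) :=
  lin (co c) (fun U => ws L s U) (SmM_wm _ _)

/-- the quadratic form of the deviations -/
def sS (L : LD G N n) (R : RM (Sb D m)) : Sm L (Sb D m) :=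
  (1 / 2 : ℝ) • ∑ s, ∑ s', R s s' • ∑ c, cw L s c * cw L s' c

lemma sS_apply (R : RM (Sb D m)) (U : Sb D m → G) :
    (sS L R).1 U = 1 / 2 * ∑ s, ∑ s', R s s' * ip (ws L s U) (ws L s' U) := by
  have h1 : (sS L R).1 U = L.ev U (sS L R) := rfl
  rw [h1]
  unfold sS
  rw [map_smul, map_sum, smul_eq_mul]
  congr 1
  refine Finset.sum_congr rfl fun s _ => ?_
  rw [map_sum]
  refine Finset.sum_congr rfl fun s' _ => ?_
  rw [map_smul, map_sum, smul_eq_mul, ip_sum_co]
  rfl

/-! ### curves -/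

/-- the Lie algebra element seen from the corner -/
def Xt (L : LD G N n) (e : Sb D m) (a : Fin n) (U : Sb D m → G) : Mat N :=
  L.rho (fr (ext U) (cv e.1)) * L.X a * (L.rho (fr (ext U) (cv e.1)))ᴴ

lemma norm_Xt (e : Sb D m) (a : Fin n) (U : Sb D m → G) : ‖Xt L e a U‖ = 1 := by
  unfold Xt
  rw [← L.rho_inv, norm_rmul, norm_lmul, norm_X]

lemma rho_gg (e : Sb D m) (a : Fin n) (t : ℝ) (U : Sb D m → G) : L.rho (gg L e a t U) =
    L.rho (fr (ext U) (cv e.1)) * L.rho (L.ex a t) * (L.rho (fr (ext U) (cv e.1)))ᴴ := by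
  unfold gg
  rw [map_mul, map_mul, L.rho_inv]

lemma gg_add (e : Sb D m) (a : Fin n) (s t : ℝ) (U : Sb D m → G) :
    gg L e a (s + t) U = gg L e a s U * gg L e a t U := by
  unfold gg
  rw [L.ex_add]
  group

lemma gg_zero (e : Sb D m) (a : Fin n) (U : Sb D m → G) : gg L e a 0 U = 1 := by
  unfold gg
  rw [L.ex_zero]
  group

lemma gg_inv (e : Sb D m) (a : Fin n) (t : ℝ) (U : Sb D m → G) :
    (gg L e a t U)⁻¹ = gg L e a (-t) U := by
  rw [inv_eq_iff_mul_eq_one, ← gg_add, add_neg_cancel, gg_zero]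

lemma deriv_gg0 (e : Sb D m) (a : Fin n) (U : Sb D m → G) :
    HasDerivAt (fun t => L.rho (gg L e a t U)) (Xt L e a U) 0 := by
  simp only [rho_gg]
  exact ((L.deriv_ex a).const_mul _).mul_const _

lemma deriv_gg (e : Sb D m) (a : Fin n) (U : Sb D m → G) (t : ℝ) :
    HasDerivAt (fun t => L.rho (gg L e a t U)) (Xt L e a U * L.rho (gg L e a t U)) t := by
  have h1 : (fun s => L.rho (gg L e a s U)) =
      (fun s => L.rho (gg L e a s U) * L.rho (gg L e a t U)) ∘ fun s => s - t := by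
    funext s
    simp only [Function.comp]
    rw [← map_mul, ← gg_add, sub_add_cancel]
  rw [h1]
  have h2 : HasDerivAt (fun s : ℝ => s - t) 1 t := by simpa using (hasDerivAt_id t).sub_const t
  have h3 : HasDerivAt (fun s => L.rho (gg L e a s U) * L.rho (gg L e a t U))
      (Xt L e a U * L.rho (gg L e a t U)) (t - t) := by
    rw [sub_self]
    exact (deriv_gg0 e a U).mul_const _
  exact (HasDerivAt.scomp (h := fun s : ℝ => s - t) t h3 h2).congr_deriv (one_smul _ _)

lemma deriv_gg' (e : Sb D m) (a : Fin n) (U : Sb D m → G) (t : ℝ) :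
    HasDerivAt (fun t => L.rho (gg L e a t U)) (L.rho (gg L e a t U) * Xt L e a U) t := by
  have h1 : (fun s => L.rho (gg L e a s U)) =
      (fun s => L.rho (gg L e a t U) * L.rho (gg L e a s U)) ∘ fun s => s - t := by
    funext s
    simp only [Function.comp]
    rw [← map_mul, ← gg_add, add_sub_cancel]
  rw [h1]
  have h2 : HasDerivAt (fun s : ℝ => s - t) 1 t := by simpa using (hasDerivAt_id t).sub_const t
  have h3 : HasDerivAt (fun s => L.rho (gg L e a t U) * L.rho (gg L e a s U))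
      (L.rho (gg L e a t U) * Xt L e a U) (t - t) := by
    rw [sub_self]
    exact (deriv_gg0 e a U).const_mul _
  exact (HasDerivAt.scomp (h := fun s : ℝ => s - t) t h3 h2).congr_deriv (one_smul _ _)

lemma gg_comm (e : Sb D m) (a : Fin n) (U : Sb D m → G) (t : ℝ) :
    Xt L e a U * L.rho (gg L e a t U) = L.rho (gg L e a t U) * Xt L e a U :=
  (deriv_gg e a U t).unique (deriv_gg' e a U t)

/-- the derivation of the curve -/
def dA (e : Sb D m) (w : Pt D) (k : Fin D) (X B : Mat N) : Mat N :=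
  (al e w k : ℝ) • (X * B) - (be e w k : ℝ) • (B * X)

lemma hasDeriv_tl (e : Sb D m) (a : Fin n) (U : Sb D m → G) (w : Pt D) (k : Fin D) (t : ℝ) :
    HasDerivAt (fun t => L.rho (tl (ext (L.shift e a t U)) w k))
      (dA e w k (Xt L e a U) (L.rho (tl (ext (L.shift e a t U)) w k))) t := by
  have h0 : ∀ t, L.rho (tl (ext (L.shift e a t U)) w k) =
      L.rho (gg L e a (al e w k * t) U) * L.rho (tl (ext U) w k) *
        L.rho (gg L e a (-(be e w k * t)) U) := by
    intro t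
    rw [tl_shift, gg_pow, gg_pow, gg_inv, map_mul, map_mul]
  simp only [h0]
  have h1 : HasDerivAt (fun t : ℝ => (al e w k : ℝ) * t) (al e w k) t := by
    simpa using (hasDerivAt_id t).const_mul (al e w k : ℝ)
  have h2 : HasDerivAt (fun t : ℝ => -((be e w k : ℝ) * t)) (-(be e w k)) t := by
    have h5 : (fun t : ℝ => -((be e w k : ℝ) * t)) = fun t : ℝ => (-(be e w k : ℝ)) * t := by
      funext t; ring
    rw [h5]
    simpa using (hasDerivAt_id t).const_mul (-(be e w k : ℝ))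
  have h3 := (HasDerivAt.scomp (h := fun t : ℝ => (al e w k : ℝ) * t) t
    (deriv_gg (L := L) e a U (al e w k * t)) h1)
  have h4 := (HasDerivAt.scomp (h := fun t : ℝ => -((be e w k : ℝ) * t)) t
    (deriv_gg' (L := L) e a U (-(be e w k * t))) h2)
  refine ((h3.mul_const (L.rho (tl (ext U) w k))).mul h4).congr_deriv ?_
  unfold dA
  simp only [Function.comp]
  rw [smul_mul_assoc, smul_mul_assoc, mul_smul_comm, neg_smul, ← sub_eq_add_neg]
  simp only [Matrix.mul_assoc]

lemma dA_one (e : Sb D m) (w : Pt D) (k : Fin D) (X B : Mat N) :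
    dA e w k X (1 + B) = ((al e w k : ℝ) - be e w k) • X + dA e w k X B := by
  unfold dA
  rw [mul_add, add_mul, mul_one, one_mul, smul_add, smul_add, sub_smul]
  abel

lemma norm_dA (e : Sb D m) (w : Pt D) (k : Fin D) {X B : Mat N} (hX : ‖X‖ = 1) :
    ‖dA e w k X B‖ ≤ ((al e w k : ℝ) + be e w k) * ‖B‖ := by
  unfold dA
  refine (norm_sub_le _ _).trans ?_
  rw [norm_smul, norm_smul, Real.norm_of_nonneg (Nat.cast_nonneg _),
    Real.norm_of_nonneg (Nat.cast_nonneg _), add_mul]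
  have h1 : ‖X * B‖ ≤ ‖B‖ := by
    refine (norm_mul_le _ _).trans ?_
    rw [hX, one_mul]
  have h2 : ‖B * X‖ ≤ ‖B‖ := by
    refine (norm_mul_le _ _).trans ?_
    rw [hX, mul_one]
  exact add_le_add (mul_le_mul_of_nonneg_left h1 (Nat.cast_nonneg _))
    (mul_le_mul_of_nonneg_left h2 (Nat.cast_nonneg _))

/-- the first derivative of the deviation -/
def w1 (L : LD G N n) (e : Sb D m) (a : Fin n) (s : Sb D m) (U : Sb D m → G) : Mat N :=
  dA e (cv s.1) s.2 (Xt L e a U) (L.rho (tl (ext U) (cv s.1) s.2))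

/-- the second derivative of the deviation -/
def w2 (L : LD G N n) (e : Sb D m) (a : Fin n) (s : Sb D m) (U : Sb D m → G) : Mat N :=
  dA e (cv s.1) s.2 (Xt L e a U) (w1 L e a s U)

lemma hasDeriv_dA {e : Sb D m} {w : Pt D} {k : Fin D} {X : Mat N} {B : ℝ → Mat N} {B' : Mat N}
    {t : ℝ} (h : HasDerivAt B B' t) :
    HasDerivAt (fun t => dA e w k X (B t)) (dA e w k X B') t := by
  unfold dA
  exact ((h.const_mul X).const_smul (al e w k : ℝ)).sub ((h.mul_const X).const_smul (be e w k : ℝ))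

lemma Dv_sS {R : RM (Sb D m)} (hR : Rᵀ = R) (e : Sb D m) (a : Fin n) (U : Sb D m → G) :
    (L.Dv (e, a) (sS L R)).1 U = ∑ s, ∑ s', R s s' * ip (w1 L e a s U) (ws L s' U) ∧
    (L.Dv (e, a) (L.Dv (e, a) (sS L R))).1 U =
      ∑ s, ∑ s', R s s' * (ip (w2 L e a s U) (ws L s' U) + ip (w1 L e a s U) (w1 L e a s' U)) := by
  have hsym : ∀ s s', R s s' = R s' s := fun s s' => by
    conv_lhs => rw [← hR]
    rfl
  -- the curves
  obtain ⟨W, hW⟩ : ∃ W : Sb D m → ℝ → Mat N, W = fun s t => ws L s (L.shift e a t U) := ⟨_, rfl⟩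
  obtain ⟨A, hA⟩ : ∃ A : Sb D m → ℝ → Mat N, A = fun s t =>
    L.rho (tl (ext (L.shift e a t U)) (cv s.1) s.2) := ⟨_, rfl⟩
  obtain ⟨A1, hA1⟩ : ∃ A1 : Sb D m → ℝ → Mat N, A1 = fun s t =>
    dA e (cv s.1) s.2 (Xt L e a U) (A s t) := ⟨_, rfl⟩
  have hd : ∀ s t, HasDerivAt (W s) (A1 s t) t := by
    intro s t
    rw [hW, hA1, hA]
    exact (hasDeriv_tl (L := L) e a U (cv s.1) s.2 t).sub_const 1
  have hd1 : ∀ s t, HasDerivAt (A1 s) (dA e (cv s.1) s.2 (Xt L e a U) (A1 s t)) t := by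
    intro s t
    rw [hA1]
    refine hasDeriv_dA ?_
    rw [hA]
    exact hasDeriv_tl (L := L) e a U (cv s.1) s.2 t
  have hφ : ∀ t, HasDerivAt (fun t => (sS L R).1 (L.shift e a t U))
      (∑ s, ∑ s', R s s' * ip (A1 s t) (W s' t)) t := by
    intro t
    have h1 : (fun t => (sS L R).1 (L.shift e a t U)) =
        fun t => 1 / 2 * ∑ s, ∑ s', R s s' * ip (W s t) (W s' t) := by
      funext t
      rw [sS_apply, hW]
    rw [h1]
    have h2 : HasDerivAt (fun t => 1 / 2 * ∑ s, ∑ s', R s s' * ip (W s t) (W s' t))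
        (1 / 2 * ∑ s, ∑ s', R s s' * (ip (A1 s t) (W s' t) + ip (W s t) (A1 s' t))) t :=
      (HasDerivAt.fun_sum fun s _ => HasDerivAt.fun_sum fun s' _ =>
        (hasDeriv_ip (hd s t) (hd s' t)).const_mul _).const_mul _
    refine h2.congr_deriv ?_
    have h3 : ∑ s, ∑ s', R s s' * ip (W s t) (A1 s' t) =
        ∑ s, ∑ s', R s s' * ip (A1 s t) (W s' t) := by
      rw [Finset.sum_comm]
      refine Finset.sum_congr rfl fun s _ => Finset.sum_congr rfl fun s' _ => ?_
      rw [hsym s' s, ip_comm]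
    simp only [mul_add, Finset.sum_add_distrib]
    rw [h3]; ring
  have hval : ∀ t, (L.Dv (e, a) (sS L R)).1 (L.shift e a t U) =
      ∑ s, ∑ s', R s s' * ip (A1 s t) (W s' t) := by
    intro t
    exact (hasDerivAt_dF (sS L R).2 e a U t).unique (hφ t)
  constructor
  · have h1 := hval 0
    rw [hA1, hA, hW] at h1
    simp only [L.shift_zero] at h1
    exact h1
  · have h1 := hasDerivAt_dF (L.Dv (e, a) (sS L R)).2 e a U 0
    have h2 : (fun t => (L.Dv (e, a) (sS L R)).1 (L.shift e a t U)) =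
        fun t => ∑ s, ∑ s', R s s' * ip (A1 s t) (W s' t) := funext hval
    rw [h2] at h1
    have h3 : HasDerivAt (fun t => ∑ s, ∑ s', R s s' * ip (A1 s t) (W s' t))
        (∑ s, ∑ s', R s s' * (ip (dA e (cv s.1) s.2 (Xt L e a U) (A1 s 0)) (W s' 0) +
          ip (A1 s 0) (A1 s' 0))) 0 :=
      HasDerivAt.fun_sum fun s _ => HasDerivAt.fun_sum fun s' _ =>
        (hasDeriv_ip (hd1 s 0) (hd s' 0)).const_mul _
    have h4 := h1.unique h3
    rw [hA1, hA, hW] at h4
    simp only [L.shift_zero] at h4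
    exact h4

end

end Pool.Agent.Q205.YM
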