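import Mathlib
import Pool.Agent.Q205.YM.Der
import Pool.Agent.Q205.YM.LA

/-!
# The quadratic form of the link deviations: derivatives, integration by parts
-/

open MeasureTheory Matrix
open scoped Matrix.Norms.Frobenius ContDiff
open Pool.Agent.H906R3.YM
open Pool.Agent.W793.YM (dv norm_sq_ip abs_ip_le norm_ct norm_lmul norm_rmul norm_X dv_nonneg
  dv_mul dv_conj dv_sq dv_one dv_inv)

namespace Pool.Agent.Q205.YM

set_option linter.unusedSectionVars false

noncomputable section

variable {G : Type*} [Group G] [TopologicalSpace G] [IsTopologicalGroup G] [CompactSpace G]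
  [SecondCountableTopology G] [MeasurableSpace G] [BorelSpace G] {N n : ℕ} {L : LD G N n}
  {E : Type*} [Fintype E] [DecidableEq E]

/-- the deviation of the link `e` -/
def wl (L : LD G N n) (U : E → G) (e : E) : Mat N := L.rho (U e) - 1

lemma SmM_lk (A : Mat N) (e : E) : SmM L fun U : E → G => A * L.rho (U e) :=
  (SmM.const A).mul (SmM.link e)

lemma SmM_wl (e : E) : SmM L fun U : E → G => wl L U e := (SmM.link e).sub (SmM.const 1)

/-- coordinates of `A ρ(U e)` -/
def ck (L : LD G N n) (A : Mat N) (e : E) (c : Fin N × Fin N × Bool) : Sm L E :=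
  lin (co c) (fun U => A * L.rho (U e)) (SmM_lk A e)

/-- coordinates of the deviation -/
def cl (L : LD G N n) (e : E) (c : Fin N × Fin N × Bool) : Sm L E :=
  lin (co c) (fun U => wl L U e) (SmM_wl e)

lemma deriv_lk (e e' : E) (a : Fin n) (U : E → G) :
    HasDerivAt (fun t => L.rho (L.shift e a t U e'))
      (if e' = e then L.X a * L.rho (U e) else 0) 0 := by
  have h0 := (hasDerivAt_pi.1 (L.hasDerivAt_mat e a U)) e'
  have hv : L.vf e a (L.mat U) e' = if e' = e then L.X a * L.rho (U e) else 0 := by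
    by_cases h : e' = e
    · subst h; simp [LD.vf, LD.mat]
    · simp [LD.vf, h]
  rw [hv] at h0
  exact h0

lemma Dv_ck (A : Mat N) (e e' : E) (a : Fin n) (c : Fin N × Fin N × Bool) :
    L.Dv (e, a) (ck L A e' c) = if e' = e then ck L (A * L.X a) e c else 0 := by
  refine Subtype.ext (funext fun U => ?_)
  have h1 := Dv_lin (co c) (fun U : E → G => A * L.rho (U e')) (SmM_lk A e') (e, a) U
    ((deriv_lk (L := L) e e' a U).const_mul A)
  refine h1.trans ?_
  by_cases h : e' = e
  · rw [if_pos h, if_pos h, ← Matrix.mul_assoc]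
    rfl
  · rw [if_neg h, if_neg h, mul_zero, map_zero]
    rfl

lemma Dv_cl (e e' : E) (a : Fin n) (c : Fin N × Fin N × Bool) :
    L.Dv (e, a) (cl L e' c) = if e' = e then ck L (L.X a) e c else 0 := by
  refine Subtype.ext (funext fun U => ?_)
  have h1 := Dv_lin (co c) (fun U : E → G => wl L U e') (SmM_wl e') (e, a) U
    ((deriv_lk (L := L) e e' a U).sub_const 1)
  refine h1.trans ?_
  by_cases h : e' = e
  · rw [if_pos h, if_pos h]
    rfl
  · rw [if_neg h, if_neg h, map_zero]
    rfl

/-- the quadratic form of the deviations -/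
def SW (L : LD G N n) (W : RM E) : Sm L E :=
  (1 / 2 : ℝ) • ∑ e, ∑ e', W e e' • ∑ c, cl L e c * cl L e' c

/-- `W` applied to the deviations -/
def zl (L : LD G N n) (W : RM E) (U : E → G) (e : E) : Mat N := ∑ e', W e e' • wl L U e'

lemma SW_apply (W : RM E) (U : E → G) :
    (SW L W).1 U = 1 / 2 * ∑ e, ∑ e', W e e' * ip (wl L U e) (wl L U e') := by
  have h1 : (SW L W).1 U = L.ev U (SW L W) := rfl
  rw [h1]
  unfold SW
  rw [map_smul, map_sum, smul_eq_mul]
  congr 1
  refine Finset.sum_congr rfl fun s _ => ?_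
  rw [map_sum]
  refine Finset.sum_congr rfl fun s' _ => ?_
  rw [map_smul, map_sum, smul_eq_mul, ip_sum_co]
  rfl

lemma SW_eq (W : RM E) (U : E → G) :
    (SW L W).1 U = 1 / 2 * ∑ e, ip (wl L U e) (zl L W U e) := by
  rw [SW_apply]
  congr 1
  refine Finset.sum_congr rfl fun e _ => ?_
  unfold zl
  rw [map_sum]
  exact Finset.sum_congr rfl fun e' _ => by rw [map_smul, smul_eq_mul]

lemma Dv_SW' {W : RM E} (hW : Wᵀ = W) (e : E) (a : Fin n) :
    L.Dv (e, a) (SW L W) = ∑ e', W e e' • ∑ c, ck L (L.X a) e c * cl L e' c := by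
  have hs : ∀ x y, W x y = W y x := fun x y => by
    conv_lhs => rw [← hW]
    rfl
  unfold SW
  rw [Derivation.map_smul, map_sum]
  have h1 : ∀ x y, L.Dv (e, a) (W x y • ∑ c, cl L x c * cl L y c) =
      (if y = e then W x e • ∑ c, cl L x c * ck L (L.X a) e c else 0) +
      (if x = e then W e y • ∑ c, cl L y c * ck L (L.X a) e c else 0) := by
    intro x y
    rw [Derivation.map_smul, map_sum]
    have h2 : ∀ c, L.Dv (e, a) (cl L x c * cl L y c) =
        (if y = e then cl L x c * ck L (L.X a) e c else 0) +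
        (if x = e then cl L y c * ck L (L.X a) e c else 0) := by
      intro c
      rw [Derivation.leibniz, smul_eq_mul, smul_eq_mul, Dv_cl, Dv_cl]
      by_cases hx : x = e <;> by_cases hy : y = e <;> simp [hx, hy]
    rw [Finset.sum_congr rfl fun c _ => h2 c, Finset.sum_add_distrib, smul_add]
    by_cases hx : x = e <;> by_cases hy : y = e <;> simp [hx, hy]
  have h3 : ∑ x, L.Dv (e, a) (∑ y, W x y • ∑ c, cl L x c * cl L y c) =
      ∑ x, W x e • ∑ c, cl L x c * ck L (L.X a) e c +
      ∑ y, W e y • ∑ c, cl L y c * ck L (L.X a) e c := by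
    have h4 : ∀ x, L.Dv (e, a) (∑ y, W x y • ∑ c, cl L x c * cl L y c) =
        W x e • ∑ c, cl L x c * ck L (L.X a) e c +
        (if x = e then ∑ y, W e y • ∑ c, cl L y c * ck L (L.X a) e c else 0) := by
      intro x
      rw [map_sum, Finset.sum_congr rfl fun y _ => h1 x y, Finset.sum_add_distrib,
        Finset.sum_ite_eq' Finset.univ e, if_pos (Finset.mem_univ _)]
      congr 1
      by_cases hx : x = e
      · simp [hx]
      · simp [hx]
    rw [Finset.sum_congr rfl fun x _ => h4 x, Finset.sum_add_distrib,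
      Finset.sum_ite_eq' Finset.univ e, if_pos (Finset.mem_univ _)]
  rw [h3]
  have h5 : ∑ x, W x e • ∑ c, cl L x c * ck L (L.X a) e c =
      ∑ y, W e y • ∑ c, cl L y c * ck L (L.X a) e c :=
    Finset.sum_congr rfl fun x _ => by rw [hs]
  rw [h5, ← two_smul ℝ, smul_smul]
  norm_num
  refine Finset.sum_congr rfl fun x _ => ?_
  congr 1
  exact Finset.sum_congr rfl fun c _ => mul_comm _ _

lemma sum_ck_cl (A : Mat N) (e e' : E) (U : E → G) :
    L.ev U (∑ c, ck L A e c * cl L e' c) = ip (A * L.rho (U e)) (wl L U e') := by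
  rw [map_sum, ip_sum_co]
  rfl

lemma sum_ck_ck (A B : Mat N) (e e' : E) (U : E → G) :
    L.ev U (∑ c, ck L A e c * ck L B e' c) = ip (A * L.rho (U e)) (B * L.rho (U e')) := by
  rw [map_sum, ip_sum_co]
  rfl

lemma Dv_SW {W : RM E} (hW : Wᵀ = W) (e : E) (a : Fin n) (U : E → G) :
    L.ev U (L.Dv (e, a) (SW L W)) = ip (L.X a * L.rho (U e)) (zl L W U e) := by
  rw [Dv_SW' hW, map_sum]
  unfold zl
  rw [map_sum]
  refine Finset.sum_congr rfl fun e' _ => ?_
  rw [map_smul, map_smul, sum_ck_cl]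

lemma DDv_SW {W : RM E} (hW : Wᵀ = W) (e : E) (a : Fin n) (U : E → G) :
    L.ev U (L.Dv (e, a) (L.Dv (e, a) (SW L W))) =
      ip (L.X a * L.X a * L.rho (U e)) (zl L W U e) + W e e := by
  rw [Dv_SW' hW, map_sum]
  have h1 : ∀ e', L.Dv (e, a) (W e e' • ∑ c, ck L (L.X a) e c * cl L e' c) =
      W e e' • ∑ c, ck L (L.X a * L.X a) e c * cl L e' c +
      (if e' = e then W e e • ∑ c, ck L (L.X a) e c * ck L (L.X a) e c else 0) := by
    intro e'
    rw [Derivation.map_smul, map_sum]
    have h2 : ∀ c, L.Dv (e, a) (ck L (L.X a) e c * cl L e' c) =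
        ck L (L.X a * L.X a) e c * cl L e' c +
        (if e' = e then ck L (L.X a) e c * ck L (L.X a) e c else 0) := by
      intro c
      rw [Derivation.leibniz, smul_eq_mul, smul_eq_mul, Dv_cl, Dv_ck, if_pos rfl]
      by_cases h : e' = e
      · rw [if_pos h, if_pos h]; ring
      · rw [if_neg h, if_neg h]; ring
    rw [Finset.sum_congr rfl fun c _ => h2 c, Finset.sum_add_distrib, smul_add]
    congr 1
    by_cases h : e' = e
    · simp [h]
    · simp [h]
  rw [Finset.sum_congr rfl fun e' _ => h1 e', Finset.sum_add_distrib,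
    Finset.sum_ite_eq' Finset.univ e, if_pos (Finset.mem_univ _), map_add, map_sum]
  congr 1
  · unfold zl
    rw [map_sum]
    refine Finset.sum_congr rfl fun e' _ => ?_
    rw [map_smul, map_smul, sum_ck_cl]
  · rw [map_smul, sum_ck_ck, ← norm_sq_ip, norm_rmul, norm_X, smul_eq_mul]
    ring

/-! ### integration by parts -/

section ibp

variable {A : Type*} [CommRing A] [Algebra ℝ A] {J : Type*} [Fintype J]
  {D : J → Derivation ℝ A A} {I : A →ₗ[ℝ] ℝ}

/-- integration by parts against `ψ²`, `ψ = exp (-S/g²)` -/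
lemma ibp (hI : ∀ j u, I (D j u) = 0) {S ψ : A} {k : ℝ} (hψ : ∀ j, D j ψ = -(k • (ψ * D j S))) :
    I (Lap D S * (ψ * ψ)) = 2 * k * I (Gam D S S * (ψ * ψ)) ∧
    Gam D ψ ψ = (k ^ 2) • (Gam D S S * (ψ * ψ)) := by
  constructor
  · have h1 : ∀ j, I (D j (D j S) * (ψ * ψ)) = 2 * k * I (D j S * D j S * (ψ * ψ)) := by
      intro j
      have h2 := hI j (D j S * (ψ * ψ))
      have h3 : D j (D j S * (ψ * ψ)) = D j (D j S) * (ψ * ψ) -
          (2 * k) • (D j S * D j S * (ψ * ψ)) := by
        rw [Derivation.leibniz, Derivation.leibniz, hψ]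
        simp only [smul_eq_mul]
        rw [mul_smul, two_smul]
        simp only [mul_neg, mul_smul_comm, smul_mul_assoc, Algebra.smul_def]
        ring
      rw [h3, map_sub, map_smul, smul_eq_mul] at h2
      linarith
    unfold Lap Gam
    rw [Finset.sum_mul, Finset.sum_mul, map_sum, map_sum, Finset.mul_sum]
    exact Finset.sum_congr rfl fun j _ => h1 j
  · unfold Gam
    rw [Finset.sum_mul, Finset.smul_sum]
    refine Finset.sum_congr rfl fun j _ => ?_
    rw [hψ]
    simp only [mul_neg, neg_mul, neg_neg, mul_smul_comm, smul_mul_assoc, Algebra.smul_def]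
    rw [map_pow]
    ring

end ibp

end

end Pool.Agent.Q205.YM
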