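import Mathlib
import Pool.Agent.H906R3.YM.Approx

/-!
# Gauge averaging of a trial state
-/

open MeasureTheory Matrix
open scoped Matrix.Norms.Frobenius ContDiff
open Pool.Agent.H906R3.YM

namespace Pool.Agent.Q205.YM

set_option linter.unusedSectionVars false

noncomputable section

/-! ### smoothness of an integral over a compact group of linear transformations -/

section smooth

variable {Γ : Type*} [TopologicalSpace Γ] [CompactSpace Γ] [SecondCountableTopology Γ]
  [MeasurableSpace Γ] [OpensMeasurableSpace Γ] (ν : Measure Γ) [IsProbabilityMeasure ν]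
  {X : Type} [NormedAddCommGroup X] [NormedSpace ℝ X] [FiniteDimensional ℝ X]

theorem smooth_int (T : Γ → X →L[ℝ] X) (hT : Continuous T) (k : ℕ) :
    ∀ (F F' : Type) [NormedAddCommGroup F] [NormedSpace ℝ F] [NormedAddCommGroup F']
      [NormedSpace ℝ F'] [CompleteSpace F'] (f : X → F), ContDiff ℝ ∞ f →
      ∀ Φ : Γ → F →L[ℝ] F', Continuous Φ →
      ContDiff ℝ k fun M => ∫ γ, Φ γ (f (T γ M)) ∂ν := by
  have hcont : ∀ (F F' : Type) [NormedAddCommGroup F] [NormedSpace ℝ F] [NormedAddCommGroup F']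
      [NormedSpace ℝ F'] (f : X → F), Continuous f →
      ∀ Φ : Γ → F →L[ℝ] F', Continuous Φ → Continuous fun p : X × Γ => Φ p.2 (f (T p.2 p.1)) := by
    intro F F' _ _ _ _ f hf Φ hΦ
    exact (hΦ.comp continuous_snd).clm_apply (hf.comp ((hT.comp continuous_snd).clm_apply
      continuous_fst))
  have : ProperSpace X := FiniteDimensional.proper ℝ X
  induction k with
  | zero =>
    intro F F' _ _ _ _ _ f hf Φ hΦ
    refine contDiff_zero.2 ?_
    have h1 := continuous_parametric_integral_of_continuous (μ := ν)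
      (f := fun (M : X) (γ : Γ) => Φ γ (f (T γ M))) (hcont F F' f hf.continuous Φ hΦ)
      (s := Set.univ) isCompact_univ
    simpa only [Measure.restrict_univ] using h1
  | succ k ih =>
    intro F F' _ _ _ _ _ f hf Φ hΦ
    have hf1 : ContDiff ℝ ∞ (fderiv ℝ f) := hf.fderiv_right (by simp)
    set Ψ : Γ → (X →L[ℝ] F) →L[ℝ] (X →L[ℝ] F') := fun γ =>
      (ContinuousLinearMap.compL ℝ X F F' (Φ γ)).comp
        ((ContinuousLinearMap.compL ℝ X X F).flip (T γ)) with hΨ
    have hΨc : Continuous Ψ :=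
      ((ContinuousLinearMap.compL ℝ X F F').continuous.comp hΦ).clm_comp
        ((ContinuousLinearMap.compL ℝ X X F).flip.continuous.comp hT)
    have h2 := ih (X →L[ℝ] F) (X →L[ℝ] F') (fderiv ℝ f) hf1 Ψ hΨc
    have h3 := contDiff_succ_iff_hasFDerivAt (𝕜 := ℝ) (n := k)
      (f := fun M : X => ∫ γ, Φ γ (f (T γ M)) ∂ν)
    push_cast
    refine h3.2 ⟨fun M => ∫ γ, Ψ γ (fderiv ℝ f (T γ M)) ∂ν, h2, fun M0 => ?_⟩
    have hc0 := hcont F F' f hf.continuous Φ hΦ
    have hc1 := hcont (X →L[ℝ] F) (X →L[ℝ] F') (fderiv ℝ f) hf1.continuous Ψ hΨc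
    obtain ⟨C, hC⟩ := ((isCompact_closedBall M0 1).prod (isCompact_univ (X := Γ))).exists_bound_of_continuousOn
      hc1.continuousOn
    have hmeas0 : ∀ M, Continuous fun γ => Φ γ (f (T γ M)) := fun M =>
      hc0.comp (continuous_const.prodMk continuous_id)
    have hmeas1 : ∀ M, Continuous fun γ => Ψ γ (fderiv ℝ f (T γ M)) := fun M =>
      hc1.comp (continuous_const.prodMk continuous_id)
    refine hasFDerivAt_integral_of_dominated_of_fderiv_le (bound := fun _ => C)
      (s := Metric.closedBall M0 1) (F' := fun M γ => Ψ γ (fderiv ℝ f (T γ M)))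
      (Metric.closedBall_mem_nhds M0 one_pos)
      (Filter.Eventually.of_forall fun M => (hmeas0 M).aestronglyMeasurable)
      ((hmeas0 M0).integrable_of_hasCompactSupport (HasCompactSupport.of_compactSpace _))
      (hmeas1 M0).aestronglyMeasurable
      (Filter.Eventually.of_forall fun γ M hM => hC (M, γ) ⟨hM, trivial⟩) (integrable_const _)
      (Filter.Eventually.of_forall fun γ M _ => ?_)
    have h4 : HasFDerivAt f (fderiv ℝ f (T γ M)) (T γ M) :=
      (hf.differentiable (by simp)).differentiableAt.hasFDerivAt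
    exact (Φ γ).hasFDerivAt.comp M (h4.comp M (T γ).hasFDerivAt)

end smooth

variable {G : Type*} [Group G] [TopologicalSpace G] {N n : ℕ} {L : LD G N n}
  [IsTopologicalGroup G] [CompactSpace G] [SecondCountableTopology G]
  [MeasurableSpace G] [BorelSpace G] (μ : Measure G) [IsProbabilityMeasure μ]
  [μ.IsMulLeftInvariant] [μ.IsMulRightInvariant] {D l : ℕ} [NeZero l]

lemma gt_cont : Continuous fun p : (Ed D l → G) × ((Fin D → ZMod l) → G) => gt p.2 p.1 := by
  refine continuous_pi fun e => ?_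
  show Continuous fun p : (Ed D l → G) × ((Fin D → ZMod l) → G) =>
    p.2 e.1 * p.1 e * (p.2 (e.1 + eT e.2))⁻¹
  exact ((((continuous_apply e.1).comp continuous_snd).mul
    ((continuous_apply e).comp continuous_fst)).mul
    (((continuous_apply (e.1 + eT e.2)).comp continuous_snd).inv))

lemma gtC_cont : Continuous fun γ : (Fin D → ZMod l) → G => gtC L γ := by
  refine continuous_clm_apply.2 fun M => continuous_pi fun e => ?_
  show Continuous fun γ : (Fin D → ZMod l) → G =>
    L.rho (γ e.1) * M e * (L.rho (γ (e.1 + eT e.2)))ᴴ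
  have h1 : Continuous fun γ : (Fin D → ZMod l) → G => (L.rho (γ (e.1 + eT e.2)))ᴴ :=
    (ctL N).continuous.comp (L.cont.comp (continuous_apply _))
  exact ((L.cont.comp (continuous_apply _)).mul continuous_const).mul h1

lemma avg_smooth {f : (Ed D l → Mat N) → ℝ} (hf : ContDiff ℝ ∞ f) :
    ContDiff ℝ ∞ fun M => ∫ γ, f (gtC L γ M) ∂(ME μ (Fin D → ZMod l)) := by
  refine contDiff_infty.2 fun k => ?_
  exact smooth_int (ME μ (Fin D → ZMod l)) (fun γ => gtC L γ) gtC_cont k ℝ ℝ f hf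
    (fun _ => ContinuousLinearMap.id ℝ ℝ) continuous_const

/-- the gauge average -/
def avg (F : Sm L (Ed D l)) : Sm L (Ed D l) :=
  ⟨fun U => ∫ γ, F.1 (gt γ U) ∂(ME μ (Fin D → ZMod l)), by
    obtain ⟨F, f, hf, h⟩ := F
    refine ⟨_, avg_smooth (L := L) μ hf, fun U => ?_⟩
    refine integral_congr_ae (Filter.Eventually.of_forall fun γ => ?_)
    show F (gt γ U) = f (gtM L γ (L.mat U))
    rw [← mat_gt]; exact h _⟩

lemma avg_apply (F : Sm L (Ed D l)) (U : Ed D l → G) :
    (avg μ F).1 U = ∫ γ, F.1 (gt γ U) ∂(ME μ (Fin D → ZMod l)) := rfl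

lemma cont_gt (F : Sm L (Ed D l)) (U : Ed D l → G) :
    Continuous fun γ : (Fin D → ZMod l) → G => F.1 (gt γ U) :=
  (Sm_cont F).comp (gt_cont.comp (continuous_const.prodMk continuous_id))

lemma gt_gt (γ γ' : (Fin D → ZMod l) → G) (U : Ed D l → G) :
    gt γ (gt γ' U) = gt (γ * γ') U := by
  funext e
  show γ e.1 * (γ' e.1 * U e * (γ' (e.1 + eT e.2))⁻¹) * (γ (e.1 + eT e.2))⁻¹ =
    γ e.1 * γ' e.1 * U e * (γ (e.1 + eT e.2) * γ' (e.1 + eT e.2))⁻¹
  group

lemma avg_inv (F : Sm L (Ed D l)) : Inv (avg μ F) := by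
  intro γ'
  refine ev_ext fun U => ?_
  show ∫ γ, F.1 (gt γ (gt γ' U)) ∂(ME μ (Fin D → ZMod l)) =
    ∫ γ, F.1 (gt γ U) ∂(ME μ (Fin D → ZMod l))
  simp only [gt_gt]
  exact integral_mul_right_eq_self (μ := ME μ (Fin D → ZMod l)) (fun γ => F.1 (gt γ U)) γ'

lemma I_avg (F H : Sm L (Ed D l)) (hH : Inv H) : L.I μ (H * avg μ F) = L.I μ (H * F) := by
  have h0 : ∀ γ U, H.1 (gt γ U) = H.1 U := fun γ U => by
    have := congrArg (L.ev U) (hH γ)
    exact this
  have h1 : L.I μ (H * avg μ F) = ∫ U, ∫ γ, (H * F).1 (gt γ U) ∂(ME μ (Fin D → ZMod l))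
      ∂(ME μ (Ed D l)) := by
    rw [I_apply]
    refine integral_congr_ae (Filter.Eventually.of_forall fun U => ?_)
    show H.1 U * ∫ γ, F.1 (gt γ U) ∂(ME μ (Fin D → ZMod l)) = _
    dsimp only
    rw [← integral_const_mul]
    refine integral_congr_ae (Filter.Eventually.of_forall fun γ => ?_)
    show H.1 U * F.1 (gt γ U) = H.1 (gt γ U) * F.1 (gt γ U)
    rw [h0]
  rw [h1, integral_integral_swap]
  · have h2 : ∀ γ, ∫ U, (H * F).1 (gt γ U) ∂(ME μ (Ed D l)) = L.I μ (H * F) := fun γ =>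
      I_gs μ γ (H * F)
    simp only [h2]
    simp
  · have hc : Continuous (Function.uncurry fun (U : Ed D l → G) (γ : (Fin D → ZMod l) → G) =>
        (H * F).1 (gt γ U)) := (Sm_cont (H * F)).comp gt_cont
    exact hc.integrable_of_hasCompactSupport (HasCompactSupport.of_compactSpace _)

lemma adm_cont (b a : Fin n) : Continuous fun g : G => L.adm g b a := by
  unfold LD.adm
  have h1 : Continuous fun g : G => (L.rho g)ᴴ := (ctL N).continuous.comp L.cont
  exact (ip (L.X b)).continuous.comp ((L.cont.mul continuous_const).mul h1)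

lemma Dv_gs_apply (γ : (Fin D → ZMod l) → G) (e : Ed D l) (a : Fin n) (F : Sm L (Ed D l))
    (U : Ed D l → G) : (L.Dv (e, a) (gs γ F)).1 U =
      ∑ b, L.adm (γ e.1) b a * (L.Dv (e, b) F).1 (gt γ U) := by
  have h1 := congrArg (L.ev U) (Dv_gs γ e a F)
  rw [map_sum] at h1
  refine h1.trans (Finset.sum_congr rfl fun b _ => ?_)
  rw [map_smul]
  rfl

lemma Dv_gs_cont (e : Ed D l) (a : Fin n) (F : Sm L (Ed D l)) (U : Ed D l → G) :
    Continuous fun γ : (Fin D → ZMod l) → G => (L.Dv (e, a) (gs γ F)).1 U := by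
  simp only [Dv_gs_apply]
  exact continuous_finsetSum _ fun b _ =>
    ((adm_cont b a).comp (continuous_apply _)).mul (cont_gt _ _)

lemma Dv_gs_bound (e : Ed D l) (a : Fin n) (F : Sm L (Ed D l)) :
    ∃ C : ℝ, ∀ (γ : (Fin D → ZMod l) → G) (U : Ed D l → G),
      |(L.Dv (e, a) (gs γ F)).1 U| ≤ C := by
  have h1 : ∀ b : Fin n, ∃ C : ℝ, ∀ (g : G) (U : Ed D l → G),
      |L.adm g b a * (L.Dv (e, b) F).1 U| ≤ C := by
    intro b
    have hc : Continuous fun p : G × (Ed D l → G) => |L.adm p.1 b a * (L.Dv (e, b) F).1 p.2| :=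
      (((adm_cont b a).comp continuous_fst).mul ((Sm_cont _).comp continuous_snd)).abs
    obtain ⟨C, hC⟩ := (isCompact_univ.image hc).bddAbove
    exact ⟨C, fun g U => hC ⟨(g, U), trivial, rfl⟩⟩
  choose C hC using h1
  refine ⟨∑ b, C b, fun γ U => ?_⟩
  rw [Dv_gs_apply]
  exact (Finset.abs_sum_le_sum_abs _ _).trans (Finset.sum_le_sum fun b _ => hC b _ _)

lemma Dv_avg (e : Ed D l) (a : Fin n) (F : Sm L (Ed D l)) (U : Ed D l → G) :
    (L.Dv (e, a) (avg μ F)).1 U =
      ∫ γ, (L.Dv (e, a) (gs γ F)).1 U ∂(ME μ (Fin D → ZMod l)) := by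
  obtain ⟨C, hC⟩ := Dv_gs_bound (L := L) e a F
  have hder := hasDerivAt_integral_of_dominated_loc_of_deriv_le
    (μ := ME μ (Fin D → ZMod l))
    (F := fun (t : ℝ) (γ : (Fin D → ZMod l) → G) => (gs γ F).1 (L.shift e a t U))
    (F' := fun t γ => (L.Dv (e, a) (gs γ F)).1 (L.shift e a t U)) (x₀ := (0 : ℝ))
    (s := Set.univ) (bound := fun _ => C) Filter.univ_mem
    (Filter.Eventually.of_forall fun t => (cont_gt F _).aestronglyMeasurable)
    (integrable_cont μ (cont_gt F _))
    (Dv_gs_cont e a F _).aestronglyMeasurable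
    (Filter.Eventually.of_forall fun γ t _ => hC γ _) (integrable_const _)
    (Filter.Eventually.of_forall fun γ t _ => hasDerivAt_dF (gs γ F).2 e a U t)
  have h2 := hasDerivAt_dF (avg μ F).2 e a U 0
  have h3 := h2.unique hder.2
  rw [L.shift_zero] at h3
  exact h3

lemma int_cs {Γ : Type*} [TopologicalSpace Γ] [CompactSpace Γ] [MeasurableSpace Γ]
    [OpensMeasurableSpace Γ] (ν : Measure Γ) [IsFiniteMeasure ν] {f h : Γ → ℝ}
    (hf : Continuous f) (hh : Continuous h) :
    (∫ x, f x * h x ∂ν) ^ 2 ≤ (∫ x, f x * f x ∂ν) * ∫ x, h x * h x ∂ν := by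
  have hi : ∀ k : Γ → ℝ, Continuous k → Integrable k ν := fun k hk =>
    hk.integrable_of_hasCompactSupport (HasCompactSupport.of_compactSpace _)
  refine Pool.Agent.H906R3.YM.sq_le_of_forall fun t => ?_
  have h1 : 0 ≤ ∫ x, (f x + t * h x) * (f x + t * h x) ∂ν :=
    integral_nonneg fun x => mul_self_nonneg _
  have h2 : ∫ x, (f x + t * h x) * (f x + t * h x) ∂ν =
      ∫ x, f x * f x ∂ν + 2 * t * ∫ x, f x * h x ∂ν + t ^ 2 * ∫ x, h x * h x ∂ν := by
    have i1 : Integrable (fun x => f x * f x) ν := hi _ (hf.mul hf)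
    have i2 : Integrable (fun x => 2 * t * (f x * h x)) ν := hi _ (continuous_const.mul (hf.mul hh))
    have i3 : Integrable (fun x => t ^ 2 * (h x * h x)) ν := hi _ (continuous_const.mul (hh.mul hh))
    have j1 := integral_add i1 i2
    have j2 := integral_add (i1.add i2) i3
    have j3 : ∫ x, (f x + t * h x) * (f x + t * h x) ∂ν =
        ∫ x, ((fun x => f x * f x) + fun x => 2 * t * (f x * h x)) x + t ^ 2 * (h x * h x) ∂ν :=
      integral_congr_ae (Filter.Eventually.of_forall fun x => by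
        simp only [Pi.add_apply]
        ring)
    have j4 : ∫ x, ((fun x => f x * f x) + fun x => 2 * t * (f x * h x)) x ∂ν =
        ∫ x, f x * f x + 2 * t * (f x * h x) ∂ν := rfl
    rw [j3, j2, j4, j1, integral_const_mul, integral_const_mul]
  rw [h2] at h1
  exact h1

/-- the square root of the average of the square -/
theorem exists_root (F : Sm L (Ed D l)) : ∃ v : Sm L (Ed D l), Inv v ∧ (∀ U, 0 < v.1 U) ∧
    v * v = avg μ (expS F * expS F) := by
  obtain ⟨f, hf, h⟩ := F.2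
  have hP : ContDiff ℝ ∞ fun M => Real.exp (f M) * Real.exp (f M) := hf.exp.mul hf.exp
  have hQ := avg_smooth (L := L) μ hP
  have hpos : ∀ M, 0 < ∫ γ, (fun M => Real.exp (f M) * Real.exp (f M)) (gtC L γ M)
      ∂(ME μ (Fin D → ZMod l)) := by
    intro M
    have hc : Continuous fun γ : (Fin D → ZMod l) → G =>
        (fun M => Real.exp (f M) * Real.exp (f M)) (gtC L γ M) :=
      hP.continuous.comp ((gtC_cont (L := L)).clm_apply continuous_const)
    obtain ⟨γ0, -, hmin⟩ := isCompact_univ.exists_isMinOn ⟨1, trivial⟩ hc.continuousOn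
    have h1 : ∫ _γ : (Fin D → ZMod l) → G, (fun M => Real.exp (f M) * Real.exp (f M))
        (gtC L γ0 M) ∂(ME μ (Fin D → ZMod l)) ≤
        ∫ γ, (fun M => Real.exp (f M) * Real.exp (f M)) (gtC L γ M)
          ∂(ME μ (Fin D → ZMod l)) :=
      integral_mono (integrable_const _) (integrable_cont μ hc) fun γ => hmin (Set.mem_univ γ)
    refine lt_of_lt_of_le ?_ h1
    simp only [integral_const, probReal_univ, one_smul]
    exact mul_pos (Real.exp_pos _) (Real.exp_pos _)
  have hval : ∀ U, (avg μ (expS F * expS F)).1 U =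
      ∫ γ, (fun M => Real.exp (f M) * Real.exp (f M)) (gtC L γ (L.mat U))
        ∂(ME μ (Fin D → ZMod l)) := by
    intro U
    refine integral_congr_ae (Filter.Eventually.of_forall fun γ => ?_)
    show Real.exp (F.1 (gt γ U)) * Real.exp (F.1 (gt γ U)) =
      Real.exp (f (gtM L γ (L.mat U))) * Real.exp (f (gtM L γ (L.mat U)))
    rw [← mat_gt, ← h]
  have hposU : ∀ U, 0 < (avg μ (expS F * expS F)).1 U := fun U => by
    rw [hval]; exact hpos _
  refine ⟨⟨fun U => Real.sqrt ((avg μ (expS F * expS F)).1 U),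
    ⟨_, hQ.sqrt fun M => (hpos M).ne', fun U => congrArg Real.sqrt (hval U)⟩⟩, ?_, ?_, ?_⟩
  · intro γ
    refine ev_ext fun U => ?_
    have h1 := congrArg (L.ev U) (avg_inv μ (expS F * expS F) γ)
    show Real.sqrt ((avg μ (expS F * expS F)).1 (gt γ U)) =
      Real.sqrt ((avg μ (expS F * expS F)).1 U)
    congr 1
  · intro U
    exact Real.sqrt_pos.2 (hposU U)
  · refine ev_ext fun U => ?_
    exact Real.mul_self_sqrt (hposU U).le

/-- **Gauge averaging of a trial state.** -/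
theorem inv_trial (F : Sm L (Ed D l)) : ∃ v : Sm L (Ed D l), Inv v ∧ (∀ U, 0 < v.1 U) ∧
    L.I μ (v * v) = L.I μ (expS F * expS F) ∧
    L.I μ (VT L D l * (v * v)) = L.I μ (VT L D l * (expS F * expS F)) ∧
    L.I μ (Gam L.Dv v v) ≤ L.I μ (Gam L.Dv (expS F) (expS F)) := by
  obtain ⟨v, hv, hv0, hvv⟩ := exists_root μ F
  obtain ⟨u, hu⟩ : ∃ u : Sm L (Ed D l), u = expS F := ⟨_, rfl⟩
  rw [← hu] at hvv ⊢
  refine ⟨v, hv, hv0, ?_, ?_, ?_⟩
  · have h1 := I_avg μ (u * u) 1 Inv.one
    rw [one_mul, one_mul] at h1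
    rw [hvv, h1]
  · rw [hvv]
    exact I_avg μ (u * u) (VT L D l) fun γ => gs_VT γ
  · have h1 := I_avg μ (Gam L.Dv u u) 1 Inv.one
    rw [one_mul, one_mul] at h1
    rw [← h1]
    refine I_mono μ fun U => ?_
    have h2 : ∀ j : Ed D l × Fin n, (L.Dv j v).1 U * (L.Dv j v).1 U ≤
        ∫ γ, (L.Dv j (gs γ u)).1 U * (L.Dv j (gs γ u)).1 U ∂(ME μ (Fin D → ZMod l)) := by
      rintro ⟨e, a⟩
      have e1 : 2 * (v.1 U * (L.Dv (e, a) v).1 U) = (L.Dv (e, a) (avg μ (u * u))).1 U := by
        rw [← hvv]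
        have h3 : L.Dv (e, a) (v * v) = v * L.Dv (e, a) v + v * L.Dv (e, a) v := by
          rw [Derivation.leibniz, smul_eq_mul]
        rw [h3]
        show _ = v.1 U * (L.Dv (e, a) v).1 U + v.1 U * (L.Dv (e, a) v).1 U
        ring
      have e2 : (L.Dv (e, a) (avg μ (u * u))).1 U = 2 *
          ∫ γ, (gs γ u).1 U * (L.Dv (e, a) (gs γ u)).1 U ∂(ME μ (Fin D → ZMod l)) := by
        rw [Dv_avg, ← integral_const_mul]
        refine integral_congr_ae (Filter.Eventually.of_forall fun γ => ?_)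
        dsimp only
        have h3 : L.Dv (e, a) (gs γ (u * u)) = gs γ u * L.Dv (e, a) (gs γ u) +
            gs γ u * L.Dv (e, a) (gs γ u) := by
          rw [map_mul, Derivation.leibniz, smul_eq_mul]
        rw [h3]
        show (gs γ u).1 U * (L.Dv (e, a) (gs γ u)).1 U +
          (gs γ u).1 U * (L.Dv (e, a) (gs γ u)).1 U = _
        ring
      have e3 : v.1 U * (L.Dv (e, a) v).1 U =
          ∫ γ, (gs γ u).1 U * (L.Dv (e, a) (gs γ u)).1 U ∂(ME μ (Fin D → ZMod l)) := by
        linarith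
      have e4 : v.1 U * v.1 U =
          ∫ γ, (gs γ u).1 U * (gs γ u).1 U ∂(ME μ (Fin D → ZMod l)) := by
        have := congrArg (L.ev U) hvv
        exact this
      have e5 := int_cs (ME μ (Fin D → ZMod l)) (cont_gt u U) (Dv_gs_cont (L := L) e a u U)
      have e6 : (v.1 U * (L.Dv (e, a) v).1 U) ^ 2 ≤ v.1 U * v.1 U *
          ∫ γ, (L.Dv (e, a) (gs γ u)).1 U * (L.Dv (e, a) (gs γ u)).1 U
            ∂(ME μ (Fin D → ZMod l)) := by
        rw [e3, e4]
        exact e5
      have e7 : 0 < v.1 U * v.1 U := mul_pos (hv0 U) (hv0 U)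
      refine le_of_mul_le_mul_left ?_ e7
      refine le_trans (le_of_eq ?_) e6
      ring
    have h4 : L.ev U (Gam L.Dv v v) = ∑ j, (L.Dv j v).1 U * (L.Dv j v).1 U := by
      unfold Gam
      rw [map_sum]
      rfl
    have h5 : L.ev U (avg μ (Gam L.Dv u u)) = ∑ j : Ed D l × Fin n,
        ∫ γ, (L.Dv j (gs γ u)).1 U * (L.Dv j (gs γ u)).1 U ∂(ME μ (Fin D → ZMod l)) := by
      rw [← integral_finsetSum]
      · show ∫ γ, (Gam L.Dv u u).1 (gt γ U) ∂(ME μ (Fin D → ZMod l)) = _
        refine integral_congr_ae (Filter.Eventually.of_forall fun γ => ?_)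
        dsimp only
        have h6 : (Gam L.Dv u u).1 (gt γ U) = L.ev U (gs γ (Gam L.Dv u u)) := rfl
        rw [h6, ← Gam_gs]
        unfold Gam
        rw [map_sum]
        rfl
      · intro j _
        exact integrable_cont μ ((Dv_gs_cont j.1 j.2 u U).mul (Dv_gs_cont j.1 j.2 u U))
    rw [h4, h5]
    exact Finset.sum_le_sum fun j _ => h2 j

end

end Pool.Agent.Q205.YM
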