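import Mathlib
import Pool.Agent.H906R3.YM.Trial
import Pool.Agent.Q205.YM.Der

/-!
# Estimates of the derivatives
-/

open Matrix
open scoped Matrix.Norms.Frobenius ContDiff MatrixOrder
open Pool.Agent.H906R3.YM
open Pool.Agent.W793.YM (dv norm_sq_ip abs_ip_le norm_ct norm_lmul norm_rmul norm_X dv_nonneg
  dv_mul dv_conj dv_sq dv_one dv_inv)

namespace Pool.Agent.Q205.YM

set_option linter.unusedSectionVars false

noncomputable section

section lin

variable {D m : ℕ} {R : RM (Sb D m)}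

lemma R_kill (hR : R.PosSemidef) (hRR : R * R = MB D m) {f : Sb D m → ℝ}
    (h : ∀ q : Qi D m, iq q ⬝ᵥ f = 0) : R *ᵥ f = 0 := by
  have h1 : (R *ᵥ f) ⬝ᵥ (R *ᵥ f) = 0 := by
    rw [← dot_sq hR, hRR]
    unfold MB
    rw [SQ_quad]
    exact Finset.sum_eq_zero fun q _ => by rw [h]; ring
  exact dotProduct_self_eq_zero.1 h1

lemma R_symm (hR : R.PosSemidef) (s s' : Sb D m) : R s s' = R s' s := by
  conv_lhs => rw [← sym hR]
  rfl

lemma R_bad (hR : R.PosSemidef) (hRR : R * R = MB D m) {s : Sb D m} (hs : ¬good s)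
    (s' : Sb D m) : R s' s = 0 := by
  have h1 := R_kill hR hRR (f := Pi.single s 1) (fun q => by
    rw [dotProduct_single, mul_one, iq_bad q hs])
  have h2 := congrFun h1 s'
  rw [mulVec_single_one] at h2
  exact h2

lemma R_bad' (hR : R.PosSemidef) (hRR : R * R = MB D m) {s : Sb D m} (hs : ¬good s)
    (s' : Sb D m) : R s s' = 0 := by
  rw [R_symm hR]; exact R_bad hR hRR hs s'

lemma R_J (hR : R.PosSemidef) (hRR : R * R = MB D m) (e s' : Sb D m) :
    ∑ s, R s' s * ((al e (cv s.1) s.2 : ℝ) - be e (cv s.1) s.2) = R s' e := by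
  obtain ⟨f, hf⟩ : ∃ f : Sb D m → ℝ, f = fun s =>
    ((pp e (cv s.1) : ℝ) - pp e (cv s.1 + es s.2)) := ⟨_, rfl⟩
  have h1 : R *ᵥ f = 0 := by
    refine R_kill hR hRR fun q => ?_
    have h2 := iq_sum q (fun w k => ((pp e w : ℝ) - pp e (w + es k)))
    simp only [smul_eq_mul] at h2
    rw [hf]
    unfold dotProduct
    rw [h2, add_right_comm (cv q.1.1) (es q.1.2.2) (es q.1.2.1)]
    ring
  have h2 := congrFun h1 s'
  have h3 : ∀ s : Sb D m, ((al e (cv s.1) s.2 : ℝ) - be e (cv s.1) s.2) =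
      f s + if s = e then 1 else 0 := by
    intro s
    rw [hf]
    unfold al be
    have h4 : (cv s.1 = cv e.1 ∧ s.2 = e.2) ↔ s = e := by
      constructor
      · rintro ⟨h5, h6⟩
        refine Prod.ext ?_ h6
        funext i
        exact Fin.ext (congrFun h5 i)
      · rintro rfl
        exact ⟨rfl, rfl⟩
    simp only [h4]
    push_cast
    split_ifs <;> ring
  simp only [h3, mul_add, Finset.sum_add_distrib, mul_ite, mul_one, mul_zero,
    Finset.sum_ite_eq', Finset.mem_univ, if_true]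
  have h5 : ∑ s, R s' s * f s = 0 := h2
  rw [h5, zero_add]

/-- bound of the exponents -/
def cA (D m : ℕ) : ℝ := ∑ e : Sb D m, ∑ s : Sb D m, ((al e (cv s.1) s.2 : ℝ) + be e (cv s.1) s.2)

lemma le_cA (e s : Sb D m) : ((al e (cv s.1) s.2 : ℝ) + be e (cv s.1) s.2) ≤ cA D m := by
  unfold cA
  have h0 : ∀ e s : Sb D m, 0 ≤ ((al e (cv s.1) s.2 : ℝ) + be e (cv s.1) s.2) :=
    fun e s => by positivity
  refine (Finset.single_le_sum (f := fun s : Sb D m => ((al e (cv s.1) s.2 : ℝ) +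
    be e (cv s.1) s.2)) (fun s _ => h0 e s) (Finset.mem_univ s)).trans ?_
  exact Finset.single_le_sum (f := fun e : Sb D m => ∑ s : Sb D m, ((al e (cv s.1) s.2 : ℝ) +
    be e (cv s.1) s.2)) (fun e _ => Finset.sum_nonneg fun s _ => h0 e s) (Finset.mem_univ e)

lemma cA_nonneg : 0 ≤ cA D m :=
  Finset.sum_nonneg fun e _ => Finset.sum_nonneg fun s _ => by positivity

/-- sum of the absolute values of the entries -/
def kR (R : RM (Sb D m)) : ℝ := ∑ s, ∑ s', |R s s'|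

lemma kR_nonneg : 0 ≤ kR R := Finset.sum_nonneg fun e _ => Finset.sum_nonneg fun s _ => abs_nonneg _

lemma sum_R_le {F : Sb D m → Sb D m → ℝ} {B : ℝ} (hR : R.PosSemidef) (hRR : R * R = MB D m)
    (h : ∀ s s', good s → good s' → |F s s'| ≤ B) :
    |∑ s, ∑ s', R s s' * F s s'| ≤ kR R * B := by
  unfold kR
  rw [Finset.sum_mul]
  refine (Finset.abs_sum_le_sum_abs _ _).trans (Finset.sum_le_sum fun s _ => ?_)
  rw [Finset.sum_mul]
  refine (Finset.abs_sum_le_sum_abs _ _).trans (Finset.sum_le_sum fun s' _ => ?_)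
  by_cases hs : good s
  · by_cases hs' : good s'
    · rw [abs_mul]
      exact mul_le_mul_of_nonneg_left (h s s' hs hs') (abs_nonneg _)
    · rw [R_bad hR hRR hs']; simp
  · rw [R_bad' hR hRR hs]; simp

/-- `|R v|² ≤ tr R ⟨v, R v⟩` -/
lemma Rv_sq {ι : Type*} [Fintype ι] [DecidableEq ι] {R : RM ι} (hR : R.PosSemidef) (v : ι → ℝ) :
    (R *ᵥ v) ⬝ᵥ (R *ᵥ v) ≤ R.trace * (v ⬝ᵥ (R *ᵥ v)) := by
  obtain ⟨C, hC, rfl⟩ := exists_sq hR
  have h1 : ∀ x : ι → ℝ, (C *ᵥ x) ⬝ᵥ (C *ᵥ x) ≤ (C * C).trace * (x ⬝ᵥ x) := by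
    intro x
    have h2 : (C * C).trace = ∑ i, ∑ j, C i j ^ 2 := by
      unfold Matrix.trace
      refine Finset.sum_congr rfl fun i _ => ?_
      rw [diag_apply, mul_apply]
      refine Finset.sum_congr rfl fun j _ => ?_
      have : C j i = C i j := by
        conv_lhs => rw [← sym hC]
        rfl
      rw [this, sq]
    rw [h2, Finset.sum_mul]
    unfold dotProduct
    refine Finset.sum_le_sum fun i _ => ?_
    have h3 := Finset.sum_mul_sq_le_sq_mul_sq Finset.univ (fun j => C i j) x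
    have h4 : ∑ j, x j * x j = ∑ j, x j ^ 2 := Finset.sum_congr rfl fun j _ => by ring
    rw [h4, ← sq]
    exact h3
  have h2 := h1 (C *ᵥ v)
  rw [← dot_sq hC v] at h2
  rw [mulVec_mulVec] at h2
  exact h2

end lin

variable {G : Type*} [Group G] [TopologicalSpace G] [IsTopologicalGroup G] [CompactSpace G]
  [SecondCountableTopology G] [MeasurableSpace G] [BorelSpace G] {N n D m : ℕ} {L : LD G N n}
  {R : RM (Sb D m)}

lemma ws_le {s : Sb D m} (hs : good s) (U : Sb D m → G) : ‖ws L s U‖ ≤ zz L U :=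
  wm_le_zz U (fun i => (s.1 i).2) hs

lemma w1_eq (e : Sb D m) (a : Fin n) (s : Sb D m) (U : Sb D m → G) :
    w1 L e a s U = ((al e (cv s.1) s.2 : ℝ) - be e (cv s.1) s.2) • Xt L e a U +
      dA e (cv s.1) s.2 (Xt L e a U) (ws L s U) := by
  rw [← dA_one]
  unfold w1 ws wm
  rw [add_sub_cancel]

lemma norm_w1 (e : Sb D m) (a : Fin n) (s : Sb D m) (U : Sb D m → G) :
    ‖w1 L e a s U‖ ≤ cA D m * Real.sqrt N := by
  unfold w1
  refine (norm_dA _ _ _ (norm_Xt e a U)).trans ?_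
  rw [norm_rho]
  exact mul_le_mul_of_nonneg_right (le_cA e s) (Real.sqrt_nonneg _)

lemma norm_w2 (e : Sb D m) (a : Fin n) (s : Sb D m) (U : Sb D m → G) :
    ‖w2 L e a s U‖ ≤ cA D m * (cA D m * Real.sqrt N) := by
  unfold w2
  refine (norm_dA _ _ _ (norm_Xt e a U)).trans ?_
  exact mul_le_mul (le_cA e s) (norm_w1 e a s U) (norm_nonneg _) cA_nonneg

lemma norm_dAw (e : Sb D m) (a : Fin n) {s : Sb D m} (hs : good s) (U : Sb D m → G) :
    ‖dA e (cv s.1) s.2 (Xt L e a U) (ws L s U)‖ ≤ cA D m * zz L U := by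
  refine (norm_dA _ _ _ (norm_Xt e a U)).trans ?_
  exact mul_le_mul (le_cA e s) (ws_le hs U) (norm_nonneg _) cA_nonneg

variable (L R) in
/-- the vector `R w` -/
def Rw (e : Sb D m) (U : Sb D m → G) : Mat N := ∑ s', R e s' • ws L s' U

lemma D1 (hR : R.PosSemidef) (hRR : R * R = MB D m) (e : Sb D m) (a : Fin n) (U : Sb D m → G) :
    |(L.Dv (e, a) (sS L R)).1 U - ip (Xt L e a U) (Rw L R e U)| ≤
      kR R * (cA D m * zz L U ^ 2) := by
  rw [(Dv_sS (sym hR) e a U).1]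
  have h1 : ip (Xt L e a U) (Rw L R e U) = ∑ s, ∑ s', R s s' *
      (((al e (cv s.1) s.2 : ℝ) - be e (cv s.1) s.2) * ip (Xt L e a U) (ws L s' U)) := by
    unfold Rw
    rw [map_sum, Finset.sum_comm]
    refine Finset.sum_congr rfl fun s' _ => ?_
    rw [map_smul, smul_eq_mul, R_symm hR e s', ← R_J hR hRR e s', Finset.sum_mul]
    refine Finset.sum_congr rfl fun s _ => ?_
    rw [R_symm hR s' s]; ring
  have h2 : ∑ s, ∑ s', R s s' * ip (w1 L e a s U) (ws L s' U) - ip (Xt L e a U) (Rw L R e U) =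
      ∑ s, ∑ s', R s s' * ip (dA e (cv s.1) s.2 (Xt L e a U) (ws L s U)) (ws L s' U) := by
    rw [h1, ← Finset.sum_sub_distrib]
    refine Finset.sum_congr rfl fun s _ => ?_
    rw [← Finset.sum_sub_distrib]
    refine Finset.sum_congr rfl fun s' _ => ?_
    rw [w1_eq, ip_add_left, ip_smul_left]; ring
  rw [h2]
  refine sum_R_le hR hRR fun s s' hs hs' => ?_
  refine (abs_ip_le _ _).trans ?_
  have h3 := mul_le_mul (norm_dAw (L := L) e a hs U) (ws_le (L := L) hs' U) (norm_nonneg _)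
    (mul_nonneg cA_nonneg (zz_nonneg U))
  refine h3.trans (le_of_eq ?_)
  ring

lemma D2 (hR : R.PosSemidef) (hRR : R * R = MB D m) : ∃ C : ℝ, 0 ≤ C ∧
    ∀ (e : Sb D m) (a : Fin n) (U : Sb D m → G),
      |(L.Dv (e, a) (L.Dv (e, a) (sS L R))).1 U - R e e| ≤ C * zz L U := by
  obtain ⟨zm, hzm⟩ : ∃ zm : ℝ, zm = Fintype.card (Sb D m) * (2 * Real.sqrt N) := ⟨_, rfl⟩
  have hzm0 : 0 ≤ zm := by rw [hzm]; positivity
  refine ⟨kR R * (cA D m * (cA D m * Real.sqrt N) + 2 * cA D m * cA D m +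
    cA D m * cA D m * zm), ?_, fun e a U => ?_⟩
  · have h1 := kR_nonneg (R := R)
    have h2 := cA_nonneg (D := D) (m := m)
    positivity
  rw [(Dv_sS (sym hR) e a U).2]
  obtain ⟨z, hz⟩ : ∃ z, z = zz L U := ⟨_, rfl⟩
  have hz0 : 0 ≤ z := by rw [hz]; exact zz_nonneg U
  have hzb : z ≤ zm := by rw [hz, hzm]; exact zz_bdd U
  have hX : ip (Xt L e a U) (Xt L e a U) = 1 := by
    rw [← norm_sq_ip, norm_Xt]; norm_num
  obtain ⟨J, hJ⟩ : ∃ J : Sb D m → ℝ, J = fun s => ((al e (cv s.1) s.2 : ℝ) -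
    be e (cv s.1) s.2) := ⟨_, rfl⟩
  have hJb : ∀ s, |J s| ≤ cA D m := fun s => by
    rw [hJ]
    refine le_trans ?_ (le_cA e s)
    rw [abs_le]
    constructor <;> linarith [Nat.cast_nonneg (α := ℝ) (al e (cv s.1) s.2),
      Nat.cast_nonneg (α := ℝ) (be e (cv s.1) s.2)]
  have h1 : R e e = ∑ s, ∑ s', R s s' * (J s * J s') := by
    rw [← R_J hR hRR e e]
    refine Finset.sum_congr rfl fun s _ => ?_
    rw [R_symm hR e s, ← R_J hR hRR e s, Finset.sum_mul]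
    refine Finset.sum_congr rfl fun s' _ => ?_
    rw [hJ]; ring
  obtain ⟨Q, hQ⟩ : ∃ Q : Sb D m → Mat N, Q = fun s =>
    dA e (cv s.1) s.2 (Xt L e a U) (ws L s U) := ⟨_, rfl⟩
  have hQb : ∀ s, good s → ‖Q s‖ ≤ cA D m * z := fun s hs => by
    rw [hQ, hz]; exact norm_dAw e a hs U
  have hw1 : ∀ s, w1 L e a s U = J s • Xt L e a U + Q s := fun s => by
    rw [hJ, hQ]; exact w1_eq e a s U
  have h2 : ∑ s, ∑ s', R s s' * (ip (w2 L e a s U) (ws L s' U) + ip (w1 L e a s U)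
      (w1 L e a s' U)) - R e e = ∑ s, ∑ s', R s s' * (ip (w2 L e a s U) (ws L s' U) +
        (J s * ip (Xt L e a U) (Q s') + J s' * ip (Q s) (Xt L e a U) + ip (Q s) (Q s'))) := by
    rw [h1, ← Finset.sum_sub_distrib]
    refine Finset.sum_congr rfl fun s _ => ?_
    rw [← Finset.sum_sub_distrib]
    refine Finset.sum_congr rfl fun s' _ => ?_
    rw [hw1, hw1, ip_add_left, map_add, map_add, ip_smul_left, ip_smul_left, map_smul, map_smul,
      hX, smul_eq_mul, smul_eq_mul]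
    ring
  rw [h2, mul_assoc]
  refine sum_R_le hR hRR fun s s' hs hs' => ?_
  have c0 := cA_nonneg (D := D) (m := m)
  have b1 : |ip (w2 L e a s U) (ws L s' U)| ≤ cA D m * (cA D m * Real.sqrt N) * z := by
    refine (abs_ip_le _ _).trans ?_
    rw [hz]
    exact mul_le_mul (norm_w2 e a s U) (ws_le hs' U) (norm_nonneg _) (by positivity)
  have b2 : |J s * ip (Xt L e a U) (Q s')| ≤ cA D m * (cA D m * z) := by
    rw [abs_mul]
    refine mul_le_mul (hJb s) ?_ (abs_nonneg _) c0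
    refine (abs_ip_le _ _).trans ?_
    rw [norm_Xt, one_mul]; exact hQb s' hs'
  have b3 : |J s' * ip (Q s) (Xt L e a U)| ≤ cA D m * (cA D m * z) := by
    rw [abs_mul]
    refine mul_le_mul (hJb s') ?_ (abs_nonneg _) c0
    refine (abs_ip_le _ _).trans ?_
    rw [norm_Xt, mul_one]; exact hQb s hs
  have b4 : |ip (Q s) (Q s')| ≤ cA D m * z * (cA D m * zm) := by
    refine (abs_ip_le _ _).trans ?_
    refine mul_le_mul (hQb s hs) ((hQb s' hs').trans ?_) (norm_nonneg _) (by positivity)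
    exact mul_le_mul_of_nonneg_left hzb c0
  rw [← hz]
  refine (abs_add_le _ _).trans ?_
  have e1 := abs_add_le (J s * ip (Xt L e a U) (Q s') + J s' * ip (Q s) (Xt L e a U)) (ip (Q s) (Q s'))
  have e2 := abs_add_le (J s * ip (Xt L e a U) (Q s')) (J s' * ip (Q s) (Xt L e a U))
  nlinarith

/-- Bessel's inequality for the transported basis -/
lemma bessel_Xt (e : Sb D m) (U : Sb D m → G) (B : Mat N) :
    ∑ a, ip (Xt L e a U) B ^ 2 ≤ ‖B‖ ^ 2 := by
  obtain ⟨T, hT⟩ : ∃ T : G, T = fr (ext U) (cv e.1) := ⟨_, rfl⟩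
  have h1 : ∀ a, ip (Xt L e a U) B = ip (L.X a) ((L.rho T)ᴴ * B * L.rho T) := by
    intro a
    unfold Xt
    rw [← hT, ip_comm, ip_conj, ip_comm]
  simp only [h1]
  refine (bessel _).trans (le_of_eq ?_)
  rw [norm_rmul, ← L.rho_inv, norm_lmul]

/-- coordinates of the deviations -/
def vc (L : LD G N n) (U : Sb D m → G) (c : Fin N × Fin N × Bool) : Sb D m → ℝ :=
  fun s => co c (ws L s U)

lemma norm_sq_co (A : Mat N) : ‖A‖ ^ 2 = ∑ c, co c A ^ 2 := by
  rw [norm_sq_ip]; exact (sum_co_sq A).symm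

lemma iq_vc (U : Sb D m → G) (c : Fin N × Fin N × Bool) (q : Qi D m) :
    iq q ⬝ᵥ vc L U c = co c (dwm L U (cv q.1.1) q.1.2.1 q.1.2.2) := by
  have h := iq_sum q (fun w k => co c (wm L U w k))
  simp only [smul_eq_mul] at h
  unfold dotProduct
  refine h.trans ?_
  unfold dwm
  rw [map_sub, map_sub, map_add]

lemma sum_yq (U : Sb D m → G) : ∑ c, ∑ q, (iq q ⬝ᵥ vc L U c) ^ 2 = ∑ q, yq L U q ^ 2 := by
  rw [Finset.sum_comm]
  refine Finset.sum_congr rfl fun q _ => ?_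
  unfold yq
  rw [norm_sq_co]
  exact Finset.sum_congr rfl fun c _ => by rw [iq_vc]

lemma sum_Rw (hR : R.PosSemidef) (hRR : R * R = MB D m) (U : Sb D m → G) :
    ∑ e, ‖Rw L R e U‖ ^ 2 = ∑ q, yq L U q ^ 2 := by
  rw [← sum_yq]
  have h1 : ∀ c, ∑ q, (iq q ⬝ᵥ vc L U c) ^ 2 = (R *ᵥ vc L U c) ⬝ᵥ (R *ᵥ vc L U c) := by
    intro c
    rw [← dot_sq hR, hRR]
    unfold MB
    rw [SQ_quad]
  simp only [h1, norm_sq_co]
  rw [Finset.sum_comm]
  refine Finset.sum_congr rfl fun c _ => ?_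
  unfold dotProduct
  refine Finset.sum_congr rfl fun e _ => ?_
  have h2 : co c (Rw L R e U) = (R *ᵥ vc L U c) e := by
    unfold Rw
    rw [map_sum]
    exact Finset.sum_congr rfl fun s _ => by rw [map_smul, smul_eq_mul]; rfl
  rw [h2, sq]

lemma sS_vc (U : Sb D m → G) : (sS L R).1 U = 1 / 2 * ∑ c, vc L U c ⬝ᵥ (R *ᵥ vc L U c) := by
  rw [sS_apply]
  congr 1
  simp only [ip_sum_co, Finset.mul_sum]
  have h1 : ∀ c, vc L U c ⬝ᵥ (R *ᵥ vc L U c) =
      ∑ s, ∑ s', R s s' * (co c (ws L s U) * co c (ws L s' U)) := by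
    intro c
    unfold dotProduct mulVec dotProduct
    refine Finset.sum_congr rfl fun s _ => ?_
    rw [Finset.mul_sum]
    refine Finset.sum_congr rfl fun s' _ => ?_
    unfold vc; ring
  simp only [h1]
  have h2 : ∀ s : Sb D m, ∑ s', ∑ c, R s s' * (co c (ws L s U) * co c (ws L s' U)) =
      ∑ c, ∑ s', R s s' * (co c (ws L s U) * co c (ws L s' U)) := fun s => Finset.sum_comm
  simp only [h2]
  exact Finset.sum_comm

lemma sS_nonneg (hR : R.PosSemidef) (U : Sb D m → G) : 0 ≤ (sS L R).1 U := by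
  rw [sS_vc]
  exact mul_nonneg (by norm_num) (Finset.sum_nonneg fun c _ => (psd_iff.1 hR).2 _)

lemma sS_le (hR : R.PosSemidef) (hRR : R * R = MB D m) (U : Sb D m → G) :
    (sS L R).1 U ≤ kR R * zz L U ^ 2 := by
  rw [sS_apply]
  have h1 := sum_R_le (F := fun s s' => ip (ws L s U) (ws L s' U)) (B := zz L U ^ 2) hR hRR
    (fun s s' hs hs' => by
      refine (abs_ip_le _ _).trans ?_
      rw [sq]
      exact mul_le_mul (ws_le hs U) (ws_le hs' U) (norm_nonneg _) (zz_nonneg U))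
  have h2 := le_abs_self (∑ s, ∑ s', R s s' * ip (ws L s U) (ws L s' U))
  have h3 : 0 ≤ kR R * zz L U ^ 2 := mul_nonneg kR_nonneg (sq_nonneg _)
  linarith

lemma sS_Y (hR : R.PosSemidef) (hRR : R * R = MB D m) (U : Sb D m → G) :
    ∑ q, yq L U q ^ 2 ≤ 2 * R.trace * (sS L R).1 U := by
  rw [← sum_yq, sS_vc]
  have h1 : ∀ c, ∑ q, (iq q ⬝ᵥ vc L U c) ^ 2 ≤ R.trace * (vc L U c ⬝ᵥ (R *ᵥ vc L U c)) := by
    intro c
    refine le_trans (le_of_eq ?_) (Rv_sq hR _)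
    rw [← dot_sq hR, hRR]
    unfold MB
    rw [SQ_quad]
  refine (Finset.sum_le_sum fun c _ => h1 c).trans (le_of_eq ?_)
  rw [← Finset.mul_sum]; ring

/-- constants -/
lemma zz_sq_y (U : Sb D m → G) : zz L U ^ 2 ≤
    (Fintype.card (Sb D m) * (D * m)) ^ 2 * Fintype.card (Qi D m) * ∑ q, yq L U q ^ 2 := by
  have h1 := zz_le_y (L := L) U
  have h2 := pow_le_pow_left₀ (zz_nonneg U) h1 2
  refine h2.trans ?_
  rw [mul_pow, mul_assoc ((Fintype.card (Sb D m) * (D * m) : ℝ) ^ 2)]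
  exact mul_le_mul_of_nonneg_left (sq_sum_le _) (sq_nonneg _)

lemma zz_sq_v (U : Sb D m → G) : zz L U ^ 2 ≤
    (Fintype.card (Sb D m) * (D * m)) ^ 2 * Fintype.card (Qi D m) * ∑ q, vq L U q ^ 2 := by
  have h1 := zz_le_v (L := L) U
  have h2 := pow_le_pow_left₀ (zz_nonneg U) h1 2
  refine h2.trans ?_
  rw [mul_pow, mul_assoc ((Fintype.card (Sb D m) * (D * m) : ℝ) ^ 2)]
  exact mul_le_mul_of_nonneg_left (sq_sum_le _) (sq_nonneg _)

lemma yq_le_z (U : Sb D m → G) (q : Qi D m) : yq L U q ≤ 4 * zz L U := by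
  have hvm : ∀ i, cv q.1.1 i < m := fun i => (q.1.1 i).2
  have hadd : ∀ (j i : Fin D), cv q.1.1 j + 1 < m → (cv q.1.1 + es j) i < m := fun j i hj => by
    by_cases hi : i = j
    · subst hi; simpa [es] using hj
    · simpa [es, hi] using hvm i
  have h1 : cv q.1.1 q.1.2.1 + 1 < m := q.2.2.1
  have h2 : cv q.1.1 q.1.2.2 + 1 < m := q.2.2.2
  have b1 := wm_le_zz (L := L) U hvm h1
  have b2 : ‖wm L U (cv q.1.1 + es q.1.2.1) q.1.2.2‖ ≤ zz L U := wm_le_zz U
    (fun i => hadd _ i h1) (by simp only [Pi.add_apply, es_ne q.2.1.ne']; simpa using h2)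
  have b3 : ‖wm L U (cv q.1.1 + es q.1.2.2) q.1.2.1‖ ≤ zz L U := wm_le_zz U
    (fun i => hadd _ i h2) (by simp only [Pi.add_apply, es_ne q.2.1.ne]; simpa using h1)
  have b4 := wm_le_zz (L := L) U hvm h2
  unfold yq dwm
  have e1 := norm_sub_le (wm L U (cv q.1.1) q.1.2.1 + wm L U (cv q.1.1 + es q.1.2.1) q.1.2.2 -
    wm L U (cv q.1.1 + es q.1.2.2) q.1.2.1) (wm L U (cv q.1.1) q.1.2.2)
  have e2 := norm_sub_le (wm L U (cv q.1.1) q.1.2.1 + wm L U (cv q.1.1 + es q.1.2.1) q.1.2.2)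
    (wm L U (cv q.1.1 + es q.1.2.2) q.1.2.1)
  have e3 := norm_add_le (wm L U (cv q.1.1) q.1.2.1) (wm L U (cv q.1.1 + es q.1.2.1) q.1.2.2)
  linarith

/-- the curl is bounded by the magnetic energy -/
lemma Y_le_V : ∃ C : ℝ, 0 ≤ C ∧ ∀ U : Sb D m → G,
    ∑ q, yq L U q ^ 2 ≤ 2 * L.ev U (VS L D m) + C * zz L U ^ 3 := by
  obtain ⟨zm, hzm⟩ : ∃ zm : ℝ, zm = Fintype.card (Sb D m) * (2 * Real.sqrt N) := ⟨_, rfl⟩
  have hzm0 : 0 ≤ zm := by rw [hzm]; positivity
  refine ⟨Fintype.card (Qi D m) * (2 * (8 + 2 * zm)), by positivity, fun U => ?_⟩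
  obtain ⟨z, hz⟩ : ∃ z, z = zz L U := ⟨_, rfl⟩
  have hz0 : 0 ≤ z := by rw [hz]; exact zz_nonneg U
  have hzb : z ≤ zm := by rw [hz, hzm]; exact zz_bdd U
  have h1 : ∀ q, yq L U q ^ 2 ≤ vq L U q ^ 2 + 2 * (8 + 2 * zm) * z ^ 3 := by
    intro q
    have a1 := vq_yq (L := L) U q
    have a2 := yq_le_z (L := L) U q
    have a3 := yq_nonneg (L := L) U q
    have a4 := vq_nonneg (L := L) U q
    rw [← hz] at a1 a2
    rw [abs_le] at a1
    have a5 : vq L U q ≤ 4 * z + 2 * z ^ 2 := by linarith [a1.2]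
    have a6 : yq L U q + vq L U q ≤ (8 + 2 * zm) * z := by nlinarith
    have a7 : yq L U q - vq L U q ≤ 2 * z ^ 2 := by linarith [a1.1]
    have a8 : (yq L U q - vq L U q) * (yq L U q + vq L U q) ≤ 2 * z ^ 2 * ((8 + 2 * zm) * z) := by
      refine (mul_le_mul_of_nonneg_right a7 (by linarith)).trans ?_
      exact mul_le_mul_of_nonneg_left a6 (by positivity)
    nlinarith
  refine (Finset.sum_le_sum fun q _ => h1 q).trans ?_
  rw [Finset.sum_add_distrib, Finset.sum_const, Finset.card_univ, nsmul_eq_mul, VS_vq, ← hz]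
  exact le_of_eq (by ring)

/-- the gradient of the quadratic form is bounded by the curl -/
lemma Gam_sS (hR : R.PosSemidef) (hRR : R * R = MB D m) : ∃ C : ℝ, 0 ≤ C ∧ ∀ U : Sb D m → G,
    L.ev U (Gam L.Dv (sS L R) (sS L R)) ≤ ∑ q, yq L U q ^ 2 + C * zz L U ^ 3 := by
  obtain ⟨zm, hzm⟩ : ∃ zm : ℝ, zm = Fintype.card (Sb D m) * (2 * Real.sqrt N) := ⟨_, rfl⟩
  have hzm0 : 0 ≤ zm := by rw [hzm]; positivity
  obtain ⟨K, hK⟩ : ∃ K : ℝ, K = kR R * cA D m := ⟨_, rfl⟩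
  have hK0 : 0 ≤ K := by rw [hK]; exact mul_nonneg kR_nonneg cA_nonneg
  obtain ⟨P, hP⟩ : ∃ P : ℝ, P = kR R := ⟨_, rfl⟩
  have hP0 : 0 ≤ P := by rw [hP]; exact kR_nonneg
  refine ⟨(Fintype.card (Sb D m) * n) * (2 * P * K + K ^ 2 * zm), by positivity, fun U => ?_⟩
  obtain ⟨z, hz⟩ : ∃ z, z = zz L U := ⟨_, rfl⟩
  have hz0 : 0 ≤ z := by rw [hz]; exact zz_nonneg U
  have hzb : z ≤ zm := by rw [hz, hzm]; exact zz_bdd U
  have hRw : ∀ e, ‖Rw L R e U‖ ≤ P * z := by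
    intro e
    unfold Rw
    refine (norm_sum_le _ _).trans ?_
    rw [hP]
    unfold kR
    have h1 : ∑ s', |R e s'| ≤ ∑ s, ∑ s', |R s s'| :=
      Finset.single_le_sum (f := fun s => ∑ s', |R s s'|)
        (fun s _ => Finset.sum_nonneg fun _ _ => abs_nonneg _) (Finset.mem_univ e)
    refine le_trans ?_ (mul_le_mul_of_nonneg_right h1 hz0)
    rw [Finset.sum_mul]
    refine Finset.sum_le_sum fun s' _ => ?_
    rw [norm_smul, Real.norm_eq_abs]
    by_cases hs : good s'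
    · rw [hz]; exact mul_le_mul_of_nonneg_left (ws_le hs U) (abs_nonneg _)
    · rw [R_bad hR hRR hs]; simp
  have h1 : ∀ (e : Sb D m) (a : Fin n), ((L.Dv (e, a) (sS L R)).1 U) ^ 2 ≤
      ip (Xt L e a U) (Rw L R e U) ^ 2 + (2 * P * K + K ^ 2 * zm) * z ^ 3 := by
    intro e a
    have a1 := D1 (L := L) hR hRR e a U
    rw [← mul_assoc, ← hK, ← hz] at a1
    have a2 : |ip (Xt L e a U) (Rw L R e U)| ≤ P * z := by
      refine (abs_ip_le _ _).trans ?_
      rw [norm_Xt, one_mul]; exact hRw e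
    obtain ⟨x, hx⟩ : ∃ x, x = (L.Dv (e, a) (sS L R)).1 U := ⟨_, rfl⟩
    obtain ⟨y, hy⟩ : ∃ y, y = ip (Xt L e a U) (Rw L R e U) := ⟨_, rfl⟩
    rw [← hx, ← hy] at a1
    rw [← hy] at a2
    rw [← hx, ← hy]
    obtain ⟨d, hd⟩ : ∃ d, d = x - y := ⟨_, rfl⟩
    rw [← hd] at a1
    have hx2 : x = y + d := by rw [hd]; ring
    have b1 : y * d ≤ P * z * (K * z ^ 2) := by
      refine (le_abs_self _).trans ?_
      rw [abs_mul]
      exact mul_le_mul a2 a1 (abs_nonneg _) (by positivity)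
    have b2 : d ^ 2 ≤ (K * z ^ 2) ^ 2 := by
      rw [← sq_abs]; exact pow_le_pow_left₀ (abs_nonneg _) a1 2
    have b3 : (K * z ^ 2) ^ 2 ≤ K ^ 2 * zm * z ^ 3 := by
      have : (K * z ^ 2) ^ 2 = K ^ 2 * z * z ^ 3 := by ring
      rw [this]
      exact mul_le_mul_of_nonneg_right (mul_le_mul_of_nonneg_left hzb (sq_nonneg _)) (by positivity)
    rw [hx2]
    nlinarith
  have h2 : L.ev U (Gam L.Dv (sS L R) (sS L R)) =
      ∑ e : Sb D m, ∑ a : Fin n, ((L.Dv (e, a) (sS L R)).1 U) ^ 2 := by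
    unfold Gam
    rw [map_sum, Fintype.sum_prod_type]
    refine Finset.sum_congr rfl fun e _ => Finset.sum_congr rfl fun a _ => ?_
    rw [map_mul, sq]; rfl
  rw [h2]
  have h3 : ∀ e : Sb D m, ∑ a : Fin n, ((L.Dv (e, a) (sS L R)).1 U) ^ 2 ≤
      ‖Rw L R e U‖ ^ 2 + n * ((2 * P * K + K ^ 2 * zm) * z ^ 3) := by
    intro e
    refine (Finset.sum_le_sum fun a _ => h1 e a).trans ?_
    rw [Finset.sum_add_distrib, Finset.sum_const, Finset.card_univ, Fintype.card_fin, nsmul_eq_mul]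
    have := bessel_Xt (L := L) e U (Rw L R e U)
    linarith
  refine (Finset.sum_le_sum fun e _ => h3 e).trans ?_
  rw [Finset.sum_add_distrib, Finset.sum_const, Finset.card_univ, nsmul_eq_mul, sum_Rw hR hRR,
    ← hz]
  exact le_of_eq (by ring)

lemma Lap_sS (hR : R.PosSemidef) (hRR : R * R = MB D m) : ∃ C : ℝ, 0 ≤ C ∧ ∀ U : Sb D m → G,
    |L.ev U (Lap L.Dv (sS L R)) - n * R.trace| ≤ C * zz L U := by
  obtain ⟨C, hC, h⟩ := D2 (L := L) hR hRR
  refine ⟨Fintype.card (Sb D m) * (n * C), by positivity, fun U => ?_⟩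
  have h2 : L.ev U (Lap L.Dv (sS L R)) - n * R.trace =
      ∑ e : Sb D m, ∑ a : Fin n, ((L.Dv (e, a) (L.Dv (e, a) (sS L R))).1 U - R e e) := by
    unfold Lap
    rw [map_sum, Fintype.sum_prod_type]
    simp only [Finset.sum_sub_distrib, Finset.sum_const, Finset.card_univ, Fintype.card_fin,
      nsmul_eq_mul, ← Finset.mul_sum]
    rfl
  rw [h2]
  refine (Finset.abs_sum_le_sum_abs _ _).trans ?_
  have h3 : ∀ e : Sb D m, |∑ a : Fin n, ((L.Dv (e, a) (L.Dv (e, a) (sS L R))).1 U - R e e)| ≤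
      n * (C * zz L U) := by
    intro e
    refine (Finset.abs_sum_le_sum_abs _ _).trans ?_
    refine (Finset.sum_le_sum fun a _ => h e a U).trans (le_of_eq ?_)
    rw [Finset.sum_const, Finset.card_univ, Fintype.card_fin, nsmul_eq_mul]
  refine (Finset.sum_le_sum fun e _ => h3 e).trans (le_of_eq ?_)
  rw [Finset.sum_const, Finset.card_univ, nsmul_eq_mul]; ring

end

end Pool.Agent.Q205.YM
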