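import Mathlib
import Pool.Agent.Q205.YM.Est

/-!
# The pointwise lower bound in a block
-/

open Matrix
open scoped Matrix.Norms.Frobenius ContDiff MatrixOrder
open Pool.Agent.H906R3.YM

namespace Pool.Agent.Q205.YM

set_option linter.unusedSectionVars false

noncomputable section

/-- the elementary inequality behind the choice of the constants -/
lemma real_main {c C r zm c4 s0 δ kr trn C3 C6 ε c' C5 h0 : ℝ}
    (hc : 0 < c) (hC : 0 < C) (hδ : 0 < δ) (hδ1 : δ ≤ 1 / 2) (hr : r = δ * c / C)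
    (hzm : 0 ≤ zm) (hc4 : 0 < c4) (hs0 : s0 = 2 * c4 * r ^ 2 * (δ * c / (C * (zm + 1))))
    (hkr : 0 ≤ kr) (htrn : 0 ≤ trn) (hC3 : 0 ≤ C3) (hC6 : 0 ≤ C6)
    (hε : 0 < ε) (hδε : δ * trn ≤ ε) (hc' : c' = 1 / 2 * δ * c)
    (hC5 : C5 = trn * (kr * zm / s0) + C3 + C6 / s0) (hh0 : h0 = 4 * c' * ε / (C5 ^ 2 + 1))
    {g2 V Γ Λ s z : ℝ} (hg : 0 < g2) (hg0 : g2 ≤ h0) (hz : 0 ≤ z) (hzb : z ≤ zm)
    (h1 : c * z ^ 2 ≤ V) (h3 : Γ ≤ 2 * V + C * z ^ 3) (hΓ : 0 ≤ Γ) (hΓ2 : Γ ≤ C6 * z)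
    (h4 : |Λ - trn| ≤ C3 * z) (hs : 0 ≤ s) (h5 : s ≤ kr * z ^ 2) (h6 : c4 * z ^ 2 ≤ s) :
    1 / 2 * trn - 2 * ε ≤ 1 / g2 * (V - 1 / 2 * ((1 - δ) ^ 2 * Real.exp (-(s / s0)) ^ 2 * Γ)) +
      1 / 2 * ((1 - δ) * (Real.exp (-(s / s0)) * Λ - 1 / s0 * (Real.exp (-(s / s0)) * Γ))) := by
  have hr0 : 0 < r := by rw [hr]; positivity
  have hs00 : 0 < s0 := by rw [hs0]; positivity
  have hc'0 : 0 < c' := by rw [hc']; positivity
  obtain ⟨E, hE⟩ : ∃ E, E = Real.exp (-(s / s0)) := ⟨_, rfl⟩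
  have hE0 : 0 < E := by rw [hE]; exact Real.exp_pos _
  have hE1 : E ≤ 1 := by rw [hE]; exact Real.exp_le_one_iff.2 (by have := div_nonneg hs hs00.le; linarith)
  have hE2 : 1 - E ≤ s / s0 := by
    have := Real.add_one_le_exp (-(s / s0))
    rw [hE]; linarith
  rw [← hE]
  -- the potential
  have hV0 : 0 ≤ V := le_trans (by positivity) h1
  have k1 : C * E ^ 2 * z ≤ δ * c := by
    rcases le_total z r with hzr | hzr
    · have a1 : C * z ≤ δ * c := by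
        rw [hr, le_div_iff₀ hC] at hzr; linarith
      have a2 : E ^ 2 ≤ 1 := pow_le_one₀ hE0.le hE1
      calc C * E ^ 2 * z = E ^ 2 * (C * z) := by ring
        _ ≤ 1 * (C * z) := mul_le_mul_of_nonneg_right a2 (by positivity)
        _ ≤ _ := by linarith
    · have a1 : c4 * r ^ 2 ≤ s := le_trans (mul_le_mul_of_nonneg_left
        (pow_le_pow_left₀ hr0.le hzr 2) hc4.le) h6
      have a2 : E ^ 2 ≤ δ * c / (C * (zm + 1)) := by
        have b1 : E ^ 2 = Real.exp (-(2 * s / s0)) := by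
          rw [hE, ← Real.exp_nat_mul]; congr 1; push_cast; ring
        obtain ⟨x, hx⟩ : ∃ x, x = 2 * s / s0 := ⟨_, rfl⟩
        have b2 : 1 / (δ * c / (C * (zm + 1))) ≤ x := by
          rw [hx, div_le_div_iff₀ (by positivity) hs00, one_mul, hs0]
          have : 2 * c4 * r ^ 2 * (δ * c / (C * (zm + 1))) ≤ 2 * s * (δ * c / (C * (zm + 1))) :=
            mul_le_mul_of_nonneg_right (by linarith) (by positivity)
          linarith
        have hq : 0 < δ * c / (C * (zm + 1)) := by positivity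
        have hx0 : 0 < x := lt_of_lt_of_le (by positivity) b2
        rw [b1, ← hx, Real.exp_neg]
        have b3 : x ≤ Real.exp x := by have := Real.add_one_le_exp x; linarith
        have b4 : (Real.exp x)⁻¹ ≤ x⁻¹ := inv_anti₀ hx0 b3
        refine b4.trans ?_
        rw [inv_le_comm₀ hx0 hq, inv_eq_one_div]
        exact b2
      calc C * E ^ 2 * z ≤ C * (δ * c / (C * (zm + 1))) * z :=
            mul_le_mul_of_nonneg_right (mul_le_mul_of_nonneg_left a2 hC.le) hz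
        _ ≤ C * (δ * c / (C * (zm + 1))) * (zm + 1) :=
            mul_le_mul_of_nonneg_left (by linarith) (by positivity)
        _ = δ * c := by field_simp
  have k2 : c' * z ^ 2 ≤ V - 1 / 2 * ((1 - δ) ^ 2 * E ^ 2 * Γ) := by
    have a0 : 0 ≤ (1 - δ) ^ 2 * E ^ 2 := by positivity
    have a1 : (1 - δ) ^ 2 * E ^ 2 * Γ ≤ (1 - δ) ^ 2 * E ^ 2 * (2 * V + C * z ^ 3) :=
      mul_le_mul_of_nonneg_left h3 a0
    have a2 : (1 - δ) ^ 2 * E ^ 2 ≤ 1 - δ := by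
      have b1 : (1 - δ) ^ 2 ≤ 1 - δ := by nlinarith
      have b2 : E ^ 2 ≤ 1 := pow_le_one₀ hE0.le hE1
      calc (1 - δ) ^ 2 * E ^ 2 ≤ (1 - δ) ^ 2 * 1 := mul_le_mul_of_nonneg_left b2 (by positivity)
        _ ≤ _ := by linarith
    have a3 : (1 - δ) ^ 2 * E ^ 2 * (C * z ^ 3) ≤ E ^ 2 * (C * z ^ 3) := by
      have b1 : (1 - δ) ^ 2 ≤ 1 := by nlinarith
      have : (1 - δ) ^ 2 * E ^ 2 * (C * z ^ 3) = (1 - δ) ^ 2 * (E ^ 2 * (C * z ^ 3)) := by ring
      rw [this]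
      exact (mul_le_mul_of_nonneg_right b1 (by positivity)).trans (by linarith)
    have a4 : E ^ 2 * (C * z ^ 3) ≤ δ * c * z ^ 2 := by
      have : E ^ 2 * (C * z ^ 3) = (C * E ^ 2 * z) * z ^ 2 := by ring
      rw [this]
      exact mul_le_mul_of_nonneg_right k1 (by positivity)
    have a5 : (1 - δ) ^ 2 * E ^ 2 * (2 * V) ≤ (1 - δ) * (2 * V) :=
      mul_le_mul_of_nonneg_right a2 (by linarith)
    have a6 : δ * (c * z ^ 2) ≤ δ * V := mul_le_mul_of_nonneg_left h1 hδ.le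
    rw [hc']
    nlinarith
  -- the Laplacian
  have k3 : trn - ε - C5 * z ≤ (1 - δ) * (E * Λ - 1 / s0 * (E * Γ)) := by
    rw [abs_le] at h4
    have a1 : E * (trn - C3 * z) ≤ E * Λ := mul_le_mul_of_nonneg_left (by linarith [h4.1]) hE0.le
    have a2 : E * (C3 * z) ≤ C3 * z := by
      have := mul_le_mul_of_nonneg_right hE1 (mul_nonneg hC3 hz)
      linarith
    have a3 : 1 - E ≤ kr * zm / s0 * z := by
      refine hE2.trans ?_
      rw [div_mul_eq_mul_div]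
      refine div_le_div_of_nonneg_right ?_ hs00.le
      refine h5.trans ?_
      have : kr * z ^ 2 = kr * z * z := by ring
      rw [this]
      exact mul_le_mul_of_nonneg_right (mul_le_mul_of_nonneg_left hzb hkr) hz
    have a4 : 1 / s0 * (E * Γ) ≤ C6 / s0 * z := by
      have b1 : E * Γ ≤ C6 * z := by
        have := mul_le_mul_of_nonneg_right hE1 hΓ
        linarith
      have b2 := mul_le_mul_of_nonneg_left b1 (show 0 ≤ 1 / s0 by positivity)
      refine b2.trans (le_of_eq ?_)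
      ring
    have a5 : trn * (1 - E) ≤ trn * (kr * zm / s0 * z) := mul_le_mul_of_nonneg_left a3 htrn
    have a6 : trn - C5 * z ≤ E * Λ - 1 / s0 * (E * Γ) := by
      rw [hC5]
      nlinarith
    have a7 : 0 ≤ C5 * z := by
      rw [hC5]; positivity
    have a8 : (1 - δ) * (trn - C5 * z) ≤ (1 - δ) * (E * Λ - 1 / s0 * (E * Γ)) :=
      mul_le_mul_of_nonneg_left a6 (by linarith)
    nlinarith
  have hC50 : 0 ≤ C5 := by
    rw [hC5]; positivity
  have k4 : -ε ≤ 1 / g2 * (c' * z ^ 2) - C5 * z := by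
    have a1 : g2 * (C5 ^ 2 + 1) ≤ 4 * c' * ε := by
      rw [hh0, le_div_iff₀ (by positivity)] at hg0
      exact hg0
    have a2 : 0 ≤ c' * z ^ 2 - g2 * C5 * z + g2 * ε := by
      have b1 : 0 ≤ 4 * c' * (c' * z ^ 2 - g2 * C5 * z + g2 * ε) := by
        have b2 : 4 * c' * (c' * z ^ 2 - g2 * C5 * z + g2 * ε) =
            (2 * c' * z - g2 * C5) ^ 2 + g2 * (4 * c' * ε - g2 * C5 ^ 2) := by ring
        rw [b2]
        have : 0 ≤ 4 * c' * ε - g2 * C5 ^ 2 := by nlinarith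
        positivity
      exact nonneg_of_mul_nonneg_right b1 (by positivity)
    have a3 : 1 / g2 * (c' * z ^ 2) - C5 * z + ε = (c' * z ^ 2 - g2 * C5 * z + g2 * ε) / g2 := by
      field_simp
    have a4 := div_nonneg a2 hg.le
    rw [← a3] at a4
    linarith
  have k5 := mul_le_mul_of_nonneg_left k2 (show 0 ≤ 1 / g2 by positivity)
  have k6 : 0 ≤ C5 * z := mul_nonneg hC50 hz
  linarith

variable {G : Type*} [Group G] [TopologicalSpace G] [IsTopologicalGroup G] [CompactSpace G]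
  [SecondCountableTopology G] [MeasurableSpace G] [BorelSpace G] {N n D m : ℕ} {L : LD G N n}
  {R : RM (Sb D m)}

/-- The pointwise lower bound in a block. -/
theorem block_point (L : LD G N n) (hR : R.PosSemidef) (hRR : R * R = MB D m) {ε : ℝ}
    (hε : 0 < ε) : ∃ (S : Sm L (Sb D m)) (h0 : ℝ), 0 < h0 ∧ ∀ g : ℝ, 0 < g → g ^ 2 ≤ h0 →
      ∀ U : Sb D m → G, n / 2 * R.trace - ε ≤
        1 / g ^ 2 * (L.ev U (VS L D m) - 1 / 2 * L.ev U (Gam L.Dv S S)) +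
          1 / 2 * L.ev U (Lap L.Dv S) := by
  obtain ⟨C1, hC1, hY⟩ := Y_le_V (L := L) (D := D) (m := m)
  obtain ⟨C2, hC2, hG⟩ := Gam_sS (L := L) hR hRR
  obtain ⟨C3, hC3, hLp⟩ := Lap_sS (L := L) hR hRR
  obtain ⟨K1, hK1⟩ : ∃ K1 : ℝ, K1 = (Fintype.card (Sb D m) * (D * m)) ^ 2 *
    Fintype.card (Qi D m) := ⟨_, rfl⟩
  have hK10 : 0 ≤ K1 := by rw [hK1]; positivity
  have htr : 0 ≤ R.trace := hR.trace_nonneg
  obtain ⟨c, hc⟩ : ∃ c : ℝ, c = 1 / (2 * K1 + 1) := ⟨_, rfl⟩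
  obtain ⟨c4, hc4⟩ : ∃ c4 : ℝ, c4 = 1 / (2 * K1 * R.trace + 1) := ⟨_, rfl⟩
  obtain ⟨C, hC⟩ : ∃ C : ℝ, C = C1 + C2 + 1 := ⟨_, rfl⟩
  obtain ⟨zm, hzm⟩ : ∃ zm : ℝ, zm = Fintype.card (Sb D m) * (2 * Real.sqrt N) := ⟨_, rfl⟩
  obtain ⟨δ, hδ⟩ : ∃ δ : ℝ, δ = min (1 / 2) (ε / 2 / (n * R.trace + 1)) := ⟨_, rfl⟩
  obtain ⟨r, hr⟩ : ∃ r : ℝ, r = δ * c / C := ⟨_, rfl⟩
  obtain ⟨s0, hs0⟩ : ∃ s0 : ℝ, s0 = 2 * c4 * r ^ 2 * (δ * c / (C * (zm + 1))) := ⟨_, rfl⟩
  obtain ⟨C6, hC6⟩ : ∃ C6 : ℝ, C6 = Fintype.card (Qi D m) * (16 * zm) + C2 * zm ^ 2 := ⟨_, rfl⟩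
  obtain ⟨trn, htrn⟩ : ∃ trn : ℝ, trn = n * R.trace := ⟨_, rfl⟩
  obtain ⟨c', hc'⟩ : ∃ c' : ℝ, c' = 1 / 2 * δ * c := ⟨_, rfl⟩
  obtain ⟨C5, hC5⟩ : ∃ C5 : ℝ, C5 = trn * (kR R * zm / s0) + C3 + C6 / s0 := ⟨_, rfl⟩
  obtain ⟨h0, hh0⟩ : ∃ h0 : ℝ, h0 = 4 * c' * (ε / 2) / (C5 ^ 2 + 1) := ⟨_, rfl⟩
  have hc0 : 0 < c := by rw [hc]; positivity
  have hc40 : 0 < c4 := by rw [hc4]; positivity
  have hC0 : 0 < C := by rw [hC]; positivity
  have hzm0 : 0 ≤ zm := by rw [hzm]; positivity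
  have htrn0 : 0 ≤ trn := by rw [htrn]; positivity
  have hδ0 : 0 < δ := by
    rw [hδ]
    refine lt_min (by norm_num) ?_
    rw [← htrn]; positivity
  have hδ1 : δ ≤ 1 / 2 := by rw [hδ]; exact min_le_left _ _
  have hr0 : 0 < r := by rw [hr]; positivity
  have hs00 : 0 < s0 := by rw [hs0]; positivity
  have hC60 : 0 ≤ C6 := by rw [hC6]; positivity
  have hc'0 : 0 < c' := by rw [hc']; positivity
  have hδε : δ * trn ≤ ε / 2 := by
    have h1 : δ ≤ ε / 2 / (trn + 1) := by rw [hδ, htrn]; exact min_le_right _ _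
    rw [le_div_iff₀ (by positivity)] at h1
    linarith
  obtain ⟨E, hE⟩ : ∃ E : Sm L (Sb D m), E = expS ((-(1 / s0)) • sS L R) := ⟨_, rfl⟩
  have hDE : ∀ j, L.Dv j E = (-(1 / s0)) • (E * L.Dv j (sS L R)) := by
    intro j
    rw [hE, Dv_expS, Derivation.map_smul, mul_smul_comm]
  obtain ⟨S, hS⟩ : ∃ S : Sm L (Sb D m), S = (-((1 - δ) * s0)) • E := ⟨_, rfl⟩
  have hDS : ∀ j, L.Dv j S = (1 - δ) • (E * L.Dv j (sS L R)) := by
    intro j
    rw [hS, Derivation.map_smul, hDE, smul_smul]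
    congr 1
    field_simp
  refine ⟨S, h0, by rw [hh0]; positivity, fun g hg hg0 U => ?_⟩
  have hEv : L.ev U E = Real.exp (-((sS L R).1 U / s0)) := by
    rw [hE]
    show Real.exp ((-(1 / s0)) * (sS L R).1 U) = _
    congr 1
    ring
  have hGam : L.ev U (Gam L.Dv S S) = (1 - δ) ^ 2 * Real.exp (-((sS L R).1 U / s0)) ^ 2 *
      L.ev U (Gam L.Dv (sS L R) (sS L R)) := by
    unfold Gam
    rw [map_sum, map_sum, Finset.mul_sum]
    refine Finset.sum_congr rfl fun j _ => ?_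
    rw [hDS, map_mul, map_smul, map_mul, map_mul, hEv, smul_eq_mul]
    ring
  have hLap : L.ev U (Lap L.Dv S) = (1 - δ) * (Real.exp (-((sS L R).1 U / s0)) *
      L.ev U (Lap L.Dv (sS L R)) - 1 / s0 * (Real.exp (-((sS L R).1 U / s0)) *
      L.ev U (Gam L.Dv (sS L R) (sS L R)))) := by
    unfold Gam Lap
    rw [map_sum, map_sum, map_sum, Finset.mul_sum, Finset.mul_sum, Finset.mul_sum,
      ← Finset.sum_sub_distrib, Finset.mul_sum]
    refine Finset.sum_congr rfl fun j _ => ?_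
    rw [hDS, Derivation.map_smul, Derivation.leibniz, hDE, map_smul, map_add, smul_eq_mul,
      smul_eq_mul, map_mul, map_mul, smul_eq_mul, map_mul, map_smul, map_mul, hEv, smul_eq_mul]
    ring
  have hz := zz_nonneg (L := L) U
  have hzb : zz L U ≤ zm := by rw [hzm]; exact zz_bdd U
  have hV : K1 * (2 * L.ev U (VS L D m)) = K1 * ∑ q, vq L U q ^ 2 := by rw [VS_vq]; ring
  have hV0 : 0 ≤ L.ev U (VS L D m) := by
    rw [VS_vq]; exact mul_nonneg (by norm_num) (Finset.sum_nonneg fun q _ => sq_nonneg _)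
  have e1 : c * zz L U ^ 2 ≤ L.ev U (VS L D m) := by
    have a1 := zz_sq_v (L := L) U
    rw [← hK1, ← hV] at a1
    rw [hc, div_mul_eq_mul_div, one_mul, div_le_iff₀ (by positivity)]
    linarith
  have e2 := hY U
  have e3 := hG U
  have hΓ0 : 0 ≤ L.ev U (Gam L.Dv (sS L R) (sS L R)) := by
    unfold Gam
    rw [map_sum]
    exact Finset.sum_nonneg fun j _ => by rw [map_mul]; exact mul_self_nonneg _
  have hz3 : 0 ≤ zz L U ^ 3 := by positivity
  have e4 : L.ev U (Gam L.Dv (sS L R) (sS L R)) ≤ 2 * L.ev U (VS L D m) + C * zz L U ^ 3 := by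
    rw [hC]
    have : (C1 + C2 + 1) * zz L U ^ 3 = C1 * zz L U ^ 3 + C2 * zz L U ^ 3 + zz L U ^ 3 := by ring
    rw [this]; linarith
  have e5 : L.ev U (Gam L.Dv (sS L R) (sS L R)) ≤ C6 * zz L U := by
    have a1 : ∑ q, yq L U q ^ 2 ≤ Fintype.card (Qi D m) * (16 * zm) * zz L U := by
      have a2 : ∀ q : Qi D m, yq L U q ^ 2 ≤ 16 * zm * zz L U := by
        intro q
        have b1 := yq_le_z (L := L) U q
        have b2 := pow_le_pow_left₀ (yq_nonneg U q) b1 2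
        have b3 := mul_le_mul_of_nonneg_right hzb hz
        refine b2.trans ?_
        have b4 : (4 * zz L U) ^ 2 = 16 * (zz L U * zz L U) := by ring
        rw [b4, mul_assoc]
        linarith
      refine (Finset.sum_le_sum fun q _ => a2 q).trans (le_of_eq ?_)
      rw [Finset.sum_const, Finset.card_univ, nsmul_eq_mul]; ring
    have a3 : C2 * zz L U ^ 3 ≤ C2 * zm ^ 2 * zz L U := by
      have b1 : zz L U ^ 2 ≤ zm ^ 2 := pow_le_pow_left₀ hz hzb 2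
      have b2 := mul_le_mul_of_nonneg_left b1 (mul_nonneg hC2 hz)
      have b3 : C2 * zz L U ^ 3 = C2 * zz L U * zz L U ^ 2 := by ring
      have b4 : C2 * zm ^ 2 * zz L U = C2 * zz L U * zm ^ 2 := by ring
      rw [b3, b4]; exact b2
    rw [hC6]
    linarith
  have e6 : c4 * zz L U ^ 2 ≤ (sS L R).1 U := by
    have a1 := zz_sq_y (L := L) U
    rw [← hK1] at a1
    have a2 := mul_le_mul_of_nonneg_left (sS_Y (L := L) hR hRR U) hK10
    have a3 := sS_nonneg (L := L) hR U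
    rw [hc4, div_mul_eq_mul_div, one_mul, div_le_iff₀ (by positivity)]
    have a4 : (sS L R).1 U * (2 * K1 * R.trace + 1) = K1 * (2 * R.trace * (sS L R).1 U) +
        (sS L R).1 U := by ring
    rw [a4]; linarith
  have main := real_main (c := c) (C := C) (r := r) (zm := zm) (c4 := c4) (s0 := s0) (δ := δ)
    (kr := kR R) (trn := trn) (C3 := C3) (C6 := C6) (ε := ε / 2) (c' := c') (C5 := C5) (h0 := h0)
    hc0 hC0 hδ0 hδ1 hr hzm0 hc40 hs0 kR_nonneg htrn0 hC3 hC60 (by positivity) hδε hc' hC5 hh0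
    (g2 := g ^ 2) (by positivity) hg0 hz hzb e1 e4 hΓ0 e5 (by rw [htrn]; exact hLp U)
    (sS_nonneg hR U) (sS_le hR hRR U) e6
  rw [hGam, hLap]
  rw [htrn] at main
  have e7 : (n : ℝ) / 2 * R.trace - ε = 1 / 2 * (n * R.trace) - 2 * (ε / 2) := by ring
  rw [e7]
  exact main

end

end Pool.Agent.Q205.YM
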