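import Mathlib
import Pool.Agent.H906R3.YM.LocMain
import Pool.Agent.Q205.YM.Pnt

/-!
# The lower bound of the energy
-/

open Matrix MeasureTheory
open scoped Matrix.Norms.Frobenius ContDiff MatrixOrder
open Pool.Agent.H906R3.YM

namespace Pool.Agent.Q205.YM

set_option linter.unusedSectionVars false

noncomputable section

section abs

variable {A : Type*} [CommRing A] [Algebra ℝ A] {J : Type*} [Fintype J]
  {D : J → Derivation ℝ A A} {I : A →ₗ[ℝ] ℝ}

/-- Barta's inequality -/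
lemma barta (hI : ∀ j u, I (D j u) = 0) (hpos : ∀ v, 0 ≤ I (v * v)) {g : ℝ} (hg : g ≠ 0)
    (u S : A) : I ((-(1 / (2 * g ^ 2)) : ℝ) • (Gam D S S * (u * u)) +
      (1 / 2 : ℝ) • (Lap D S * (u * u))) ≤ g ^ 2 / 2 * ∑ j, I (D j u * D j u) := by
  have h1 : ∀ j, 0 ≤ g ^ 2 * I (D j u * D j u) - I (D j (D j S) * (u * u)) +
      1 / g ^ 2 * I (D j S * D j S * (u * u)) := by
    intro j
    have a1 := hpos (g • D j u + (1 / g) • (u * D j S))
    have a2 : (g • D j u + (1 / g) • (u * D j S)) * (g • D j u + (1 / g) • (u * D j S)) =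
        (g ^ 2) • (D j u * D j u) + (2 : ℝ) • (u * D j u * D j S) +
          (1 / g ^ 2) • (D j S * D j S * (u * u)) := by
      have e1 : g * (1 / g) = 1 := by field_simp
      simp only [add_mul, mul_add, smul_mul_smul_comm, e1, mul_comm (1 / g) g]
      have e0 : 1 / g * (1 / g) = 1 / g ^ 2 := by field_simp
      have e0' : g * g = g ^ 2 := by ring
      rw [two_smul, e0, e0', one_smul, one_smul]
      have e2 : u * D j S * (u * D j S) = D j S * D j S * (u * u) := by ring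
      have e3 : D j u * (u * D j S) = u * D j u * D j S := by ring
      have e4 : u * D j S * D j u = u * D j u * D j S := by ring
      rw [e2, e3, e4]
      abel
    rw [a2, map_add, map_add, map_smul, map_smul, map_smul, smul_eq_mul, smul_eq_mul,
      smul_eq_mul] at a1
    have a3 := hI j ((u * u) * D j S)
    rw [Derivation.leibniz, Derivation.leibniz, smul_eq_mul, smul_eq_mul, smul_eq_mul] at a3
    have a4 : u * u * D j (D j S) + D j S * (u * D j u + u * D j u) =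
        D j (D j S) * (u * u) + (2 : ℝ) • (u * D j u * D j S) := by
      rw [two_smul]; ring
    rw [a4, map_add, map_smul, smul_eq_mul] at a3
    linarith
  have h2 := Finset.sum_nonneg fun j (_ : j ∈ Finset.univ) => h1 j
  rw [Finset.sum_add_distrib, Finset.sum_sub_distrib, ← Finset.mul_sum, ← Finset.mul_sum] at h2
  have h3 : I (Lap D S * (u * u)) = ∑ j, I (D j (D j S) * (u * u)) := by
    unfold Lap; rw [Finset.sum_mul, map_sum]
  have h4 : I (Gam D S S * (u * u)) = ∑ j, I (D j S * D j S * (u * u)) := by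
    unfold Gam; rw [Finset.sum_mul, map_sum]
  rw [map_add, map_smul, map_smul, smul_eq_mul, smul_eq_mul, h3, h4]
  have h5 : 1 / (2 * g ^ 2) = 1 / 2 * (1 / g ^ 2) := by field_simp
  rw [h5]
  linarith

end abs

variable {G : Type*} [Group G] [TopologicalSpace G] [IsTopologicalGroup G] [CompactSpace G]
  [SecondCountableTopology G] [MeasurableSpace G] [BorelSpace G] {N n D m : ℕ} {L : LD G N n}
  {R : RM (Sb D m)} (μ : Measure G) [IsProbabilityMeasure μ] [μ.IsMulLeftInvariant]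

/-- The lower bound in a block of the torus. -/
theorem block_low (L : LD G N n) (hR : R.PosSemidef) (hRR : R * R = MB D m) {ε : ℝ}
    (hε : 0 < ε) : ∃ h0 : ℝ, 0 < h0 ∧ ∀ g : ℝ, 0 < g → g ^ 2 ≤ h0 →
      ∀ (l : ℕ) [NeZero l], m ≤ l → ∀ (x0 : Fin D → ZMod l) (u : Sm L (Ed D l)),
      (n / 2 * R.trace - ε) * L.I μ (u * u) ≤
        g ^ 2 / 2 * ∑ k : Sb D m × Fin n, L.I μ (L.Dv (iot l x0 k.1, k.2) u *
          L.Dv (iot l x0 k.1, k.2) u) + 1 / g ^ 2 * L.I μ (pull (iot l x0) (VS L D m) * (u * u)) := by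
  obtain ⟨S, h0, hh0, h⟩ := block_point L hR hRR hε
  refine ⟨h0, hh0, fun g hg hg0 l _ hml x0 u => ?_⟩
  have h1 := barta (D := fun k : Sb D m × Fin n => L.Dv (E := Ed D l) (iot l x0 k.1, k.2))
    (I := L.I μ) (fun j u => I_D_zero μ _ u) (fun v => I_sq_nonneg μ v) hg.ne' u
    (pull (iot l x0) S)
  have h2 : ∀ k : Sb D m × Fin n, L.Dv (iot l x0 k.1, k.2) (pull (iot l x0) S) =
      pull (iot l x0) (L.Dv k S) := fun k => Dv_pull (iot_inj hml x0) k S
  have h3 : Gam (fun k : Sb D m × Fin n => L.Dv (E := Ed D l) (iot l x0 k.1, k.2))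
      (pull (iot l x0) S) (pull (iot l x0) S) = pull (iot l x0) (Gam L.Dv S S) := by
    unfold Gam
    rw [map_sum]
    exact Finset.sum_congr rfl fun k _ => by rw [h2, map_mul]
  have h4 : Lap (fun k : Sb D m × Fin n => L.Dv (E := Ed D l) (iot l x0 k.1, k.2))
      (pull (iot l x0) S) = pull (iot l x0) (Lap L.Dv S) := by
    unfold Lap
    rw [map_sum]
    refine Finset.sum_congr rfl fun k _ => ?_
    dsimp only
    rw [h2, Dv_pull (iot_inj hml x0) k]
  rw [h3, h4] at h1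
  refine le_trans ?_ (add_le_add_left h1 _)
  rw [← smul_eq_mul (n / 2 * R.trace - ε), ← smul_eq_mul (1 / g ^ 2), ← map_smul, ← map_smul,
    ← map_add]
  refine I_mono μ fun U => ?_
  have h5 := h g hg hg0 (U ∘ iot l x0)
  have e1 : ∀ F : Sm L (Sb D m), L.ev U (pull (iot l x0) F) = L.ev (U ∘ iot l x0) F := fun _ => rfl
  simp only [map_smul, map_add, map_mul, smul_eq_mul, e1]
  have h6 := mul_le_mul_of_nonneg_right h5 (mul_self_nonneg (L.ev U u))
  refine h6.trans (le_of_eq ?_)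
  have h7 : 1 / (2 * g ^ 2) = 1 / 2 * (1 / g ^ 2) := by field_simp
  rw [h7]
  ring

/-! ### many blocks -/

section blocks

variable {l q : ℕ}

/-- the corner of a block -/
def cn (l m : ℕ) {q : ℕ} (c : Fin D → Fin q) : Fin D → ZMod l := ct l fun i => m * (c i : ℕ)

lemma cn_iot (c : Fin D → Fin q) (x : Fin D → Fin m) :
    cn l m c + ct l (cv x) = ct l fun i => m * (c i : ℕ) + x i := by
  funext i
  simp [cn, ct, cv]

lemma ct_inj' {a b : Fin D → ℕ} (ha : ∀ i, a i < l) (hb : ∀ i, b i < l) (h : ct l a = ct l b) :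
    a = b := by
  funext i
  have h1 := congrFun h i
  unfold ct at h1
  rw [ZMod.natCast_eq_natCast_iff'] at h1
  rwa [Nat.mod_eq_of_lt (ha i), Nat.mod_eq_of_lt (hb i)] at h1

lemma dm_lt (hq : q * m ≤ l) (c : Fin q) (x : Fin m) : m * (c : ℕ) + x < l := by
  have h1 : m * (c : ℕ) + x < m * (c + 1) := by rw [mul_add, mul_one]; have := x.2; omega
  have h2 : m * ((c : ℕ) + 1) ≤ m * q := Nat.mul_le_mul_left m c.2
  rw [mul_comm m q] at h2
  omega

lemma dm_inj {c c' : Fin q} {x x' : Fin m} (h : m * (c : ℕ) + x = m * (c' : ℕ) + x') :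
    c = c' ∧ x = x' := by
  have hm : 0 < m := lt_of_le_of_lt (Nat.zero_le _) x.2
  have h1 := congrArg (fun k => k / m) h
  have h2 := congrArg (fun k => k % m) h
  simp only [Nat.mul_add_div hm, Nat.mul_add_mod, Nat.div_eq_of_lt x.2, Nat.div_eq_of_lt x'.2,
    Nat.mod_eq_of_lt x.2, Nat.mod_eq_of_lt x'.2, add_zero] at h1 h2
  exact ⟨Fin.ext h1, Fin.ext h2⟩

lemma cn_inj (hq : q * m ≤ l) {c c' : Fin D → Fin q} {x x' : Fin D → Fin m}
    (h : cn l m c + ct l (cv x) = cn l m c' + ct l (cv x')) : c = c' ∧ x = x' := by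
  rw [cn_iot, cn_iot] at h
  have h1 := ct_inj' (fun i => dm_lt hq (c i) (x i)) (fun i => dm_lt hq (c' i) (x' i)) h
  have h2 : ∀ i, c i = c' i ∧ x i = x' i := fun i => dm_inj (congrFun h1 i)
  exact ⟨funext fun i => (h2 i).1, funext fun i => (h2 i).2⟩

/-- all links of all blocks -/
def jl (l m q : ℕ) (p : (Fin D → Fin q) × Sb D m) : Ed D l := iot l (cn l m p.1) p.2

lemma jl_inj (hq : q * m ≤ l) : Function.Injective (jl (D := D) l m q) := by
  rintro ⟨c, s⟩ ⟨c', s'⟩ h
  have h1 := (Prod.ext_iff.1 h).1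
  have h2 := (Prod.ext_iff.1 h).2
  obtain ⟨h3, h4⟩ := cn_inj hq h1
  exact Prod.ext h3 (Prod.ext h4 h2)

/-- all plaquettes of all blocks -/
def jp (l m q : ℕ) (p : (Fin D → Fin q) × Qi D m) : Pl D l := qmap l (cn l m p.1) p.2

lemma jp_inj (hq : q * m ≤ l) : Function.Injective (jp (D := D) l m q) := by
  rintro ⟨c, s⟩ ⟨c', s'⟩ h
  have h0 := congrArg Subtype.val h
  have h1 := (Prod.ext_iff.1 h0).1
  have h2 := (Prod.ext_iff.1 h0).2
  obtain ⟨h3, h4⟩ := cn_inj hq h1
  exact Prod.ext h3 (Subtype.ext (Prod.ext h4 h2))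

lemma sum_le_inj {A B : Type*} [Fintype A] [Fintype B] {f : A → B} (hf : Function.Injective f)
    {F : B → ℝ} (hF : ∀ b, 0 ≤ F b) : ∑ a, F (f a) ≤ ∑ b, F b := by
  classical
  have h1 : ∑ a, F (f a) = ∑ b ∈ Finset.univ.map ⟨f, hf⟩, F b := by
    rw [Finset.sum_map]; rfl
  rw [h1]
  exact Finset.sum_le_sum_of_subset_of_nonneg (Finset.subset_univ _) fun b _ _ => hF b

/-- The lower bound of the energy of a function on the torus by the energies of the blocks. -/
theorem torus_low (L : LD G N n) (hR : R.PosSemidef) (hRR : R * R = MB D m) {ε : ℝ}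
    (hε : 0 < ε) : ∃ h0 : ℝ, 0 < h0 ∧ ∀ g : ℝ, 0 < g → g ^ 2 ≤ h0 →
      ∀ (l : ℕ) [NeZero l] (q : ℕ), m ≤ l → q * m ≤ l → ∀ u : Sm L (Ed D l),
      (q : ℝ) ^ D * ((n / 2 * R.trace - ε) * L.I μ (u * u)) ≤
        g ^ 2 / 2 * L.I μ (Gam L.Dv u u) + 1 / g ^ 2 * L.I μ (VT L D l * (u * u)) := by
  obtain ⟨h0, hh0, h⟩ := block_low μ L hR hRR hε
  refine ⟨h0, hh0, fun g hg hg0 l _ q hml hq u => ?_⟩
  have h1 := Finset.sum_le_sum fun (c : Fin D → Fin q) (_ : c ∈ Finset.univ) =>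
    h g hg hg0 l hml (cn l m c) u
  rw [Finset.sum_const, Finset.card_univ, Fintype.card_fun, Fintype.card_fin, Fintype.card_fin,
    nsmul_eq_mul, Finset.sum_add_distrib, ← Finset.mul_sum, ← Finset.mul_sum] at h1
  push_cast at h1
  refine h1.trans ?_
  have h2 : ∑ c : Fin D → Fin q, ∑ k : Sb D m × Fin n, L.I μ (L.Dv (iot l (cn l m c) k.1, k.2) u *
      L.Dv (iot l (cn l m c) k.1, k.2) u) ≤ L.I μ (Gam L.Dv u u) := by
    unfold Gam
    rw [map_sum, ← Fintype.sum_prod_type']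
    refine sum_le_inj (f := fun p : (Fin D → Fin q) × (Sb D m × Fin n) =>
      (iot l (cn l m p.1) p.2.1, p.2.2)) ?_ (F := fun j => L.I μ (L.Dv j u * L.Dv j u))
      fun j => I_sq_nonneg μ _
    rintro ⟨c, s, a⟩ ⟨c', s', a'⟩ hh
    have e1 := (Prod.ext_iff.1 hh).1
    have e2 := (Prod.ext_iff.1 hh).2
    have e3 := jl_inj hq (a₁ := (c, s)) (a₂ := (c', s')) e1
    have e4 := (Prod.ext_iff.1 e3).1
    have e5 := (Prod.ext_iff.1 e3).2
    exact Prod.ext e4 (Prod.ext e5 e2)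
  have h3 : ∑ c : Fin D → Fin q, L.I μ (pull (iot l (cn l m c)) (VS L D m) * (u * u)) ≤
      L.I μ (VT L D l * (u * u)) := by
    rw [← map_sum, ← Finset.sum_mul]
    refine I_mono μ fun U => ?_
    rw [map_mul, map_mul (L.ev U) (VT L D l), map_mul]
    refine mul_le_mul_of_nonneg_right ?_ (mul_self_nonneg _)
    rw [map_sum, VT_apply]
    simp only [VS_iot]
    rw [← Fintype.sum_prod_type']
    exact sum_le_inj (jp_inj hq) (F := fun p : Pl D l => we L (plqT U p.1.1 p.1.2.1 p.1.2.2))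
      fun p => we_nonneg _
  exact add_le_add (mul_le_mul_of_nonneg_left h2 (by positivity))
    (mul_le_mul_of_nonneg_left h3 (by positivity))

end blocks

end

end Pool.Agent.Q205.YM
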