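import Mathlib
import Pool.Agent.Q205.YM.Low

/-!
# Comparison of the torus with the blocks
-/

open Matrix MeasureTheory
open scoped MatrixOrder
open Pool.Agent.H906R3.YM

namespace Pool.Agent.Q205.YM

set_option linter.unusedSectionVars false

noncomputable section

section gen

variable {ι : Type*} [Fintype ι] [DecidableEq ι]

lemma psd_of_quad_le {A B : RM ι} (hA : Aᵀ = A) (hB : Bᵀ = B)
    (h : ∀ v : ι → ℝ, v ⬝ᵥ (A *ᵥ v) ≤ v ⬝ᵥ (B *ᵥ v)) : (B - A).PosSemidef := by
  rw [psd_iff]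
  refine ⟨by rw [transpose_sub, hA, hB], fun v => ?_⟩
  rw [sub_mulVec, dotProduct_sub]
  linarith [h v]

/-- a square root has the symmetries of the matrix -/
lemma sign_inv {M W : RM ι} (hW : W.PosSemidef) (hWW : W * W = M) {σ : ι → ℝ}
    (hσ : ∀ e, σ e * σ e = 1) (h : ∀ e e', σ e * M e e' * σ e' = M e e') (e e' : ι) :
    σ e * W e e' * σ e' = W e e' := by
  have h0 : diagonal σ * diagonal σ = 1 := by
    rw [diagonal_mul_diagonal, ← diagonal_one]
    congr 1
    funext e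
    exact hσ e
  have h1 : (diagonal σ * W * diagonal σ).PosSemidef := by
    have := hW.mul_mul_conjTranspose_same (diagonal σ)
    rwa [diagonal_conjTranspose, star_trivial] at this
  have h2 : diagonal σ * W * diagonal σ = W := by
    refine uniq h1 hW ?_
    calc diagonal σ * W * diagonal σ * (diagonal σ * W * diagonal σ)
        = diagonal σ * W * (diagonal σ * diagonal σ) * W * diagonal σ := by
          simp only [Matrix.mul_assoc]
      _ = diagonal σ * (W * W) * diagonal σ := by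
          rw [h0, Matrix.mul_one]; simp only [Matrix.mul_assoc]
      _ = W * W := by
          rw [hWW]
          ext a b
          rw [mul_diagonal, diagonal_mul]
          exact h a b
  have h3 := congrFun (congrFun h2 e) e'
  rwa [mul_diagonal, diagonal_mul] at h3

/-- a square root of a block diagonal matrix is block diagonal -/
lemma block_inv {M W : RM ι} (hW : W.PosSemidef) (hWW : W * W = M) {Q : Type*} [DecidableEq Q]
    {κ : ι → Q} (h : ∀ e e', κ e ≠ κ e' → M e e' = 0) {e e' : ι} (he : κ e ≠ κ e') :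
    W e e' = 0 := by
  have h1 := sign_inv hW hWW (σ := fun a => if κ a = κ e then -1 else 1)
    (fun a => by split_ifs <;> norm_num) (fun a b => by
      by_cases hab : κ a = κ b
      · rw [hab]; split_ifs <;> ring
      · rw [h a b hab]; ring) e e'
  simp only [if_true] at h1
  rw [if_neg (Ne.symm he)] at h1
  linarith

lemma diag_sq (d : ι → ℝ) (v : ι → ℝ) :
    v ⬝ᵥ ((diagonal d * diagonal d) *ᵥ v) = ∑ e, d e ^ 2 * v e ^ 2 := by
  rw [diagonal_mul_diagonal]
  unfold dotProduct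
  refine Finset.sum_congr rfl fun e _ => ?_
  rw [mulVec_diagonal]; ring

lemma diag_psd {d : ι → ℝ} (hd : ∀ e, 0 ≤ d e) : (diagonal d).PosSemidef :=
  PosSemidef.diagonal fun e => hd e

end gen

variable {D m l q : ℕ} [NeZero l] {R : RM (Sb D m)}

/-- restriction to a block -/
def Em (l m : ℕ) {q : ℕ} [NeZero l] (c : Fin D → Fin q) : Matrix (Sb D m) (Ed D l) ℝ :=
  Matrix.of fun s e => if iot l (cn l m c) s = e then 1 else 0

lemma Em_mulVec (c : Fin D → Fin q) (v : Ed D l → ℝ) :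
    Em l m c *ᵥ v = fun s => v (iot l (cn l m c) s) := by
  funext s
  show ∑ e, (if iot l (cn l m c) s = e then (1 : ℝ) else 0) * v e = _
  simp

lemma Em_mul (hq : q * m ≤ l) (c c' : Fin D → Fin q) :
    Em l m c * (Em l m c')ᵀ = if c = c' then 1 else 0 := by
  ext s s'
  rw [mul_apply]
  show ∑ e, (if iot l (cn l m c) s = e then (1 : ℝ) else 0) *
    (if iot l (cn l m c') s' = e then (1 : ℝ) else 0) = _
  simp only [ite_mul, one_mul, zero_mul, Finset.sum_ite_eq, Finset.mem_univ, if_true]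
  by_cases hc : c = c'
  · subst hc
    rw [if_pos rfl, one_apply]
    have : iot l (cn l m c) s' = iot l (cn l m c) s ↔ s = s' := by
      constructor
      · intro h
        have := jl_inj hq (a₁ := (c, s')) (a₂ := (c, s)) h
        exact (Prod.ext_iff.1 this).2.symm
      · rintro rfl; rfl
    simp only [this]
  · rw [if_neg hc, if_neg]
    · rfl
    · intro h
      have := jl_inj hq (a₁ := (c', s')) (a₂ := (c, s)) h
      exact hc (Prod.ext_iff.1 this).1.symm

/-- the square root of one block -/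
def Pb (l : ℕ) [NeZero l] (R : RM (Sb D m)) {q : ℕ} (c : Fin D → Fin q) : RM (Ed D l) :=
  (Em l m c)ᵀ * R * Em l m c

lemma Pb_psd (hR : R.PosSemidef) (c : Fin D → Fin q) : (Pb l R c).PosSemidef := by
  have := hR.conjTranspose_mul_mul_same (Em l m c)
  rwa [conjTranspose_eq_transpose_of_trivial] at this

lemma Pb_mul (hq : q * m ≤ l) (c c' : Fin D → Fin q) :
    Pb l R c * Pb l R c' = if c = c' then (Em l m c)ᵀ * (R * R) * Em l m c else 0 := by
  have h1 : Pb l R c * Pb l R c' =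
      (Em l m c)ᵀ * R * (Em l m c * (Em l m c')ᵀ) * R * Em l m c' := by
    unfold Pb; simp only [Matrix.mul_assoc]
  rw [h1, Em_mul hq]
  by_cases hc : c = c'
  · subst hc
    rw [if_pos rfl, if_pos rfl, Matrix.mul_one]
    simp only [Matrix.mul_assoc]
  · rw [if_neg hc, if_neg hc]
    simp

lemma Pb_trace (hq : q * m ≤ l) (c : Fin D → Fin q) : (Pb l R c).trace = R.trace := by
  unfold Pb
  rw [Matrix.mul_assoc, trace_mul_comm, Matrix.mul_assoc, Em_mul hq, if_pos rfl, Matrix.mul_one]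

lemma iq_incT (c : Fin D → Fin q) (p : Qi D m) (v : Ed D l → ℝ) :
    (iq p ⬝ᵥ fun s => v (iot l (cn l m c) s)) = incT (jp l m q (c, p)).1 ⬝ᵥ v := by
  have h1 := iq_sum p (fun w k => v (cn l m c + ct l w, k))
  have h2 := incT_sum (jp l m q (c, p)).1 v
  simp only [smul_eq_mul] at h1 h2
  unfold dotProduct
  rw [h2]
  refine h1.trans ?_
  simp only [ct_add, ← add_assoc]
  rfl

lemma Pb_quad (hq : q * m ≤ l) (hRR : R * R = MB D m) (c : Fin D → Fin q) (v : Ed D l → ℝ) :
    v ⬝ᵥ ((Pb l R c * Pb l R c) *ᵥ v) = ∑ p : Qi D m, (incT (jp l m q (c, p)).1 ⬝ᵥ v) ^ 2 := by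
  rw [Pb_mul hq, if_pos rfl, hRR, ← mulVec_mulVec, ← mulVec_mulVec, dotProduct_mulVec,
    vecMul_transpose, Em_mulVec]
  unfold MB
  rw [SQ_quad]
  exact Finset.sum_congr rfl fun p _ => by rw [iq_incT]

lemma Pb_total (hq : q * m ≤ l) (hRR : R * R = MB D m) (v : Ed D l → ℝ) :
    ∑ c : Fin D → Fin q, v ⬝ᵥ ((Pb l R c * Pb l R c) *ᵥ v) =
      ∑ p : (Fin D → Fin q) × Qi D m, (incT (jp l m q p).1 ⬝ᵥ v) ^ 2 := by
  rw [Fintype.sum_prod_type]
  exact Finset.sum_congr rfl fun c _ => Pb_quad hq hRR c v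

/-- The blocks contribute at most the torus. -/
theorem cmp_low (hq : q * m ≤ l) (hR : R.PosSemidef) (hRR : R * R = MB D m) {T : RM (Ed D l)}
    (hT : T.PosSemidef) (hTT : T * T = MT D l) : (q : ℝ) ^ D * R.trace ≤ T.trace := by
  obtain ⟨P, hP⟩ : ∃ P : RM (Ed D l), P = ∑ c : Fin D → Fin q, Pb l R c := ⟨_, rfl⟩
  have hP0 : P.PosSemidef := by rw [hP]; exact psd_sum _ fun c => Pb_psd hR c
  have hPP : P * P = ∑ c : Fin D → Fin q, Pb l R c * Pb l R c := by
    rw [hP, Finset.sum_mul_sum]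
    refine Finset.sum_congr rfl fun c _ => ?_
    rw [Finset.sum_eq_single c]
    · intro c' _ hc'
      rw [Pb_mul hq, if_neg (Ne.symm hc')]
    · simp
  have h1 : P.trace ≤ T.trace := by
    refine trace_mono (mono hP0 hT ?_)
    rw [hTT]
    refine psd_of_quad_le (sym (psd_sq hP0)) (SQ_sym _) fun v => ?_
    rw [hPP, sum_mulVec, dotProduct_sum, Pb_total hq hRR]
    unfold MT
    rw [SQ_quad]
    exact sum_le_inj (jp_inj hq) (F := fun p : Pl D l => (incT p.1 ⬝ᵥ v) ^ 2) fun p => sq_nonneg _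
  rw [hP, trace_sum] at h1
  simp only [Pb_trace hq] at h1
  rw [Finset.sum_const, Finset.card_univ, Fintype.card_fun, Fintype.card_fin, Fintype.card_fin,
    nsmul_eq_mul] at h1
  exact_mod_cast h1

/-- the number of the links of a plaquette at `e` -/
def cp (p : Si D l × Fin D × Fin D) (e : Ed D l) : ℝ :=
  (if e = (p.1, p.2.1) then 1 else 0) + (if e = (p.1 + eT p.2.1, p.2.2) then 1 else 0) +
    (if e = (p.1 + eT p.2.2, p.2.1) then 1 else 0) + (if e = (p.1, p.2.2) then 1 else 0)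

lemma cp_sum (p : Si D l × Fin D × Fin D) (a : Ed D l → ℝ) : ∑ e, cp p e * a e =
      a (p.1, p.2.1) + a (p.1 + eT p.2.1, p.2.2) + a (p.1 + eT p.2.2, p.2.1) + a (p.1, p.2.2) := by
  unfold cp
  simp only [add_mul, Finset.sum_add_distrib, ite_mul,
    one_mul, zero_mul, Finset.sum_ite_eq', Finset.mem_univ, if_true]

lemma cp_nonneg (p : Si D l × Fin D × Fin D) (e : Ed D l) : 0 ≤ cp p e := by
  unfold cp; positivity

lemma cp_sq (p : Si D l × Fin D × Fin D) (e : Ed D l) : cp p e ≤ cp p e ^ 2 := by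
  unfold cp
  split_ifs <;> norm_num

lemma cp_le (p : Si D l × Fin D × Fin D) (e : Ed D l) : cp p e ≤ 4 := by
  unfold cp
  split_ifs <;> norm_num

/-- the square root attached to a plaquette which is in no block -/
def Dg (p : Pl D l) : RM (Ed D l) := diagonal fun e => 2 * cp p.1 e

lemma Dg_psd (p : Pl D l) : (Dg p).PosSemidef := diag_psd fun e => by
  have := cp_nonneg p.1 e; positivity

lemma Dg_trace (p : Pl D l) : (Dg p).trace = 8 := by
  unfold Dg
  rw [trace_diagonal, ← Finset.mul_sum]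
  have := cp_sum p.1 (fun _ => 1)
  simp only [mul_one] at this
  rw [this]; norm_num

lemma Dg_quad (p : Pl D l) (v : Ed D l → ℝ) :
    (incT p.1 ⬝ᵥ v) ^ 2 ≤ v ⬝ᵥ ((Dg p * Dg p) *ᵥ v) := by
  unfold Dg
  rw [diag_sq]
  have h1 : ∑ e, cp p.1 e * (4 * v e ^ 2) ≤ ∑ e, (2 * cp p.1 e) ^ 2 * v e ^ 2 := by
    refine Finset.sum_le_sum fun e _ => ?_
    have := cp_sq p.1 e
    have h2 := mul_le_mul_of_nonneg_right this (show 0 ≤ 4 * v e ^ 2 by positivity)
    refine h2.trans (le_of_eq ?_)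
    ring
  refine le_trans ?_ h1
  rw [cp_sum]
  have h2 := incT_sum p.1 v
  simp only [smul_eq_mul] at h2
  unfold dotProduct
  rw [h2]
  obtain ⟨a, ha⟩ : ∃ a, a = v (p.1.1, p.1.2.1) := ⟨_, rfl⟩
  obtain ⟨b, hb⟩ : ∃ b, b = v (p.1.1 + eT p.1.2.1, p.1.2.2) := ⟨_, rfl⟩
  obtain ⟨c, hc⟩ : ∃ c, c = v (p.1.1 + eT p.1.2.2, p.1.2.1) := ⟨_, rfl⟩
  obtain ⟨d, hd⟩ : ∃ d, d = v (p.1.1, p.1.2.2) := ⟨_, rfl⟩
  rw [← ha, ← hb, ← hc, ← hd]
  nlinarith [sq_nonneg (a - b), sq_nonneg (a + c), sq_nonneg (a + d), sq_nonneg (b + c),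
    sq_nonneg (b + d), sq_nonneg (c - d)]

variable (D l m q) in
/-- the plaquettes which are in no block -/
abbrev Out : Type := {p : Pl D l // p ∉ Set.range (jp (D := D) l m q)}

instance : Fintype (Out D m l q) := by
  classical exact inferInstance

lemma sum_split (hq : q * m ≤ l) (F : Pl D l → ℝ) :
    ∑ p : Pl D l, F p = ∑ p : (Fin D → Fin q) × Qi D m, F (jp l m q p) +
      ∑ p : Out D m l q, F p.1 := by
  classical
  have h1 : ∑ p : (Fin D → Fin q) × Qi D m, F (jp l m q p) =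
      ∑ p ∈ Finset.univ.map ⟨jp l m q, jp_inj (D := D) hq⟩, F p := by
    rw [Finset.sum_map]; rfl
  have h2 : ∑ p : Out D m l q, F p.1 =
      ∑ p ∈ Finset.univ \ Finset.univ.map ⟨jp l m q, jp_inj (D := D) hq⟩, F p := by
    rw [Finset.sum_subtype (p := fun p : Pl D l => p ∉ Set.range (jp (D := D) l m q))]
    intro p
    simp [Finset.mem_sdiff, Set.mem_range]
  rw [h1, h2, add_comm]
  exact (Finset.sum_sdiff (Finset.subset_univ _)).symm

/-- The torus contributes at most the blocks and the plaquettes between the blocks. -/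
theorem cmp_up (hq : q * m ≤ l) (hR : R.PosSemidef) (hRR : R * R = MB D m) {T : RM (Ed D l)}
    (hT : T.PosSemidef) (hTT : T * T = MT D l) :
    T.trace ≤ (q : ℝ) ^ D * R.trace + 8 * Fintype.card (Out D m l q) := by
  obtain ⟨P, hP⟩ : ∃ P : (Fin D → Fin q) ⊕ Out D m l q → RM (Ed D l),
    P = Sum.elim (fun c => Pb l R c) fun p => Dg p.1 := ⟨_, rfl⟩
  have hP0 : ∀ k, (P k).PosSemidef := by
    intro k
    rw [hP]
    rcases k with c | p
    · exact Pb_psd hR c
    · exact Dg_psd p.1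
  have h1 := family (R := T) (P := P) hT hP0 (by
    rw [hTT]
    refine psd_of_quad_le (SQ_sym _) (sym (psd_sum _ fun k => psd_sq (hP0 k))) fun v => ?_
    rw [sum_mulVec, dotProduct_sum, Fintype.sum_sum_type, hP]
    simp only [Sum.elim_inl, Sum.elim_inr]
    rw [Pb_total hq hRR]
    have e1 := sum_split hq (fun p : Pl D l => (incT p.1 ⬝ᵥ v) ^ 2)
    unfold MT
    rw [SQ_quad, e1]
    exact add_le_add le_rfl (Finset.sum_le_sum fun p _ => Dg_quad p.1 v))
  rw [Fintype.sum_sum_type, hP] at h1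
  simp only [Sum.elim_inl, Sum.elim_inr, Pb_trace hq, Dg_trace] at h1
  rw [Finset.sum_const, Finset.sum_const, Finset.card_univ, Finset.card_univ, Fintype.card_fun,
    Fintype.card_fin, Fintype.card_fin, nsmul_eq_mul, nsmul_eq_mul] at h1
  push_cast at h1
  linarith

/-- sums over the plaquettes of functions of the links -/
lemma sum_plq (f : Ed D l → ℝ) (hf : ∀ e, 0 ≤ f e) : ∑ p : Pl D l, (f (p.1.1, p.1.2.1) +
    f (p.1.1 + eT p.1.2.1, p.1.2.2) + f (p.1.1 + eT p.1.2.2, p.1.2.1) + f (p.1.1, p.1.2.2)) ≤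
    4 * D * ∑ e, f e := by
  obtain ⟨F, hF⟩ : ∃ F : Si D l × Fin D × Fin D → ℝ, F = fun p => (f (p.1, p.2.1) +
    f (p.1 + eT p.2.1, p.2.2) + f (p.1 + eT p.2.2, p.2.1) + f (p.1, p.2.2)) := ⟨_, rfl⟩
  have hF0 : ∀ p, 0 ≤ F p := fun p => by
    rw [hF]
    have a1 := hf (p.1, p.2.1)
    have a2 := hf (p.1 + eT p.2.1, p.2.2)
    have a3 := hf (p.1 + eT p.2.2, p.2.1)
    have a4 := hf (p.1, p.2.2)
    positivity
  have h1 : ∑ p : Pl D l, F p.1 ≤ ∑ p, F p :=
    sum_le_inj Subtype.val_injective hF0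
  have h2 : ∑ p : Pl D l, F p.1 = ∑ p : Pl D l, (f (p.1.1, p.1.2.1) +
    f (p.1.1 + eT p.1.2.1, p.1.2.2) + f (p.1.1 + eT p.1.2.2, p.1.2.1) + f (p.1.1, p.1.2.2)) := by
    rw [hF]
  rw [← h2]
  refine h1.trans (le_of_eq ?_)
  have hW : ∑ e : Ed D l, f e = ∑ i : Fin D, ∑ x : Si D l, f (x, i) := by
    rw [Fintype.sum_prod_type, Finset.sum_comm]
  have c1 : ∑ x : Si D l, ∑ i : Fin D, ∑ _j : Fin D, f (x, i) = D * ∑ e, f e := by
    simp only [Finset.sum_const, Finset.card_univ, Fintype.card_fin, nsmul_eq_mul]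
    rw [Fintype.sum_prod_type, Finset.mul_sum]
    exact Finset.sum_congr rfl fun x _ => by rw [Finset.mul_sum]
  have c4 : ∑ x : Si D l, ∑ _i : Fin D, ∑ j : Fin D, f (x, j) = D * ∑ e, f e := by
    simp only [Finset.sum_const, Finset.card_univ, Fintype.card_fin, nsmul_eq_mul]
    rw [Fintype.sum_prod_type, Finset.mul_sum]
  have c2 : ∑ x : Si D l, ∑ i : Fin D, ∑ j : Fin D, f (x + eT i, j) = D * ∑ e, f e := by
    rw [Finset.sum_comm]
    have : ∀ i : Fin D, ∑ x : Si D l, ∑ j : Fin D, f (x + eT i, j) = ∑ e, f e := by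
      intro i
      rw [Finset.sum_comm, hW]
      exact Finset.sum_congr rfl fun j _ => sum_shift i fun x => f (x, j)
    rw [Finset.sum_congr rfl fun i _ => this i]
    simp
  have c3 : ∑ x : Si D l, ∑ i : Fin D, ∑ j : Fin D, f (x + eT j, i) = D * ∑ e, f e := by
    have h5 : ∀ x : Si D l, ∑ i : Fin D, ∑ j : Fin D, f (x + eT j, i) =
        ∑ j : Fin D, ∑ i : Fin D, f (x + eT j, i) := fun x => Finset.sum_comm
    rw [Finset.sum_congr rfl fun x _ => h5 x]
    exact c2
  have h6 : ∑ p, F p = ∑ x : Si D l, ∑ i : Fin D, ∑ _j : Fin D, f (x, i) +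
      ∑ x : Si D l, ∑ i : Fin D, ∑ j : Fin D, f (x + eT i, j) +
      ∑ x : Si D l, ∑ i : Fin D, ∑ j : Fin D, f (x + eT j, i) +
      ∑ x : Si D l, ∑ _i : Fin D, ∑ j : Fin D, f (x, j) := by
    rw [Fintype.sum_prod_type]
    simp only [Fintype.sum_prod_type, hF, Finset.sum_add_distrib]
  rw [h6, c1, c2, c3, c4]
  ring

/-- The matrix of the trial state. -/
theorem exists_Om (hq : q * m ≤ l) (hR : R.PosSemidef) (hRR : R * R = MB D m) {η : ℝ}
    (hη : 0 < η) : ∃ (W : RM (Ed D l)) (κ : Ed D l → (Fin D → Fin q) ⊕ Ed D l),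
      W.PosSemidef ∧ (W * W - MT D l).PosSemidef ∧ (W - η • 1).PosSemidef ∧
      (∀ v : Ed D l → ℝ, (W *ᵥ v) ⬝ᵥ (W *ᵥ v) ≤ (80 * D + η ^ 2) * (v ⬝ᵥ v)) ∧
      (∀ e e', κ e ≠ κ e' → W e e' = 0) ∧
      (∀ k, Fintype.card {e // κ e = k} ≤ Fintype.card (Sb D m) + 1) ∧
      W.trace ≤ (q : ℝ) ^ D * R.trace + 8 * Fintype.card (Out D m l q) +
        η * Fintype.card (Ed D l) := by
  classical
  have hη1 : (η • (1 : RM (Ed D l))).PosSemidef := smul_one_psd hη.le
  obtain ⟨A, hA⟩ : ∃ A : RM (Ed D l), A = ∑ c : Fin D → Fin q, Pb l R c * Pb l R c +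
    ∑ p : Out D m l q, Dg p.1 * Dg p.1 := ⟨_, rfl⟩
  have hA0 : A.PosSemidef := by
    rw [hA]
    exact (psd_sum _ fun c => psd_sq (Pb_psd hR c)).add
      (psd_sum _ fun p : Out D m l q => psd_sq (Dg_psd p.1))
  obtain ⟨W, hW, hWW, -, -⟩ := exists_reg hA0 hη
  have hquad : ∀ v : Ed D l → ℝ, v ⬝ᵥ (A *ᵥ v) =
      ∑ p : (Fin D → Fin q) × Qi D m, (incT (jp l m q p).1 ⬝ᵥ v) ^ 2 +
      ∑ p : Out D m l q, v ⬝ᵥ ((Dg p.1 * Dg p.1) *ᵥ v) := by
    intro v
    rw [hA, add_mulVec, sum_mulVec, sum_mulVec, dotProduct_add, dotProduct_sum, dotProduct_sum,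
      Pb_total hq hRR]
  have hηq : ∀ v : Ed D l → ℝ, v ⬝ᵥ (((η • (1 : RM (Ed D l))) * (η • (1 : RM (Ed D l)))) *ᵥ v) =
      η ^ 2 * (v ⬝ᵥ v) := by
    intro v
    rw [smul_mul_smul_comm, one_mul, smul_mulVec, one_mulVec, dotProduct_smul, smul_eq_mul, sq]
  obtain ⟨κ, hκ⟩ : ∃ κ : Ed D l → (Fin D → Fin q) ⊕ Ed D l, κ = fun e =>
    if h : ∃ p, jl (D := D) l m q p = e then Sum.inl h.choose.1 else Sum.inr e := ⟨_, rfl⟩
  have hκ1 : ∀ p, κ (jl l m q p) = Sum.inl p.1 := by
    intro p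
    have h : ∃ p', jl (D := D) l m q p' = jl l m q p := ⟨p, rfl⟩
    rw [hκ]
    dsimp only
    rw [dif_pos h, jl_inj hq h.choose_spec]
  have hκ2 : ∀ e, (¬∃ p, jl (D := D) l m q p = e) → κ e = Sum.inr e := by
    intro e he
    rw [hκ]
    dsimp only
    rw [dif_neg he]
  clear hκ
  refine ⟨W, κ, hW, ?_, ?_, ?_, ?_, ?_, ?_⟩
  · rw [hWW]
    have h1 : (A - MT D l).PosSemidef := by
      refine psd_of_quad_le (SQ_sym _) (sym hA0) fun v => ?_
      rw [hquad]
      have e1 := sum_split hq (fun p : Pl D l => (incT p.1 ⬝ᵥ v) ^ 2)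
      unfold MT
      rw [SQ_quad, e1]
      exact add_le_add le_rfl (Finset.sum_le_sum fun p _ => Dg_quad p.1 v)
    rw [add_sub_right_comm]
    exact h1.add (psd_sq hη1)
  · refine mono hη1 hW ?_
    rw [hWW, add_sub_cancel_right]
    exact hA0
  · intro v
    rw [← dot_sq hW, hWW, add_mulVec, dotProduct_add, hηq, hquad, add_mul]
    refine add_le_add ?_ le_rfl
    have h1 : ∀ p : Pl D l, (incT p.1 ⬝ᵥ v) ^ 2 ≤ 4 * (v (p.1.1, p.1.2.1) ^ 2 +
        v (p.1.1 + eT p.1.2.1, p.1.2.2) ^ 2 + v (p.1.1 + eT p.1.2.2, p.1.2.1) ^ 2 +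
        v (p.1.1, p.1.2.2) ^ 2) := by
      intro p
      have h2 := incT_sum p.1 v
      simp only [smul_eq_mul] at h2
      unfold dotProduct
      rw [h2]
      obtain ⟨a, ha⟩ : ∃ a, a = v (p.1.1, p.1.2.1) := ⟨_, rfl⟩
      obtain ⟨b, hb⟩ : ∃ b, b = v (p.1.1 + eT p.1.2.1, p.1.2.2) := ⟨_, rfl⟩
      obtain ⟨c, hc⟩ : ∃ c, c = v (p.1.1 + eT p.1.2.2, p.1.2.1) := ⟨_, rfl⟩
      obtain ⟨d, hd⟩ : ∃ d, d = v (p.1.1, p.1.2.2) := ⟨_, rfl⟩
      rw [← ha, ← hb, ← hc, ← hd]
      nlinarith [sq_nonneg (a - b), sq_nonneg (a + c), sq_nonneg (a + d), sq_nonneg (b + c),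
        sq_nonneg (b + d), sq_nonneg (c - d)]
    have h2 : ∀ p : Pl D l, v ⬝ᵥ ((Dg p * Dg p) *ᵥ v) ≤ 16 * (v (p.1.1, p.1.2.1) ^ 2 +
        v (p.1.1 + eT p.1.2.1, p.1.2.2) ^ 2 + v (p.1.1 + eT p.1.2.2, p.1.2.1) ^ 2 +
        v (p.1.1, p.1.2.2) ^ 2) := by
      intro p
      unfold Dg
      rw [diag_sq]
      have h3 := cp_sum p.1 fun e => v e ^ 2
      rw [← h3, Finset.mul_sum]
      refine Finset.sum_le_sum fun e _ => ?_
      have a1 := cp_le p.1 e
      have a2 := cp_nonneg p.1 e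
      have a3 : (2 * cp p.1 e) ^ 2 ≤ 16 * cp p.1 e := by nlinarith
      have a4 := mul_le_mul_of_nonneg_right a3 (sq_nonneg (v e))
      linarith
    have h3 := sum_plq (fun e => v e ^ 2) fun e => sq_nonneg _
    have h4 : ∑ p : (Fin D → Fin q) × Qi D m, (incT (jp l m q p).1 ⬝ᵥ v) ^ 2 ≤
        ∑ p : Pl D l, 4 * (v (p.1.1, p.1.2.1) ^ 2 +
        v (p.1.1 + eT p.1.2.1, p.1.2.2) ^ 2 + v (p.1.1 + eT p.1.2.2, p.1.2.1) ^ 2 +
        v (p.1.1, p.1.2.2) ^ 2) :=
      (sum_le_inj (jp_inj hq) (F := fun p : Pl D l => (incT p.1 ⬝ᵥ v) ^ 2)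
        fun p => sq_nonneg _).trans (Finset.sum_le_sum fun p _ => h1 p)
    have h5 : ∑ p : Out D m l q, v ⬝ᵥ ((Dg p.1 * Dg p.1) *ᵥ v) ≤
        ∑ p : Pl D l, 16 * (v (p.1.1, p.1.2.1) ^ 2 +
        v (p.1.1 + eT p.1.2.1, p.1.2.2) ^ 2 + v (p.1.1 + eT p.1.2.2, p.1.2.1) ^ 2 +
        v (p.1.1, p.1.2.2) ^ 2) :=
      (sum_le_inj (f := fun p : Out D m l q => p.1) Subtype.val_injective
        (F := fun p : Pl D l => v ⬝ᵥ ((Dg p * Dg p) *ᵥ v))
        fun p => (psd_iff.1 (psd_sq (Dg_psd p))).2 v).trans (Finset.sum_le_sum fun p _ => h2 p)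
    rw [← Finset.mul_sum] at h4 h5
    have h6 : v ⬝ᵥ v = ∑ e, v e ^ 2 := by
      unfold dotProduct
      exact Finset.sum_congr rfl fun e _ => by ring
    rw [h6]
    linarith
  · intro e e' he
    refine block_inv hW rfl (κ := κ) (fun a b hab => ?_) he
    have hne : a ≠ b := fun h => hab (by rw [h])
    rw [hWW, hA]
    have z1 : (∑ c : Fin D → Fin q, Pb l R c * Pb l R c) a b = 0 := by
      rw [Matrix.sum_apply]
      refine Finset.sum_eq_zero fun c _ => ?_
      rw [Pb_mul hq, if_pos rfl, mul_apply]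
      refine Finset.sum_eq_zero fun s _ => ?_
      by_cases hs : iot l (cn l m c) s = b
      · have h2 : ((Em l m c)ᵀ * (R * R)) a s = 0 := by
          rw [mul_apply]
          refine Finset.sum_eq_zero fun s' _ => ?_
          by_cases hs' : iot l (cn l m c) s' = a
          · exfalso
            apply hab
            have e1 := hκ1 (c, s')
            have e2 := hκ1 (c, s)
            have e3 : jl l m q (c, s') = a := hs'
            have e4 : jl l m q (c, s) = b := hs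
            rw [e3] at e1
            rw [e4] at e2
            rw [e1, e2]
          · have : (Em l m c)ᵀ a s' = 0 := by
              show (if iot l (cn l m c) s' = a then (1 : ℝ) else 0) = 0
              rw [if_neg hs']
            rw [this, zero_mul]
        rw [h2, zero_mul]
      · have : Em l m c s b = 0 := by
          show (if iot l (cn l m c) s = b then (1 : ℝ) else 0) = 0
          rw [if_neg hs]
        rw [this, mul_zero]
    have z2 : (∑ p : Out D m l q, Dg p.1 * Dg p.1) a b = 0 := by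
      rw [Matrix.sum_apply]
      refine Finset.sum_eq_zero fun p _ => ?_
      unfold Dg
      rw [diagonal_mul_diagonal, diagonal_apply_ne _ hne]
    have z3 : ((η • (1 : RM (Ed D l))) * (η • (1 : RM (Ed D l)))) a b = 0 := by
      rw [smul_mul_smul_comm, one_mul, Matrix.smul_apply, one_apply_ne hne, smul_zero]
    rw [Matrix.add_apply, Matrix.add_apply, z1, z2, z3]
    norm_num
  · intro k
    rcases k with c | e0
    · have hinj : ∀ x : {e : Ed D l // κ e = Sum.inl c},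
          ∃ s : Sb D m, iot l (cn l m c) s = x.1 := by
        rintro ⟨e, he⟩
        by_cases h : ∃ p, jl (D := D) l m q p = e
        · obtain ⟨p, hp⟩ := h
          have h1 := hκ1 p
          rw [hp, he] at h1
          have h2 : c = p.1 := Sum.inl_injective h1
          refine ⟨p.2, ?_⟩
          have h3 : jl l m q p = e := hp
          unfold jl at h3
          rw [← h2] at h3
          exact h3
        · rw [hκ2 e h] at he
          exact absurd he (by simp)
      choose f hf using hinj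
      refine (Fintype.card_le_of_injective f fun x y hxy => ?_).trans (Nat.le_succ _)
      apply Subtype.ext
      rw [← hf x, ← hf y, hxy]
    · have h1 : Fintype.card {e : Ed D l // κ e = Sum.inr e0} ≤ 1 := by
        rw [Fintype.card_le_one_iff]
        rintro ⟨e, he⟩ ⟨e', he'⟩
        apply Subtype.ext
        have h2 : ∀ e, κ e = Sum.inr e0 → e = e0 := by
          intro e he
          by_cases h : ∃ p, jl (D := D) l m q p = e
          · obtain ⟨p, hp⟩ := h
            have h1 := hκ1 p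
            rw [hp, he] at h1
            exact absurd h1 (by simp)
          · rw [hκ2 e h] at he
            exact Sum.inr_injective he
        show e = e'
        rw [h2 e he, h2 e' he']
      exact h1.trans (Nat.le_add_left 1 _)
  · obtain ⟨P, hP⟩ : ∃ P : ((Fin D → Fin q) ⊕ Out D m l q) ⊕ Unit → RM (Ed D l),
      P = Sum.elim (Sum.elim (fun c => Pb l R c) fun p => Dg p.1) fun _ => η • 1 := ⟨_, rfl⟩
    have hP0 : ∀ k, (P k).PosSemidef := by
      intro k
      rw [hP]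
      rcases k with (c | p) | _
      · exact Pb_psd hR c
      · exact Dg_psd p.1
      · exact hη1
    have h1 := family (R := W) (P := P) hW hP0 (by
      rw [hWW, Fintype.sum_sum_type, Fintype.sum_sum_type, hP]
      simp only [Sum.elim_inl, Sum.elim_inr, Finset.univ_unique, Finset.sum_const,
        Finset.card_singleton, one_smul]
      rw [← hA, sub_self]
      exact PosSemidef.zero)
    rw [Fintype.sum_sum_type, Fintype.sum_sum_type, hP] at h1
    simp only [Sum.elim_inl, Sum.elim_inr, Pb_trace hq, Dg_trace, Finset.univ_unique,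
      Finset.sum_const, Finset.card_singleton, one_smul, Finset.card_univ, Fintype.card_fun,
      Fintype.card_fin, nsmul_eq_mul, trace_smul_one] at h1
    push_cast at h1
    linarith

end

end Pool.Agent.Q205.YM
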