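import Mathlib
import Pool.Agent.Q205.YM.Cmp

/-!
# Counting the plaquettes between the blocks
-/

open Matrix
open Pool.Agent.H906R3.YM

namespace Pool.Agent.Q205.YM

set_option linter.unusedSectionVars false

noncomputable section

variable {D m l q : ℕ} [NeZero l]

/-- pairs of directions -/
abbrev Pr (D : ℕ) : Type := {p : Fin D × Fin D // p.1 < p.2}

lemma card_Pl : Fintype.card (Pl D l) ≤ l ^ D * Fintype.card (Pr D) := by
  have h1 : Fintype.card ((Fin D → ZMod l) × Pr D) = l ^ D * Fintype.card (Pr D) := by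
    rw [Fintype.card_prod, Fintype.card_fun, ZMod.card, Fintype.card_fin]
  rw [← h1]
  refine Fintype.card_le_of_injective
    (fun p : Pl D l => ((p.1.1, ⟨p.1.2, p.2⟩) : (Fin D → ZMod l) × Pr D)) ?_
  intro p p' h
  have h2 := (Prod.ext_iff.1 h).1
  have h3 := congrArg Subtype.val (Prod.ext_iff.1 h).2
  exact Subtype.ext (Prod.ext h2 h3)

lemma card_Qi : (m - 1) ^ D * Fintype.card (Pr D) ≤ Fintype.card (Qi D m) := by
  have h1 : Fintype.card ((Fin D → Fin (m - 1)) × Pr D) = (m - 1) ^ D * Fintype.card (Pr D) := by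
    rw [Fintype.card_prod, Fintype.card_fun, Fintype.card_fin, Fintype.card_fin]
  rw [← h1]
  have hlt : ∀ x : Fin (m - 1), (x : ℕ) + 1 < m := fun x => by have := x.2; omega
  refine Fintype.card_le_of_injective
    (fun p : (Fin D → Fin (m - 1)) × Pr D =>
      (⟨(fun i => ⟨(p.1 i : ℕ), (Nat.lt_succ_self _).trans (hlt _)⟩, p.2.1),
        ⟨p.2.2, hlt _, hlt _⟩⟩ : Qi D m)) ?_
  intro p p' h
  have h0 := congrArg Subtype.val h
  have h2 := (Prod.ext_iff.1 h0).1
  have h3 := (Prod.ext_iff.1 h0).2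
  refine Prod.ext (funext fun i => Fin.ext ?_) (Subtype.ext h3)
  have := congrArg Fin.val (congrFun h2 i)
  exact this

lemma card_Out (hq : q * m ≤ l) (hm : 0 < m) : (Fintype.card (Out D m l q) : ℝ) ≤
    (D : ℝ) ^ 2 * ((l : ℝ) ^ D - ((q : ℝ) * (m - 1)) ^ D) := by
  have h1 := sum_split (D := D) (m := m) (l := l) hq fun _ => (1 : ℝ)
  simp only [Finset.sum_const, Finset.card_univ, nsmul_eq_mul, mul_one] at h1
  rw [Fintype.card_prod, Fintype.card_fun, Fintype.card_fin, Fintype.card_fin] at h1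
  push_cast at h1
  have h2 : (Fintype.card (Pl D l) : ℝ) ≤ (l : ℝ) ^ D * Fintype.card (Pr D) := by
    exact_mod_cast card_Pl (D := D) (l := l)
  have h3 : ((m : ℝ) - 1) ^ D * Fintype.card (Pr D) ≤ Fintype.card (Qi D m) := by
    have e := card_Qi (D := D) (m := m)
    have e2 : (((m - 1 : ℕ) : ℝ)) = (m : ℝ) - 1 := by
      rw [Nat.cast_sub hm, Nat.cast_one]
    have e3 : (((m - 1 : ℕ) : ℝ)) ^ D * Fintype.card (Pr D) ≤ Fintype.card (Qi D m) := by
      exact_mod_cast e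
    rw [e2] at e3
    exact e3
  have h4 : (Fintype.card (Pr D) : ℝ) ≤ (D : ℝ) ^ 2 := by
    have e : Fintype.card (Pr D) ≤ Fintype.card (Fin D × Fin D) :=
      Fintype.card_le_of_injective _ Subtype.val_injective
    rw [Fintype.card_prod, Fintype.card_fin] at e
    have e2 : (Fintype.card (Pr D) : ℝ) ≤ ((D * D : ℕ) : ℝ) := by exact_mod_cast e
    push_cast at e2
    rw [sq]
    exact e2
  have h5 := mul_le_mul_of_nonneg_left h3 (show (0 : ℝ) ≤ (q : ℝ) ^ D by positivity)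
  have hm1 : (0 : ℝ) ≤ (m : ℝ) - 1 := by
    have : (1 : ℝ) ≤ m := by exact_mod_cast hm
    linarith
  have h6 : ((q : ℝ) * (m - 1)) ^ D ≤ (l : ℝ) ^ D := by
    refine pow_le_pow_left₀ (mul_nonneg (Nat.cast_nonneg _) hm1) ?_ D
    have e : ((q * m : ℕ) : ℝ) ≤ l := by exact_mod_cast hq
    push_cast at e
    have : (0 : ℝ) ≤ q := Nat.cast_nonneg _
    nlinarith
  have h7 : (Fintype.card (Out D m l q) : ℝ) ≤
      Fintype.card (Pr D) * ((l : ℝ) ^ D - ((q : ℝ) * (m - 1)) ^ D) := by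
    rw [mul_pow]
    nlinarith
  exact h7.trans (mul_le_mul_of_nonneg_right h4 (by linarith))

lemma real_cnt {D m l q : ℕ} (hm : 0 < m) (hl : 0 < l) (hq : l < (q + 1) * m) {x : ℝ}
    (hx : 1 / (m : ℝ) + m / l ≤ x) (hx1 : x ≤ 1) :
    (l : ℝ) ^ D - ((q : ℝ) * (m - 1)) ^ D ≤ D * x * (l : ℝ) ^ D := by
  have hm' : (0 : ℝ) < m := by exact_mod_cast hm
  have hl' : (0 : ℝ) < l := by exact_mod_cast hl
  have hm1 : (0 : ℝ) ≤ (m : ℝ) - 1 := by
    have : (1 : ℝ) ≤ m := by exact_mod_cast hm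
    linarith
  have h1 : (l : ℝ) < ((q : ℝ) + 1) * m := by exact_mod_cast hq
  have h2 : (1 - x) * l ≤ q * (m - 1) := by
    have e1 : (1 / (m : ℝ) + m / l) * l = l / m + m := by field_simp
    have e2 := mul_le_mul_of_nonneg_right hx hl'.le
    rw [e1] at e2
    have e3 : (l : ℝ) / m < q + 1 := by
      rw [div_lt_iff₀ hm']
      exact h1
    have e4 : (l : ℝ) / m * (m - 1) = l - l / m := by
      field_simp
    have e5 := mul_le_mul_of_nonneg_right e3.le hm1
    nlinarith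
  have h3 : 0 ≤ 1 - x := by linarith
  have h4 : ((1 - x) * l) ^ D ≤ ((q : ℝ) * (m - 1)) ^ D :=
    pow_le_pow_left₀ (mul_nonneg h3 hl'.le) h2 D
  have h5 : 1 + (D : ℝ) * (-x) ≤ (1 + (-x)) ^ D := one_add_mul_le_pow (by linarith) D
  rw [mul_pow] at h4
  have h6 := mul_le_mul_of_nonneg_right h5 (show 0 ≤ (l : ℝ) ^ D by positivity)
  have h7 : (1 + -x) = 1 - x := by ring
  rw [h7] at h6
  nlinarith

/-- Blocks of a fixed large size contain almost all plaquettes of a large torus. -/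
theorem count (D : ℕ) {ε : ℝ} (hε : 0 < ε) : ∃ m : ℕ, 0 < m ∧ ∃ L0 : ℕ, m ≤ L0 ∧
    ∀ (l : ℕ) [NeZero l], L0 ≤ l →
      (Fintype.card (Out D m l (l / m)) : ℝ) ≤ ε * (l : ℝ) ^ D := by
  obtain ⟨x, hx⟩ : ∃ x : ℝ, x = min 1 (ε / ((D : ℝ) ^ 3 + 1)) := ⟨_, rfl⟩
  have hx0 : 0 < x := by rw [hx]; exact lt_min one_pos (by positivity)
  have hx1 : x ≤ 1 := by rw [hx]; exact min_le_left _ _
  have hx2 : (D : ℝ) ^ 3 * x ≤ ε := by
    have h1 : x ≤ ε / ((D : ℝ) ^ 3 + 1) := by rw [hx]; exact min_le_right _ _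
    rw [le_div_iff₀ (by positivity)] at h1
    nlinarith
  obtain ⟨m, hm⟩ := exists_nat_gt (2 / x)
  have hm0 : 0 < m := by
    have : (0 : ℝ) < m := lt_of_lt_of_le (by positivity) hm.le
    exact_mod_cast this
  have hm' : (0 : ℝ) < m := by exact_mod_cast hm0
  obtain ⟨L1, hL1⟩ := exists_nat_gt (2 * m / x)
  refine ⟨m, hm0, max m L1, le_max_left _ _, ?_⟩
  intro l _ hl
  have hl0 : 0 < l := hm0.trans_le ((le_max_left _ _).trans hl)
  have hl' : (0 : ℝ) < l := by exact_mod_cast hl0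
  have hlL : (L1 : ℝ) ≤ l := by exact_mod_cast (le_max_right _ _).trans hl
  have hq : l / m * m ≤ l := Nat.div_mul_le_self l m
  have h1 := card_Out (D := D) (m := m) (l := l) hq hm0
  have h2 : 1 / (m : ℝ) + m / l ≤ x := by
    have e1 : 1 / (m : ℝ) ≤ x / 2 := by
      rw [div_le_div_iff₀ hm' (by norm_num)]
      rw [div_lt_iff₀ hx0] at hm
      nlinarith
    have e2 : (m : ℝ) / l ≤ x / 2 := by
      rw [div_le_div_iff₀ hl' (by norm_num)]
      rw [div_lt_iff₀ hx0] at hL1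
      nlinarith
    linarith
  have h3 : l < (l / m + 1) * m := by
    have := Nat.lt_div_mul_add (a := l) hm0
    rw [add_mul, one_mul]
    exact this
  have h4 := real_cnt (D := D) hm0 hl0 h3 h2 hx1
  refine h1.trans ((mul_le_mul_of_nonneg_left h4 (by positivity)).trans ?_)
  have h5 := mul_le_mul_of_nonneg_right hx2 (show 0 ≤ (l : ℝ) ^ D by positivity)
  refine le_trans (le_of_eq ?_) h5
  ring

end

end Pool.Agent.Q205.YM
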