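import Mathlib
import Pool.Agent.Q205.YM.Act
import Pool.Agent.Q205.YM.Est
import Pool.Agent.TH369.WL.Sub

/-!
# Pointwise estimates for the trial state
-/

open MeasureTheory Matrix
open scoped Matrix.Norms.Frobenius ContDiff
open Pool.Agent.H906R3.YM
open Pool.Agent.W793.YM (dv norm_sq_ip abs_ip_le norm_ct norm_lmul norm_rmul norm_X dv_nonneg
  dv_mul dv_conj dv_sq dv_one dv_inv)
open Pool.Agent.TH369.WL (Qp norm_Qp ip_Qp norm_Qp_le)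

namespace Pool.Agent.Q205.YM

set_option linter.unusedSectionVars false

noncomputable section

variable {G : Type*} [Group G] [TopologicalSpace G] [IsTopologicalGroup G] [CompactSpace G]
  [SecondCountableTopology G] [MeasurableSpace G] [BorelSpace G] {N n : ℕ} {L : LD G N n}

lemma Qp_add (z w : Mat N) : Qp L.X (z + w) = Qp L.X z + Qp L.X w := by
  unfold Qp
  simp only [map_add, add_smul, Finset.sum_add_distrib]
  abel

lemma Qp_smul (c : ℝ) (z : Mat N) : Qp L.X (c • z) = c • Qp L.X z := by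
  unfold Qp
  simp only [map_smul, smul_eq_mul, smul_sub, Finset.smul_sum, smul_smul]

lemma Qp_sum {K : Type*} (s : Finset K) (f : K → Mat N) :
    Qp L.X (∑ k ∈ s, f k) = ∑ k ∈ s, Qp L.X (f k) := by
  classical
  induction s using Finset.induction_on with
  | empty =>
    rw [Finset.sum_empty, Finset.sum_empty]
    have := Qp_smul (L := L) 0 0
    simpa using this
  | insert k s hk ih => rw [Finset.sum_insert hk, Finset.sum_insert hk, Qp_add, ih]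

lemma proj_low (z : Mat N) (g : G) :
    ‖z‖ ^ 2 - 2 * ‖Qp L.X z‖ ^ 2 - 2 * (‖z‖ ^ 2 * ‖L.rho g - 1‖ ^ 2) ≤
      ∑ a, ip (L.X a * L.rho g) z ^ 2 := by
  have h1 : ∀ a, ip (L.X a * L.rho g) z = ip (L.X a) (z * (L.rho g)ᴴ) := by
    intro a
    rw [ip_apply, ip_apply, conjTranspose_mul, Matrix.mul_assoc, trace_mul_comm, Matrix.mul_assoc]
  simp only [h1]
  have h2 := norm_Qp (X := L.X) ip_X (z * (L.rho g)ᴴ)
  have h3 : ‖z * (L.rho g)ᴴ‖ = ‖z‖ := by rw [← L.rho_inv, norm_rmul]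
  have h4 : ‖Qp L.X (z * (L.rho g)ᴴ)‖ ≤ ‖Qp L.X z‖ + ‖z‖ * ‖L.rho g - 1‖ := by
    have e1 : z * (L.rho g)ᴴ = z + z * (L.rho g - 1)ᴴ := by
      rw [conjTranspose_sub, conjTranspose_one, mul_sub, mul_one]; abel
    rw [e1, Qp_add]
    refine (norm_add_le _ _).trans (add_le_add le_rfl ?_)
    refine (norm_Qp_le ip_X _).trans ((norm_mul_le _ _).trans ?_)
    rw [norm_ct]
  have h5 : ‖Qp L.X (z * (L.rho g)ᴴ)‖ ^ 2 ≤ 2 * ‖Qp L.X z‖ ^ 2 +
      2 * (‖z‖ * ‖L.rho g - 1‖) ^ 2 := by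
    refine (pow_le_pow_left₀ (norm_nonneg _) h4 2).trans ?_
    nlinarith [sq_nonneg (‖Qp L.X z‖ - ‖z‖ * ‖L.rho g - 1‖)]
  rw [h3] at h2
  rw [mul_pow] at h5
  linarith

variable {E : Type*} [Fintype E] [DecidableEq E] {X : Type*} [DecidableEq X]

/-- the block of a link -/
def bk (κ : E → X) (e : E) : Finset E := Finset.univ.filter fun e' => κ e' = κ e

lemma mem_bk {κ : E → X} {e e' : E} : e' ∈ bk κ e ↔ κ e' = κ e := by
  unfold bk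
  simp

/-- hypotheses on the matrix of the quadratic form -/
structure BW (W : RM E) (κ : E → X) (K : ℕ) (β η : ℝ) : Prop where
  psd : W.PosSemidef
  low : (W - η • (1 : RM E)).PosSemidef
  ent : ∀ e e', |W e e'| ≤ β
  blk : ∀ e e', κ e ≠ κ e' → W e e' = 0
  card : ∀ e, (bk κ e).card ≤ K

variable {W : RM E} {κ : E → X} {K : ℕ} {β η : ℝ}

lemma BW.beta (h : BW W κ K β η) (e : E) : 0 ≤ β := (abs_nonneg _).trans (h.ent e e)

lemma BW.blk_sum (h : BW W κ K β η) {f : E → ℝ} (hf : ∀ e, 0 ≤ f e) :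
    ∑ e, ∑ e' ∈ bk κ e, f e' ≤ K * ∑ e, f e := by
  unfold bk
  simp only [Finset.sum_filter]
  rw [Finset.sum_comm, Finset.mul_sum]
  refine Finset.sum_le_sum fun e' _ => ?_
  rw [← Finset.sum_filter, Finset.sum_const, nsmul_eq_mul]
  refine mul_le_mul_of_nonneg_right ?_ (hf e')
  have h1 : Finset.univ.filter (fun e => κ e' = κ e) = bk κ e' := by
    unfold bk
    exact Finset.filter_congr fun e _ => eq_comm
  rw [h1]
  exact_mod_cast h.card e'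

lemma BW.cs (h : BW W κ K β η) (e : E) (f : E → ℝ) :
    (∑ e' ∈ bk κ e, f e') ^ 2 ≤ K * ∑ e' ∈ bk κ e, f e' ^ 2 := by
  refine sq_sum_le_card_mul_sum_sq.trans ?_
  refine mul_le_mul_of_nonneg_right ?_ (Finset.sum_nonneg fun _ _ => sq_nonneg _)
  exact_mod_cast h.card e

lemma BW.zl_eq (h : BW W κ K β η) (U : E → G) (e : E) :
    zl L W U e = ∑ e' ∈ bk κ e, W e e' • wl L U e' := by
  unfold zl bk
  rw [Finset.sum_filter]
  refine Finset.sum_congr rfl fun e' _ => ?_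
  split_ifs with h1
  · rfl
  · rw [h.blk e e' fun h2 => h1 h2.symm, zero_smul]

lemma BW.zl_le (h : BW W κ K β η) (U : E → G) (e : E) :
    ‖zl L W U e‖ ≤ β * ∑ e' ∈ bk κ e, ‖wl L U e'‖ := by
  rw [h.zl_eq, Finset.mul_sum]
  refine (norm_sum_le _ _).trans (Finset.sum_le_sum fun e' _ => ?_)
  rw [norm_smul]
  exact mul_le_mul_of_nonneg_right (h.ent e e') (norm_nonneg _)

lemma BW.zl_sq (h : BW W κ K β η) (U : E → G) (e : E) :
    ‖zl L W U e‖ ^ 2 ≤ β ^ 2 * K * ∑ e' ∈ bk κ e, ‖wl L U e'‖ ^ 2 := by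
  refine (pow_le_pow_left₀ (norm_nonneg _) (h.zl_le U e) 2).trans ?_
  rw [mul_pow, mul_assoc]
  exact mul_le_mul_of_nonneg_left (h.cs e _) (sq_nonneg _)

lemma BW.sum_zl (h : BW W κ K β η) (U : E → G) :
    ∑ e, ‖zl L W U e‖ ^ 2 ≤ β ^ 2 * K ^ 2 * ∑ e, ‖wl L U e‖ ^ 2 := by
  refine (Finset.sum_le_sum fun e _ => h.zl_sq U e).trans ?_
  rw [← Finset.mul_sum]
  have h1 := h.blk_sum (f := fun e => ‖wl L U e‖ ^ 2) fun e => sq_nonneg _
  have h2 := mul_le_mul_of_nonneg_left h1 (show 0 ≤ β ^ 2 * (K : ℝ) by positivity)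
  refine h2.trans (le_of_eq ?_)
  ring

lemma BW.sum_Qp (h : BW W κ K β η) {C : ℝ}
    (hQ : ∀ g : G, ‖Qp L.X (L.rho g - 1)‖ ≤ C * ‖L.rho g - 1‖ ^ 2) (U : E → G) :
    ∑ e, ‖Qp L.X (zl L W U e)‖ ^ 2 ≤ β ^ 2 * C ^ 2 * K ^ 2 * ∑ e, ‖wl L U e‖ ^ 4 := by
  have h0 : ∀ e, ‖Qp L.X (zl L W U e)‖ ^ 2 ≤
      β ^ 2 * C ^ 2 * K * ∑ e' ∈ bk κ e, ‖wl L U e'‖ ^ 4 := by
    intro e
    have h1 : ‖Qp L.X (zl L W U e)‖ ≤ (β * C) * ∑ e' ∈ bk κ e, ‖wl L U e'‖ ^ 2 := by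
      rw [h.zl_eq, Qp_sum, Finset.mul_sum]
      refine (norm_sum_le _ _).trans (Finset.sum_le_sum fun e' _ => ?_)
      rw [Qp_smul, norm_smul, mul_assoc]
      exact mul_le_mul (h.ent e e') (hQ (U e')) (norm_nonneg _) (h.beta e)
    refine (pow_le_pow_left₀ (norm_nonneg _) h1 2).trans ?_
    have h2 := h.cs e fun e' => ‖wl L U e'‖ ^ 2
    have h3 : ∀ e', (‖wl L U e'‖ ^ 2) ^ 2 = ‖wl L U e'‖ ^ 4 := fun e' => by ring
    simp only [h3] at h2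
    have h4 := mul_le_mul_of_nonneg_left h2 (sq_nonneg (β * C))
    refine (le_of_eq (by ring)).trans (h4.trans (le_of_eq (by ring)))
  refine (Finset.sum_le_sum fun e _ => h0 e).trans ?_
  rw [← Finset.mul_sum]
  have h1 := h.blk_sum (f := fun e => ‖wl L U e‖ ^ 4) fun e => by positivity
  have h2 := mul_le_mul_of_nonneg_left h1 (show 0 ≤ β ^ 2 * C ^ 2 * (K : ℝ) by positivity)
  refine h2.trans (le_of_eq ?_)
  ring

lemma BW.sum_cross (h : BW W κ K β η) (U : E → G) :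
    ∑ e, ‖zl L W U e‖ ^ 2 * ‖wl L U e‖ ^ 2 ≤ β ^ 2 * K ^ 2 * ∑ e, ‖wl L U e‖ ^ 4 := by
  have h0 : ∀ e, ‖zl L W U e‖ ^ 2 * ‖wl L U e‖ ^ 2 ≤ β ^ 2 * K / 2 *
      (∑ e' ∈ bk κ e, ‖wl L U e'‖ ^ 4 + K * ‖wl L U e‖ ^ 4) := by
    intro e
    have h1 := mul_le_mul_of_nonneg_right (h.zl_sq (L := L) U e) (sq_nonneg ‖wl L U e‖)
    refine h1.trans ?_
    have h2 : (∑ e' ∈ bk κ e, ‖wl L U e'‖ ^ 2) * ‖wl L U e‖ ^ 2 ≤
        1 / 2 * (∑ e' ∈ bk κ e, ‖wl L U e'‖ ^ 4 + K * ‖wl L U e‖ ^ 4) := by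
      have h3 : (∑ e' ∈ bk κ e, ‖wl L U e'‖ ^ 2) * ‖wl L U e‖ ^ 2 ≤
          ∑ e' ∈ bk κ e, 1 / 2 * (‖wl L U e'‖ ^ 4 + ‖wl L U e‖ ^ 4) := by
        rw [Finset.sum_mul]
        refine Finset.sum_le_sum fun e' _ => ?_
        nlinarith [sq_nonneg (‖wl L U e'‖ ^ 2 - ‖wl L U e‖ ^ 2)]
      refine h3.trans ?_
      rw [← Finset.mul_sum, Finset.sum_add_distrib, Finset.sum_const, nsmul_eq_mul]
      have h4 : ((bk κ e).card : ℝ) * ‖wl L U e‖ ^ 4 ≤ K * ‖wl L U e‖ ^ 4 :=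
        mul_le_mul_of_nonneg_right (by exact_mod_cast h.card e) (by positivity)
      linarith
    have h5 := mul_le_mul_of_nonneg_left h2 (show 0 ≤ β ^ 2 * (K : ℝ) by positivity)
    refine (le_of_eq (by ring)).trans (h5.trans (le_of_eq (by ring)))
  refine (Finset.sum_le_sum fun e _ => h0 e).trans ?_
  rw [← Finset.mul_sum, Finset.sum_add_distrib, ← Finset.mul_sum]
  have h1 := h.blk_sum (f := fun e => ‖wl L U e‖ ^ 4) fun e => by positivity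
  have h2 := mul_le_mul_of_nonneg_left h1 (show 0 ≤ β ^ 2 * (K : ℝ) / 2 by positivity)
  rw [mul_add]
  refine (add_le_add_left h2 _).trans (le_of_eq ?_)
  ring

/-- lower bound of the gradient -/
lemma BW.Gam_low (h : BW W κ K β η) {C : ℝ}
    (hQ : ∀ g : G, ‖Qp L.X (L.rho g - 1)‖ ≤ C * ‖L.rho g - 1‖ ^ 2) (U : E → G) :
    ∑ e, ‖zl L W U e‖ ^ 2 - 2 * β ^ 2 * K ^ 2 * (C ^ 2 + 1) * ∑ e, ‖wl L U e‖ ^ 4 ≤
      L.ev U (Gam L.Dv (SW L W) (SW L W)) := by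
  have h1 : L.ev U (Gam L.Dv (SW L W) (SW L W)) =
      ∑ e, ∑ a, ip (L.X a * L.rho (U e)) (zl L W U e) ^ 2 := by
    unfold Gam
    rw [map_sum, Fintype.sum_prod_type]
    refine Finset.sum_congr rfl fun e _ => Finset.sum_congr rfl fun a _ => ?_
    rw [map_mul, Dv_SW (sym h.psd), sq]
  rw [h1]
  have h2 := Finset.sum_le_sum fun (e : E) (_ : e ∈ Finset.univ) =>
    proj_low (L := L) (zl L W U e) (U e)
  refine le_trans ?_ h2
  rw [Finset.sum_sub_distrib, Finset.sum_sub_distrib, ← Finset.mul_sum, ← Finset.mul_sum]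
  have h3 := h.sum_Qp hQ U
  have h4 := h.sum_cross (L := L) U
  have h5 : ∑ e, ‖zl L W U e‖ ^ 2 * ‖L.rho (U e) - 1‖ ^ 2 =
    ∑ e, ‖zl L W U e‖ ^ 2 * ‖wl L U e‖ ^ 2 := rfl
  rw [h5]
  have h6 : 2 * β ^ 2 * K ^ 2 * (C ^ 2 + 1) * ∑ e, ‖wl L U e‖ ^ 4 =
      2 * (β ^ 2 * C ^ 2 * K ^ 2 * ∑ e, ‖wl L U e‖ ^ 4) +
      2 * (β ^ 2 * K ^ 2 * ∑ e, ‖wl L U e‖ ^ 4) := by ring
  rw [h6]
  linarith

/-- upper bound of the Laplacian -/
lemma BW.Lap_up (h : BW W κ K β η) (U : E → G) :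
    L.ev U (Lap L.Dv (SW L W)) ≤ n * W.trace + n * ∑ e, ‖zl L W U e‖ := by
  have h1 : L.ev U (Lap L.Dv (SW L W)) =
      ∑ e, ∑ a, (ip (L.X a * L.X a * L.rho (U e)) (zl L W U e) + W e e) := by
    unfold Lap
    rw [map_sum, Fintype.sum_prod_type]
    exact Finset.sum_congr rfl fun e _ => Finset.sum_congr rfl fun a _ => DDv_SW (sym h.psd) e a U
  rw [h1]
  have h2 : ∀ e, ∑ a : Fin n, (ip (L.X a * L.X a * L.rho (U e)) (zl L W U e) + W e e) ≤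
      n * W e e + n * ‖zl L W U e‖ := by
    intro e
    have h3 : ∀ a : Fin n, ip (L.X a * L.X a * L.rho (U e)) (zl L W U e) + W e e ≤
        W e e + ‖zl L W U e‖ := by
      intro a
      have h4 := (le_abs_self _).trans (abs_ip_le (L.X a * L.X a * L.rho (U e)) (zl L W U e))
      have h5 : ‖L.X a * L.X a * L.rho (U e)‖ ≤ 1 := by
        rw [norm_rmul]
        refine (norm_mul_le _ _).trans ?_
        rw [norm_X, mul_one]
      have h6 := mul_le_mul_of_nonneg_right h5 (norm_nonneg (zl L W U e))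
      linarith
    refine (Finset.sum_le_sum fun a _ => h3 a).trans (le_of_eq ?_)
    rw [Finset.sum_const, Finset.card_univ, Fintype.card_fin, nsmul_eq_mul]
    ring
  refine (Finset.sum_le_sum fun e _ => h2 e).trans (le_of_eq ?_)
  rw [Finset.sum_add_distrib, ← Finset.mul_sum, ← Finset.mul_sum]
  rfl

/-- coordinates of the deviations -/
def vl (L : LD G N n) (U : E → G) (c : Fin N × Fin N × Bool) : E → ℝ := fun e => co c (wl L U e)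

lemma co_zl (W : RM E) (U : E → G) (c : Fin N × Fin N × Bool) (e : E) :
    co c (zl L W U e) = (W *ᵥ vl L U c) e := by
  unfold zl
  rw [map_sum]
  exact Finset.sum_congr rfl fun s _ => by rw [map_smul, smul_eq_mul]; rfl

lemma sum_zl_vl (W : RM E) (U : E → G) :
    ∑ e, ‖zl L W U e‖ ^ 2 = ∑ c, (W *ᵥ vl L U c) ⬝ᵥ (W *ᵥ vl L U c) := by
  simp only [norm_sq_co]
  rw [Finset.sum_comm]
  refine Finset.sum_congr rfl fun c _ => ?_
  unfold dotProduct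
  exact Finset.sum_congr rfl fun e _ => by rw [co_zl, sq]

lemma sum_wl_vl (U : E → G) : ∑ e, ‖wl L U e‖ ^ 2 = ∑ c, vl L U c ⬝ᵥ vl L U c := by
  simp only [norm_sq_co]
  rw [Finset.sum_comm]
  refine Finset.sum_congr rfl fun c _ => ?_
  unfold dotProduct
  exact Finset.sum_congr rfl fun e _ => by rw [sq]; rfl

lemma BW.quad_low (h : BW W κ K β η) (v : E → ℝ) : η * (v ⬝ᵥ v) ≤ v ⬝ᵥ (W *ᵥ v) := by
  have h1 := (psd_iff.1 h.low).2 v
  rw [sub_mulVec, dotProduct_sub, smul_mulVec, one_mulVec, dotProduct_smul, smul_eq_mul] at h1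
  linarith

lemma BW.Wv_low (h : BW W κ K β η) (hη : 0 ≤ η) (v : E → ℝ) :
    η ^ 2 * (v ⬝ᵥ v) ≤ (W *ᵥ v) ⬝ᵥ (W *ᵥ v) := by
  have h1 := h.quad_low v
  have h2 : (v ⬝ᵥ (W *ᵥ v)) ^ 2 ≤ (v ⬝ᵥ v) * ((W *ᵥ v) ⬝ᵥ (W *ᵥ v)) := by
    have := Finset.sum_mul_sq_le_sq_mul_sq Finset.univ v (W *ᵥ v)
    unfold dotProduct
    simpa only [sq] using this
  have h3 : 0 ≤ v ⬝ᵥ v := Finset.sum_nonneg fun _ _ => mul_self_nonneg _
  have h4 : 0 ≤ (W *ᵥ v) ⬝ᵥ (W *ᵥ v) := Finset.sum_nonneg fun _ _ => mul_self_nonneg _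
  have h5 : (η * (v ⬝ᵥ v)) ^ 2 ≤ (v ⬝ᵥ v) * ((W *ᵥ v) ⬝ᵥ (W *ᵥ v)) :=
    (pow_le_pow_left₀ (mul_nonneg hη h3) h1 2).trans h2
  rcases h3.eq_or_lt with h6 | h6
  · rw [← h6, mul_zero]; exact h4
  · have h7 : (v ⬝ᵥ v) * (η ^ 2 * (v ⬝ᵥ v)) ≤ (v ⬝ᵥ v) * ((W *ᵥ v) ⬝ᵥ (W *ᵥ v)) := by
      refine le_trans (le_of_eq ?_) h5
      ring
    exact le_of_mul_le_mul_left h7 h6

lemma BW.zl_low (h : BW W κ K β η) (hη : 0 ≤ η) (U : E → G) :
    η ^ 2 * ∑ e, ‖wl L U e‖ ^ 2 ≤ ∑ e, ‖zl L W U e‖ ^ 2 := by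
  rw [sum_zl_vl, sum_wl_vl, Finset.mul_sum]
  exact Finset.sum_le_sum fun c _ => h.Wv_low hη _

end

end Pool.Agent.Q205.YM
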