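import Mathlib
import Pool.Agent.Q205.YM.Ptw

/-!
# The tail of the trial state
-/

open MeasureTheory Matrix
open scoped Matrix.Norms.Frobenius ContDiff
open Pool.Agent.H906R3.YM
open Pool.Agent.W793.YM (dv norm_sq_ip abs_ip_le norm_ct norm_lmul norm_rmul norm_X dv_nonneg
  dv_mul dv_conj dv_sq dv_one dv_inv)

namespace Pool.Agent.Q205.YM

set_option linter.unusedSectionVars false

noncomputable section

variable {G : Type*} [Group G] [TopologicalSpace G] [IsTopologicalGroup G] [CompactSpace G]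
  [SecondCountableTopology G] [MeasurableSpace G] [BorelSpace G] {N n : ℕ} {L : LD G N n}
  (μ : Measure G) [IsProbabilityMeasure μ]
  {E : Type*} [Fintype E] [DecidableEq E] {X : Type*} [DecidableEq X]
  {W : RM E} {κ : E → X} {K : ℕ} {β η : ℝ}

lemma SW_vl (W : RM E) (U : E → G) :
    (SW L W).1 U = 1 / 2 * ∑ c, vl L U c ⬝ᵥ (W *ᵥ vl L U c) := by
  rw [SW_eq]
  congr 1
  have h1 : ∀ e, ip (wl L U e) (zl L W U e) = ∑ c, vl L U c e * (W *ᵥ vl L U c) e := by
    intro e
    rw [ip_sum_co]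
    exact Finset.sum_congr rfl fun c _ => by rw [co_zl]; rfl
  rw [Finset.sum_congr rfl fun e _ => h1 e, Finset.sum_comm]
  rfl

lemma SW_low (h : (W - η • (1 : RM E)).PosSemidef) (U : E → G) :
    1 / 2 * (η * ∑ e, ‖wl L U e‖ ^ 2) ≤ (SW L W).1 U := by
  rw [SW_vl, sum_wl_vl, Finset.mul_sum]
  refine mul_le_mul_of_nonneg_left (Finset.sum_le_sum fun c _ => ?_) (by norm_num)
  have h1 := (psd_iff.1 h).2 (vl L U c)
  rw [sub_mulVec, dotProduct_sub, smul_mulVec, one_mulVec, dotProduct_smul, smul_eq_mul] at h1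
  linarith

lemma SW_up (h : ∀ e e', |W e e'| ≤ β) {r : ℝ} (hr : 0 ≤ r) (hβ : 0 ≤ β) {U : E → G}
    (hU : ∀ e, ‖wl L U e‖ ≤ r) : (SW L W).1 U ≤ 1 / 2 * (β * (Fintype.card E * r) ^ 2) := by
  rw [SW_apply]
  refine mul_le_mul_of_nonneg_left ?_ (by norm_num)
  have h1 : ∀ e e', W e e' * ip (wl L U e) (wl L U e') ≤ β * (r * r) := by
    intro e e'
    refine (le_abs_self _).trans ?_
    rw [abs_mul]
    refine mul_le_mul (h e e') ((abs_ip_le _ _).trans ?_) (abs_nonneg _) hβ
    exact mul_le_mul (hU e) (hU e') (norm_nonneg _) hr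
  refine (Finset.sum_le_sum fun e _ => Finset.sum_le_sum fun e' _ => h1 e e').trans
    (le_of_eq ?_)
  simp only [Finset.sum_const, Finset.card_univ, nsmul_eq_mul]
  ring

lemma SW_split (hs : Wᵀ = W) (p : E → Prop) [DecidablePred p]
    (h0 : ∀ e e', p e → ¬p e' → W e e' = 0) (U : E → G) :
    (SW L W).1 U = (SW L (W.submatrix (Subtype.val : {e // p e} → E) Subtype.val)).1
        (fun i : {e // p e} => U i) +
      (SW L (W.submatrix (Subtype.val : {e // ¬p e} → E) Subtype.val)).1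
        (fun i : {e // ¬p e} => U i) := by
  have hs' : ∀ x y, W x y = W y x := fun x y => by
    conv_lhs => rw [← hs]
    rfl
  rw [SW_apply, SW_apply, SW_apply, ← mul_add]
  congr 1
  rw [← Fintype.sum_subtype_add_sum_subtype p]
  congr 1
  · refine Finset.sum_congr rfl fun i _ => ?_
    rw [← Fintype.sum_subtype_add_sum_subtype p]
    have h1 : ∑ j : {e // ¬p e}, W i j * ip (wl L U i) (wl L U j) = 0 :=
      Finset.sum_eq_zero fun j _ => by rw [h0 i j i.2 j.2, zero_mul]
    rw [h1, add_zero]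
    rfl
  · refine Finset.sum_congr rfl fun i _ => ?_
    rw [← Fintype.sum_subtype_add_sum_subtype p]
    have h1 : ∑ j : {e // p e}, W i j * ip (wl L U i) (wl L U j) = 0 :=
      Finset.sum_eq_zero fun j _ => by rw [hs' i j, h0 j i j.2 i.2, zero_mul]
    rw [h1, zero_add]
    rfl

lemma int_split (p : E → Prop) [DecidablePred p] (f : ({e // p e} → G) → ℝ)
    (h : ({e // ¬p e} → G) → ℝ) :
    ∫ U, f (fun i : {e // p e} => U i) * h (fun i : {e // ¬p e} => U i) ∂(ME μ E) =
      (∫ x, f x ∂(ME μ {e // p e})) * ∫ y, h y ∂(ME μ {e // ¬p e}) := by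
  have h1 := (measurePreserving_piEquivPiSubtypeProd (fun _ : E => μ) p).integral_comp'
    (fun z : ({e // p e} → G) × ({e // ¬p e} → G) => f z.1 * h z.2)
  rw [integral_prod_mul] at h1
  exact h1

/-- the weight -/
def wt (L : LD G N n) (W : RM E) (t : ℝ) (U : E → G) : ℝ := Real.exp (-(t * (SW L W).1 U))

lemma wt_pos (t : ℝ) (U : E → G) : 0 < wt L W t U := Real.exp_pos _

lemma wt_cont (t : ℝ) : Continuous (wt L W t) :=
  Real.continuous_exp.comp ((continuous_const.mul (Sm_cont _)).neg)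

lemma norm_wl_cont (e : E) : Continuous fun U : E → G => ‖wl L U e‖ :=
  ((L.cont.comp (continuous_apply e)).sub continuous_const).norm

lemma norm_wl_le (U : E → G) (e : E) : ‖wl L U e‖ ≤ 2 * Real.sqrt N := norm_dv_le (U e)

/-- the excess of the deviation -/
def Te (L : LD G N n) (ρ : ℝ) (g : G) : ℝ := max 0 (‖L.rho g - 1‖ - ρ)

lemma Te_cont (ρ : ℝ) : Continuous (Te L ρ) :=
  continuous_const.max ((L.cont.sub continuous_const).norm.sub continuous_const)

lemma Te_nonneg (ρ : ℝ) (g : G) : 0 ≤ Te L ρ g := le_max_left _ _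

lemma Te_le {ρ : ℝ} (hρ : 0 ≤ ρ) (g : G) : Te L ρ g ≤ 2 * Real.sqrt N := by
  unfold Te
  have h1 := norm_dv_le (L := L) g
  exact max_le (by positivity) (by linarith)

/-- the measure of a ball -/
def m0 (L : LD G N n) (r : ℝ) : ℝ := μ.real {g | ‖L.rho g - 1‖ ≤ r}

lemma m0_le_one (r : ℝ) : m0 μ L r ≤ 1 := measureReal_le_one

lemma m0_nonneg (r : ℝ) : 0 ≤ m0 μ L r := measureReal_nonneg

lemma m0_pos [μ.IsOpenPosMeasure] {r : ℝ} (hr : 0 < r) : 0 < m0 μ L r := by
  unfold m0
  rw [Measure.real, ENNReal.toReal_pos_iff]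
  refine ⟨?_, measure_lt_top _ _⟩
  have hc : Continuous fun g : G => ‖L.rho g - 1‖ := (L.cont.sub continuous_const).norm
  have h1 : IsOpen {g : G | ‖L.rho g - 1‖ < r} := isOpen_lt hc continuous_const
  refine (h1.measure_pos μ ⟨1, ?_⟩).trans_le (measure_mono fun g hg => ?_)
  · show ‖L.rho 1 - 1‖ < r
    rw [map_one, sub_self, norm_zero]; exact hr
  · exact (show ‖L.rho g - 1‖ < r from hg).le

lemma den_low {r : ℝ} (hr : 0 ≤ r) (hβ : 0 ≤ β) (hW : ∀ e e', |W e e'| ≤ β)
    (hK : Fintype.card E ≤ K) {t : ℝ} (ht : 0 ≤ t) :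
    m0 μ L r ^ K * Real.exp (-(t * (1 / 2 * (β * (K * r) ^ 2)))) ≤
      ∫ x, wt L W t x ∂(ME μ E) := by
  set A : Set (E → G) := Set.univ.pi fun _ => {g | ‖L.rho g - 1‖ ≤ r} with hA
  have hm : MeasurableSet A := by
    refine MeasurableSet.univ_pi fun _ => ?_
    exact measurableSet_le ((L.cont.sub continuous_const).norm).measurable measurable_const
  have h1 : (ME μ E).real A = m0 μ L r ^ Fintype.card E := by
    rw [Measure.real, hA, Measure.pi_pi, Finset.prod_const, Finset.card_univ,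
      ENNReal.toReal_pow]
    rfl
  have h2 : ∫ x, A.indicator (fun _ => Real.exp (-(t * (1 / 2 * (β * (K * r) ^ 2))))) x
      ∂(ME μ E) ≤ ∫ x, wt L W t x ∂(ME μ E) := by
    refine integral_mono ((integrable_const _).indicator hm)
      (integrable_cont μ (wt_cont t)) fun x => ?_
    by_cases hx : x ∈ A
    · rw [Set.indicator_of_mem hx]
      unfold wt
      refine Real.exp_le_exp.2 (neg_le_neg (mul_le_mul_of_nonneg_left ?_ ht))
      have hx' : ∀ e, ‖wl L x e‖ ≤ r := fun e => hx e (Set.mem_univ _)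
      refine (SW_up hW hr hβ hx').trans ?_
      have h5 : (Fintype.card E : ℝ) * r ≤ K * r :=
        mul_le_mul_of_nonneg_right (by exact_mod_cast hK) hr
      have h6 := pow_le_pow_left₀ (by positivity) h5 2
      have h7 := mul_le_mul_of_nonneg_left h6 hβ
      linarith
    · rw [Set.indicator_of_notMem hx]
      exact (wt_pos t x).le
  rw [integral_indicator_const _ hm, h1, smul_eq_mul] at h2
  refine le_trans (mul_le_mul_of_nonneg_right ?_ (Real.exp_pos _).le) h2
  exact pow_le_pow_of_le_one (m0_nonneg μ r) (m0_le_one μ r) hK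

lemma num_up (hW : (W - η • (1 : RM E)).PosSemidef) (hη : 0 ≤ η) {ρ : ℝ} (hρ : 0 ≤ ρ) {t : ℝ}
    (ht : 0 ≤ t) (e : E) :
    ∫ x, Te L ρ (x e) * wt L W t x ∂(ME μ E) ≤
      2 * Real.sqrt N * Real.exp (-(t * (1 / 2 * (η * ρ ^ 2)))) := by
  have h1 : ∫ x, Te L ρ (x e) * wt L W t x ∂(ME μ E) ≤
      ∫ _x, 2 * Real.sqrt N * Real.exp (-(t * (1 / 2 * (η * ρ ^ 2)))) ∂(ME μ E) := by
    refine integral_mono (integrable_cont μ
      (((Te_cont ρ).comp (continuous_apply e)).mul (wt_cont t))) (integrable_const _) fun x => ?_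
    by_cases hx : ρ < ‖wl L x e‖
    · refine mul_le_mul (Te_le hρ _) ?_ (wt_pos _ _).le (by positivity)
      unfold wt
      refine Real.exp_le_exp.2 (neg_le_neg (mul_le_mul_of_nonneg_left ?_ ht))
      refine le_trans ?_ (SW_low hW x)
      have h2 : ρ ^ 2 ≤ ∑ e, ‖wl L x e‖ ^ 2 :=
        (pow_le_pow_left₀ hρ hx.le 2).trans
          (Finset.single_le_sum (f := fun e => ‖wl L x e‖ ^ 2) (fun _ _ => sq_nonneg _)
            (Finset.mem_univ e))
      have h3 := mul_le_mul_of_nonneg_left h2 hη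
      linarith
    · have h2 : Te L ρ (x e) = 0 := by
        unfold Te
        rw [not_lt] at hx
        exact max_eq_left (by unfold wl at hx; linarith)
      rw [h2, zero_mul]
      positivity
  refine h1.trans (le_of_eq ?_)
  simp

/-- the tail estimate -/
theorem tail (h : BW W κ K β η) (hη : 0 ≤ η) {ρ r : ℝ} (hρ : 0 ≤ ρ) (hr : 0 ≤ r)
    (hrρ : β * (K * r) ^ 2 ≤ η * ρ ^ 2 / 2) {t : ℝ} (ht : 0 ≤ t) (e : E) :
    m0 μ L r ^ K * Real.exp (t * (η * ρ ^ 2 / 4)) *
      ∫ U, Te L ρ (U e) * wt L W t U ∂(ME μ E) ≤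
      2 * Real.sqrt N * ∫ U, wt L W t U ∂(ME μ E) := by
  classical
  set p : E → Prop := fun e' => κ e' = κ e with hp
  have h0 : ∀ x y, p x → ¬p y → W x y = 0 := by
    intro x y hx hy
    refine h.blk x y fun hxy => hy ?_
    rw [hp] at hx ⊢
    dsimp only at hx ⊢
    rw [← hxy, hx]
  set WB := W.submatrix (Subtype.val : {e // p e} → E) Subtype.val with hWB
  set WC := W.submatrix (Subtype.val : {e // ¬p e} → E) Subtype.val with hWC
  have hsp : ∀ U : E → G, wt L W t U = wt L WB t (fun i : {e // p e} => U i) *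
      wt L WC t (fun i : {e // ¬p e} => U i) := by
    intro U
    unfold wt
    rw [← Real.exp_add, SW_split (sym h.psd) p h0 U]
    congr 1
    ring
  have hpe : p e := rfl
  have e1 : ∫ U, Te L ρ (U e) * wt L W t U ∂(ME μ E) =
      (∫ x, Te L ρ (x ⟨e, hpe⟩) * wt L WB t x ∂(ME μ {e // p e})) *
        ∫ y, wt L WC t y ∂(ME μ {e // ¬p e}) := by
    rw [← int_split μ p (fun x => Te L ρ (x ⟨e, hpe⟩) * wt L WB t x) (wt L WC t)]
    refine integral_congr_ae (Filter.Eventually.of_forall fun U => ?_)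
    dsimp only
    rw [hsp, mul_assoc]
  have e2 : ∫ U, wt L W t U ∂(ME μ E) = (∫ x, wt L WB t x ∂(ME μ {e // p e})) *
        ∫ y, wt L WC t y ∂(ME μ {e // ¬p e}) := by
    rw [← int_split μ p (wt L WB t) (wt L WC t)]
    exact integral_congr_ae (Filter.Eventually.of_forall fun U => hsp U)
  rw [e1, e2, ← mul_assoc, ← mul_assoc]
  have hc : 0 ≤ ∫ y, wt L WC t y ∂(ME μ {e // ¬p e}) :=
    integral_nonneg fun y => (wt_pos t y).le
  refine mul_le_mul_of_nonneg_right ?_ hc
  have hlow : (WB - η • (1 : RM {e // p e})).PosSemidef := by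
    have h3 := h.low.submatrix (Subtype.val : {e // p e} → E)
    have h4 : (W - η • (1 : RM E)).submatrix (Subtype.val : {e // p e} → E) Subtype.val =
        WB - η • (1 : RM {e // p e}) := by
      ext i j
      rw [submatrix_apply, Matrix.sub_apply, Matrix.sub_apply, Matrix.smul_apply,
        Matrix.smul_apply, hWB, submatrix_apply]
      congr 2
      by_cases hij : i = j
      · rw [hij, one_apply_eq, one_apply_eq]
      · rw [one_apply_ne hij, one_apply_ne fun hh => hij (Subtype.ext hh)]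
    rw [← h4]
    exact h3
  have hcard : Fintype.card {e // p e} ≤ K := by
    rw [Fintype.card_subtype]
    exact h.card e
  have n1 := num_up μ (L := L) hlow hη hρ ht ⟨e, hpe⟩
  have n2 := den_low μ (L := L) (W := WB) hr (h.beta e) (fun i j => h.ent i j) hcard ht
  set Dn := ∫ x, wt L WB t x ∂(ME μ {e // p e}) with hDn
  set Nm := ∫ x, Te L ρ (x ⟨e, hpe⟩) * wt L WB t x ∂(ME μ {e // p e}) with hNm
  have hmk : 0 ≤ m0 μ L r ^ K := pow_nonneg (m0_nonneg μ r) K
  have n3 : m0 μ L r ^ K * Real.exp (t * (η * ρ ^ 2 / 4)) * Nm ≤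
      m0 μ L r ^ K * Real.exp (t * (η * ρ ^ 2 / 4)) *
        (2 * Real.sqrt N * Real.exp (-(t * (1 / 2 * (η * ρ ^ 2))))) :=
    mul_le_mul_of_nonneg_left n1 (mul_nonneg hmk (Real.exp_pos _).le)
  refine n3.trans ?_
  have n4 : Real.exp (t * (η * ρ ^ 2 / 4)) * Real.exp (-(t * (1 / 2 * (η * ρ ^ 2)))) ≤
      Real.exp (-(t * (1 / 2 * (β * (K * r) ^ 2)))) := by
    rw [← Real.exp_add]
    refine Real.exp_le_exp.2 ?_
    have := mul_le_mul_of_nonneg_left hrρ ht
    linarith
  have n5 := mul_le_mul_of_nonneg_left n4 hmk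
  have n6 := mul_le_mul_of_nonneg_left (n5.trans n2)
    (show 0 ≤ 2 * Real.sqrt N by positivity)
  refine le_trans (le_of_eq ?_) n6
  ring

end

end Pool.Agent.Q205.YM
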