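import Mathlib
import Pool.Agent.Q205.YM.Tail

/-!
# The energy of the trial state
-/

open MeasureTheory Matrix
open scoped Matrix.Norms.Frobenius ContDiff
open Pool.Agent.H906R3.YM
open Pool.Agent.W793.YM (dv norm_sq_ip abs_ip_le norm_ct norm_lmul norm_rmul norm_X dv_nonneg
  dv_mul dv_conj dv_sq dv_one dv_inv)
open Pool.Agent.TH369.WL (Qp norm_Qp ip_Qp norm_Qp_le)

namespace Pool.Agent.Q205.YM

set_option linter.unusedSectionVars false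

noncomputable section

variable {G : Type*} [Group G] [TopologicalSpace G] [IsTopologicalGroup G] [CompactSpace G]
  [SecondCountableTopology G] [MeasurableSpace G] [BorelSpace G] {N n : ℕ} {L : LD G N n}
  (μ : Measure G) [IsProbabilityMeasure μ] [μ.IsMulLeftInvariant] [μ.IsOpenPosMeasure]
  {E : Type*} [Fintype E] [DecidableEq E] {X : Type*} [DecidableEq X]
  {W : RM E} {κ : E → X} {K : ℕ} {β η : ℝ}

/-- the weighted integral -/
def JJ (L : LD G N n) (W : RM E) (t : ℝ) (F : (E → G) → ℝ) : ℝ :=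
  ∫ U, F U * wt L W t U ∂(ME μ E)

lemma JJ_mono {t : ℝ} {F H : (E → G) → ℝ} (hF : Continuous F) (hH : Continuous H)
    (h : ∀ U, F U ≤ H U) : JJ μ L W t F ≤ JJ μ L W t H :=
  integral_mono (integrable_cont μ (hF.mul (wt_cont t))) (integrable_cont μ (hH.mul (wt_cont t)))
    fun U => mul_le_mul_of_nonneg_right (h U) (wt_pos t U).le

lemma JJ_add {t : ℝ} {F H : (E → G) → ℝ} (hF : Continuous F) (hH : Continuous H) :
    JJ μ L W t (fun U => F U + H U) = JJ μ L W t F + JJ μ L W t H := by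
  have h := integral_add (integrable_cont μ (hF.mul (wt_cont (L := L) (W := W) t)))
    (integrable_cont μ (hH.mul (wt_cont (L := L) (W := W) t)))
  refine Eq.trans ?_ h
  exact integral_congr_ae (Filter.Eventually.of_forall fun U => add_mul _ _ _)

lemma JJ_mul {t : ℝ} (c : ℝ) (F : (E → G) → ℝ) :
    JJ μ L W t (fun U => c * F U) = c * JJ μ L W t F := by
  unfold JJ
  rw [← integral_const_mul]
  exact integral_congr_ae (Filter.Eventually.of_forall fun U => mul_assoc _ _ _)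

lemma JJ_sum {t : ℝ} {ι : Type*} (s : Finset ι) {F : ι → (E → G) → ℝ}
    (hF : ∀ i, Continuous (F i)) :
    JJ μ L W t (fun U => ∑ i ∈ s, F i U) = ∑ i ∈ s, JJ μ L W t (F i) := by
  have h := integral_finsetSum s fun i _ =>
    integrable_cont μ ((hF i).mul (wt_cont (L := L) (W := W) t))
  refine Eq.trans ?_ h
  exact integral_congr_ae (Filter.Eventually.of_forall fun U => Finset.sum_mul _ _ _)

lemma JJ_const {t : ℝ} (c : ℝ) : JJ μ L W t (fun _ => c) = c * JJ μ L W t fun _ => 1 := by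
  rw [← JJ_mul]
  simp

lemma norm_zl_cont (e : E) : Continuous fun U : E → G => ‖zl L W U e‖ := by
  have h1 : ∀ e' : E, Continuous fun U : E → G => W e e' • wl L U e' := fun e' =>
    ((L.cont.comp (continuous_apply e')).sub continuous_const).const_smul (W e e')
  have h2 : Continuous fun U : E → G => zl L W U e :=
    continuous_finsetSum Finset.univ fun e' _ => h1 e'
  exact h2.norm

lemma JJ_nonneg {t : ℝ} {F : (E → G) → ℝ} (h : ∀ U, 0 ≤ F U) : 0 ≤ JJ μ L W t F :=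
  integral_nonneg fun U => mul_nonneg (h U) (wt_pos t U).le

/-- the trial state -/
def tri (L : LD G N n) (W : RM E) (g : ℝ) : Sm L E := expS ((-(1 / g ^ 2)) • SW L W)

lemma tri_sq (g : ℝ) (U : E → G) :
    (tri L W g * tri L W g).1 U = wt L W (2 / g ^ 2) U := by
  show (tri L W g).1 U * (tri L W g).1 U = _
  have h1 : (tri L W g).1 U = Real.exp (-(1 / g ^ 2) * (SW L W).1 U) := rfl
  rw [h1, ← Real.exp_add]
  unfold wt
  congr 1; ring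

lemma I_tri (g : ℝ) (F : Sm L E) : L.I μ (F * (tri L W g * tri L W g)) =
    JJ μ L W (2 / g ^ 2) fun U => L.ev U F := by
  rw [I_apply]
  unfold JJ
  refine integral_congr_ae (Filter.Eventually.of_forall fun U => ?_)
  show F.1 U * (tri L W g * tri L W g).1 U = _
  rw [tri_sq]
  rfl

lemma I_tri1 (g : ℝ) : L.I μ (tri L W g * tri L W g) = JJ μ L W (2 / g ^ 2) fun _ => 1 := by
  have h := I_tri μ (L := L) (W := W) g 1
  rw [one_mul] at h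
  rw [h]
  congr 1

lemma Dv_tri (g : ℝ) (j : E × Fin n) :
    L.Dv j (tri L W g) = -((1 / g ^ 2) • (tri L W g * L.Dv j (SW L W))) := by
  unfold tri
  rw [Dv_expS, Derivation.map_smul, mul_smul_comm, neg_smul]

lemma tri_ibp {g : ℝ} (hg : 0 < g) :
    JJ μ L W (2 / g ^ 2) (fun U => L.ev U (Gam L.Dv (SW L W) (SW L W))) =
      g ^ 2 / 2 * JJ μ L W (2 / g ^ 2) (fun U => L.ev U (Lap L.Dv (SW L W))) ∧
    g ^ 2 / 2 * L.I μ (Gam L.Dv (tri L W g) (tri L W g)) =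
      1 / (2 * g ^ 2) * JJ μ L W (2 / g ^ 2) (fun U => L.ev U (Gam L.Dv (SW L W) (SW L W))) := by
  have h1 := ibp (D := L.Dv (E := E)) (I := L.I μ) (I_D_zero μ) (S := SW L W) (ψ := tri L W g)
    (k := 1 / g ^ 2) (Dv_tri g)
  have hg2 : g ^ 2 ≠ 0 := by positivity
  constructor
  · have h2 := h1.1
    rw [I_tri, I_tri] at h2
    rw [h2]
    field_simp
  · rw [h1.2, map_smul, I_tri, smul_eq_mul]
    field_simp

/-- the constant of the tail estimate -/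
def ct0 (L : LD G N n) (K : ℕ) (η ρ r : ℝ) : ℝ :=
  2 * Real.sqrt N * 8 / (m0 μ L r ^ K * (η ^ 2 * ρ ^ 4))

lemma ct0_nonneg {ρ r : ℝ} : 0 ≤ ct0 μ L K η ρ r := by
  unfold ct0
  have := m0_nonneg μ (L := L) r
  positivity

lemma tail' (h : BW W κ K β η) (hη : 0 < η) {ρ r : ℝ} (hρ : 0 < ρ) (hr : 0 < r)
    (hrρ : β * (K * r) ^ 2 ≤ η * ρ ^ 2 / 2) {g : ℝ} (hg : 0 < g) (e : E) :
    JJ μ L W (2 / g ^ 2) (fun U => Te L ρ (U e)) ≤
      ct0 μ L K η ρ r * g ^ 4 * JJ μ L W (2 / g ^ 2) fun _ => 1 := by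
  have ht : 0 ≤ 2 / g ^ 2 := by positivity
  have h1 := tail μ (L := L) h hη.le hρ.le hr.le hrρ ht e
  have h2 : ∫ U, wt L W (2 / g ^ 2) U ∂(ME μ E) = JJ μ L W (2 / g ^ 2) fun _ => 1 := by
    unfold JJ
    simp
  rw [h2] at h1
  set Z := JJ μ L W (2 / g ^ 2) fun _ => 1 with hZ
  set J := JJ μ L W (2 / g ^ 2) (fun U => Te L ρ (U e)) with hJ
  have h3 : ∫ U, Te L ρ (U e) * wt L W (2 / g ^ 2) U ∂(ME μ E) = J := rfl
  rw [h3] at h1
  have hJ0 : 0 ≤ J := JJ_nonneg μ fun U => Te_nonneg _ _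
  have hm : 0 < m0 μ L r ^ K := pow_pos (m0_pos μ hr) K
  have h4 : (2 / g ^ 2 * (η * ρ ^ 2 / 4)) ^ 2 / 2 ≤ Real.exp (2 / g ^ 2 * (η * ρ ^ 2 / 4)) := by
    have := Real.quadratic_le_exp_of_nonneg
      (show 0 ≤ 2 / g ^ 2 * (η * ρ ^ 2 / 4) by positivity)
    have h5 : 0 ≤ 2 / g ^ 2 * (η * ρ ^ 2 / 4) := by positivity
    linarith
  have h5 : m0 μ L r ^ K * ((2 / g ^ 2 * (η * ρ ^ 2 / 4)) ^ 2 / 2) * J ≤
      2 * Real.sqrt N * Z :=
    (mul_le_mul_of_nonneg_right (mul_le_mul_of_nonneg_left h4 hm.le) hJ0).trans h1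
  have h6 : m0 μ L r ^ K * ((2 / g ^ 2 * (η * ρ ^ 2 / 4)) ^ 2 / 2) =
      m0 μ L r ^ K * (η ^ 2 * ρ ^ 4) / (8 * g ^ 4) := by
    field_simp
    ring
  rw [h6, div_mul_eq_mul_div, div_le_iff₀ (by positivity)] at h5
  unfold ct0
  have h7 : 2 * Real.sqrt N * 8 / (m0 μ L r ^ K * (η ^ 2 * ρ ^ 4)) * g ^ 4 * Z =
      (2 * Real.sqrt N * Z * (8 * g ^ 4)) / (m0 μ L r ^ K * (η ^ 2 * ρ ^ 4)) := by
    field_simp
  rw [h7, le_div_iff₀ (by positivity)]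
  linarith

lemma exists_r {β η ρ : ℝ} (hβ : 0 ≤ β) (hη : 0 < η) (hρ : 0 < ρ) (K : ℕ) :
    ∃ r : ℝ, 0 < r ∧ β * (K * r) ^ 2 ≤ η * ρ ^ 2 / 2 := by
  have hpos : 0 < η * ρ ^ 2 / (2 * (β * K ^ 2 + 1)) := by positivity
  refine ⟨Real.sqrt (η * ρ ^ 2 / (2 * (β * K ^ 2 + 1))), Real.sqrt_pos.2 hpos, ?_⟩
  rw [mul_pow, Real.sq_sqrt hpos.le, ← mul_assoc, ← mul_div_assoc,
    div_le_div_iff₀ (by positivity) (by norm_num)]
  nlinarith [mul_pos hη (pow_pos hρ 2)]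

/-! ### the moments -/

/-- sums of powers of the deviations -/
def aw (L : LD G N n) (p : ℕ) (U : E → G) : ℝ := ∑ e, ‖wl L U e‖ ^ p

/-- sums of powers of `W` applied to the deviations -/
def az (L : LD G N n) (W : RM E) (p : ℕ) (U : E → G) : ℝ := ∑ e, ‖zl L W U e‖ ^ p

/-- the sum of the excesses -/
def aT (L : LD G N n) (ρ : ℝ) (U : E → G) : ℝ := ∑ e, Te L ρ (U e)

lemma aw_cont (p : ℕ) : Continuous (aw L p : (E → G) → ℝ) :=
  continuous_finsetSum _ fun e _ => (norm_wl_cont e).pow p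

lemma az_cont (p : ℕ) : Continuous (az L W p) :=
  continuous_finsetSum _ fun e _ => (norm_zl_cont e).pow p

lemma aT_cont (ρ : ℝ) : Continuous (aT L ρ : (E → G) → ℝ) :=
  continuous_finsetSum _ fun e _ => (Te_cont ρ).comp (continuous_apply e)

lemma aw_nonneg (p : ℕ) (U : E → G) : 0 ≤ aw L p U :=
  Finset.sum_nonneg fun _ _ => pow_nonneg (norm_nonneg _) _

lemma aT_nonneg (ρ : ℝ) (U : E → G) : 0 ≤ aT L ρ U :=
  Finset.sum_nonneg fun _ _ => Te_nonneg _ _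

lemma JJ_lin {t : ℝ} (c d : ℝ) {F H : (E → G) → ℝ} (hF : Continuous F) (hH : Continuous H) :
    JJ μ L W t (fun U => c * F U + d * H U) = c * JJ μ L W t F + d * JJ μ L W t H := by
  have h := JJ_add μ (L := L) (W := W) (t := t) (F := fun U => c * F U) (H := fun U => d * H U)
    (continuous_const.mul hF) (continuous_const.mul hH)
  rw [JJ_mul, JJ_mul] at h
  exact h

/-- comparison with a linear combination -/
lemma JJ_le_lin {t : ℝ} (c d : ℝ) {P F H : (E → G) → ℝ} (hP : Continuous P) (hF : Continuous F)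
    (hH : Continuous H) (h : ∀ U, P U ≤ c * F U + d * H U) :
    JJ μ L W t P ≤ c * JJ μ L W t F + d * JJ μ L W t H := by
  rw [← JJ_lin μ c d hF hH]
  exact JJ_mono μ hP ((continuous_const.mul hF).add (continuous_const.mul hH)) h

lemma JJ_le_mul {t : ℝ} (c : ℝ) {P F : (E → G) → ℝ} (hP : Continuous P) (hF : Continuous F)
    (h : ∀ U, P U ≤ c * F U) : JJ μ L W t P ≤ c * JJ μ L W t F := by
  rw [← JJ_mul]
  exact JJ_mono μ hP (continuous_const.mul hF) h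

lemma JJ_mul_le {t : ℝ} (c : ℝ) {P F : (E → G) → ℝ} (hP : Continuous P) (hF : Continuous F)
    (h : ∀ U, c * F U ≤ P U) : c * JJ μ L W t F ≤ JJ μ L W t P := by
  rw [← JJ_mul]
  exact JJ_mono μ (continuous_const.mul hF) hP h

lemma aw3_pt {ρ : ℝ} (U : E → G) :
    aw L 3 U ≤ ρ * aw L 2 U + (2 * Real.sqrt N) ^ 2 * aT L ρ U := by
  unfold aw aT
  rw [Finset.mul_sum, Finset.mul_sum, ← Finset.sum_add_distrib]
  refine Finset.sum_le_sum fun e _ => ?_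
  obtain ⟨x, hx⟩ : ∃ x : ℝ, x = ‖wl L U e‖ := ⟨_, rfl⟩
  obtain ⟨y, hy⟩ : ∃ y : ℝ, y = Te L ρ (U e) := ⟨_, rfl⟩
  obtain ⟨b, hb⟩ : ∃ b : ℝ, b = 2 * Real.sqrt N := ⟨_, rfl⟩
  have e1 : x ≤ b := by rw [hb, hx]; exact norm_wl_le U e
  have e2 : x - ρ ≤ y := by rw [hx, hy]; exact le_max_right _ _
  have e3 : 0 ≤ y := by rw [hy]; exact Te_nonneg _ _
  have e4 : 0 ≤ x := by rw [hx]; exact norm_nonneg _
  rw [← hx, ← hy, ← hb]
  have e5 : x ^ 2 * (x - ρ) ≤ x ^ 2 * y := mul_le_mul_of_nonneg_left e2 (sq_nonneg _)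
  have e6 : x ^ 2 * y ≤ b ^ 2 * y := mul_le_mul_of_nonneg_right (pow_le_pow_left₀ e4 e1 2) e3
  nlinarith

lemma aw4_pt (U : E → G) : aw L 4 U ≤ 2 * Real.sqrt N * aw L 3 U := by
  unfold aw
  rw [Finset.mul_sum]
  refine Finset.sum_le_sum fun e _ => ?_
  have e1 : ‖wl L U e‖ ≤ 2 * Real.sqrt N := norm_wl_le U e
  have e3 : 0 ≤ ‖wl L U e‖ ^ 3 := by positivity
  have := mul_le_mul_of_nonneg_right e1 e3
  calc ‖wl L U e‖ ^ 4 = ‖wl L U e‖ * ‖wl L U e‖ ^ 3 := by ring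
    _ ≤ _ := this

lemma BW.az1_const (hBW : BW W κ K β η) (hβ : 0 ≤ β) (U : E → G) :
    az L W 1 U ≤ β * (K * (2 * Real.sqrt N)) * Fintype.card E := by
  have h2 : ∀ e, ‖zl L W U e‖ ^ 1 ≤ β * (K * (2 * Real.sqrt N)) := by
    intro e
    rw [pow_one]
    refine (hBW.zl_le U e).trans (mul_le_mul_of_nonneg_left ?_ hβ)
    refine (Finset.sum_le_sum fun e' _ => norm_wl_le U e').trans ?_
    rw [Finset.sum_const, nsmul_eq_mul]
    exact mul_le_mul_of_nonneg_right (by exact_mod_cast hBW.card e) (by positivity)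
  unfold az
  refine (Finset.sum_le_sum fun e _ => h2 e).trans (le_of_eq ?_)
  rw [Finset.sum_const, Finset.card_univ, nsmul_eq_mul]
  ring

lemma BW.az1_pt (hBW : BW W κ K β η) {δ : ℝ} (hδ : 0 < δ) (U : E → G) :
    az L W 1 U ≤ δ * Fintype.card E * 1 + β ^ 2 * K ^ 2 / δ * aw L 2 U := by
  have h2 : ∀ e, ‖zl L W U e‖ ^ 1 ≤ δ + 1 / δ * ‖zl L W U e‖ ^ 2 := by
    intro e
    obtain ⟨x, hx⟩ : ∃ x : ℝ, x = ‖zl L W U e‖ := ⟨_, rfl⟩
    have e0 : 0 ≤ x := by rw [hx]; exact norm_nonneg _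
    rw [← hx, pow_one]
    have e2 : δ * x ≤ δ * (δ + 1 / δ * x ^ 2) := by
      have e3 : δ * (δ + 1 / δ * x ^ 2) = δ ^ 2 + x ^ 2 := by field_simp
      rw [e3]
      nlinarith [sq_nonneg (x - δ)]
    exact le_of_mul_le_mul_left e2 hδ
  unfold az
  refine (Finset.sum_le_sum fun e _ => h2 e).trans ?_
  rw [Finset.sum_add_distrib, Finset.sum_const, Finset.card_univ, nsmul_eq_mul,
    ← Finset.mul_sum]
  have h3 := mul_le_mul_of_nonneg_left (hBW.sum_zl (L := L) U)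
    (show 0 ≤ 1 / δ by positivity)
  have h4 : 1 / δ * (β ^ 2 * K ^ 2 * ∑ e, ‖wl L U e‖ ^ 2) =
    β ^ 2 * K ^ 2 / δ * aw L 2 U := by unfold aw; ring
  rw [h4] at h3
  linarith

/-- the arithmetic of the upper bound -/
lemma real_up {g b β η C3 C4 C5 CV δ ρ1 ρ2 c1 c2 P1 P2 ε nn kk M Z A2 A3 A4 Y1 Y2 JG JL JV tr :
      ℝ}
    (hg : 0 < g) (hg1 : g ^ 2 ≤ 1) (hb0 : 0 ≤ b) (hη : 0 < η) (hC30 : 0 ≤ C3)
    (hρ1 : ρ1 = η ^ 2 / (2 * (C3 * b + 1))) (hc10 : 0 ≤ c1) (hnn : 0 ≤ nn)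
    (hC4 : C4 = 2 / η ^ 2 * (nn * (β + β * (kk * b)) / 2 + C3 * b ^ 3 * c1))
    (hC40 : 0 ≤ C4) (hC5 : C5 = CV + C3 * b / 2) (hC50 : 0 ≤ C5) (hε : 0 < ε)
    (hδ : δ = ε / (2 * (nn + 1))) (hδ0 : 0 < δ)
    (hρ2 : ρ2 = ε / (4 * (C5 * C4 + 1))) (hρ20 : 0 < ρ2) (hc20 : 0 ≤ c2)
    (hP1 : P1 = nn / 2 * (β ^ 2 * kk ^ 2 * C4 / δ)) (hP2 : P2 = C5 * b ^ 2 * c2)
    (hgP1 : P1 * g ^ 2 ≤ ε / 4) (hgP2 : P2 * g ^ 2 ≤ ε / 4) (hM0 : 0 ≤ M) (hZ0 : 0 ≤ Z)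
    (hA20 : 0 ≤ A2) (htr : tr ≤ β * M)
    (key1 : A3 ≤ ρ1 * A2 + b ^ 2 * (b * (c1 * g ^ 4 * (M * Z)) / b))
    (key2 : A3 ≤ ρ2 * A2 + b ^ 2 * (b * (c2 * g ^ 4 * (M * Z)) / b))
    (h44 : A4 ≤ b * A3) (ib1 : JG = g ^ 2 / 2 * JL) (hLap : JL ≤ nn * tr * Z + nn * Y1)
    (hGam : Y2 - C3 * A4 ≤ JG) (hYA : η ^ 2 * A2 ≤ Y2) (hYb : Y1 ≤ β * (kk * b) * M * Z)
    (hY1s : Y1 ≤ δ * M * Z + β ^ 2 * kk ^ 2 / δ * A2)
    (hpot : JV ≤ 1 / 2 * Y2 + CV * A3) :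
    1 / (2 * g ^ 2) * JG + 1 / g ^ 2 * JV ≤ (nn / 2 * tr + ε * M) * Z := by
  have hgs : 0 < g ^ 2 := by positivity
  have hMZ : 0 ≤ M * Z := mul_nonneg hM0 hZ0
  have hbb : ∀ x : ℝ, 0 ≤ x → b ^ 2 * (b * x / b) ≤ b ^ 2 * x := by
    intro x hx
    rcases hb0.eq_or_lt with h | h
    · rw [← h]; simp
    · rw [mul_div_assoc', mul_div_assoc, mul_div_cancel_left₀ _ h.ne']
  have h1 : A3 ≤ ρ1 * A2 + b ^ 2 * (c1 * g ^ 4 * (M * Z)) := by
    have := hbb (c1 * g ^ 4 * (M * Z)) (by positivity)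
    linarith
  have h1' : A3 ≤ ρ2 * A2 + b ^ 2 * (c2 * g ^ 4 * (M * Z)) := by
    have := hbb (c2 * g ^ 4 * (M * Z)) (by positivity)
    linarith
  have hsec : A2 ≤ C4 * g ^ 2 * (M * Z) := by
    have h2 : C3 * b * ρ1 ≤ η ^ 2 / 2 := by
      rw [hρ1, mul_div_assoc', div_le_div_iff₀ (by positivity) (by norm_num)]
      nlinarith [mul_nonneg hC30 hb0, sq_nonneg η]
    have h3 : η ^ 2 * A2 ≤ g ^ 2 / 2 * (nn * tr * Z + nn * Y1) + C3 * (b * A3) := by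
      have e1 := mul_le_mul_of_nonneg_left h44 hC30
      have e2 := mul_le_mul_of_nonneg_left hLap (show 0 ≤ g ^ 2 / 2 by positivity)
      linarith
    have h4 : nn * tr * Z + nn * Y1 ≤ nn * (β + β * (kk * b)) * (M * Z) := by
      have e1 := mul_le_mul_of_nonneg_left (mul_le_mul_of_nonneg_right htr hZ0) hnn
      have e2 := mul_le_mul_of_nonneg_left hYb hnn
      calc nn * tr * Z + nn * Y1 = nn * (tr * Z) + nn * Y1 := by ring
        _ ≤ nn * (β * M * Z) + nn * (β * (kk * b) * M * Z) := add_le_add e1 e2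
        _ = _ := by ring
    have h5 := mul_le_mul_of_nonneg_left h4 (show 0 ≤ g ^ 2 / 2 by positivity)
    have h6 := mul_le_mul_of_nonneg_left h1 (mul_nonneg hC30 hb0)
    have h7 := mul_le_mul_of_nonneg_right h2 hA20
    have h8 : g ^ 4 ≤ g ^ 2 := by nlinarith
    have h9 : C3 * b * (b ^ 2 * (c1 * g ^ 4 * (M * Z))) ≤ C3 * b ^ 3 * c1 * g ^ 2 * (M * Z) := by
      have e1 := mul_le_mul_of_nonneg_left h8 (show 0 ≤ C3 * b ^ 3 * c1 * (M * Z) by positivity)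
      calc _ = C3 * b ^ 3 * c1 * (M * Z) * g ^ 4 := by ring
        _ ≤ _ := e1
        _ = _ := by ring
    have h10 : η ^ 2 / 2 * A2 ≤ g ^ 2 * (M * Z) * (nn * (β + β * (kk * b)) / 2 +
        C3 * b ^ 3 * c1) := by
      have e1 : C3 * (b * A3) = C3 * b * A3 := by ring
      have e2 : C3 * b * (ρ1 * A2 + b ^ 2 * (c1 * g ^ 4 * (M * Z))) =
        C3 * b * ρ1 * A2 + C3 * b * (b ^ 2 * (c1 * g ^ 4 * (M * Z))) := by ring
      rw [e1] at h3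
      rw [e2] at h6
      linarith
    rw [hC4]
    have h11 : 2 / η ^ 2 * (η ^ 2 / 2 * A2) = A2 := by field_simp
    have h12 := mul_le_mul_of_nonneg_left h10 (show 0 ≤ 2 / η ^ 2 by positivity)
    rw [h11] at h12
    linarith
  have hA3s : A3 ≤ (ρ2 * C4 + b ^ 2 * c2 * g ^ 2) * g ^ 2 * (M * Z) := by
    have h2 := mul_le_mul_of_nonneg_left hsec hρ20.le
    calc A3 ≤ ρ2 * A2 + b ^ 2 * (c2 * g ^ 4 * (M * Z)) := h1'
      _ ≤ ρ2 * (C4 * g ^ 2 * (M * Z)) + b ^ 2 * (c2 * g ^ 4 * (M * Z)) := by linarith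
      _ = _ := by ring
  have f1 : 1 / (2 * g ^ 2) * JG + 1 / g ^ 2 * (1 / 2 * Y2 + CV * A3) ≤
      1 / 2 * JL + 1 / g ^ 2 * (C5 * A3) := by
    have e2 : 1 / (2 * g ^ 2) * JG = 1 / 2 * JL - 1 / g ^ 2 * (1 / 2 * JG) := by
      rw [ib1]
      field_simp
      ring
    rw [e2]
    have e3 : 1 / 2 * Y2 + CV * A3 - 1 / 2 * JG ≤ C5 * A3 := by
      rw [hC5]
      have := mul_le_mul_of_nonneg_left h44 hC30
      linarith
    have e4 := mul_le_mul_of_nonneg_left e3 (show 0 ≤ 1 / g ^ 2 by positivity)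
    linarith
  have f2 : 1 / g ^ 2 * (C5 * A3) ≤ (C5 * C4 * ρ2 + P2 * g ^ 2) * (M * Z) := by
    have e1 := mul_le_mul_of_nonneg_left (mul_le_mul_of_nonneg_left hA3s hC50)
      (show 0 ≤ 1 / g ^ 2 by positivity)
    refine e1.trans (le_of_eq ?_)
    rw [hP2]
    field_simp
  have f3 : C5 * C4 * ρ2 ≤ ε / 4 := by
    rw [hρ2, mul_div_assoc', div_le_div_iff₀ (by positivity) (by norm_num)]
    nlinarith [mul_nonneg hC50 hC40]
  have f4 : nn / 2 * Y1 ≤ (nn / 2 * δ + P1 * g ^ 2) * (M * Z) := by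
    have e1 := mul_le_mul_of_nonneg_left hsec (show 0 ≤ β ^ 2 * kk ^ 2 / δ by positivity)
    have e2 : Y1 ≤ δ * M * Z + β ^ 2 * kk ^ 2 / δ * (C4 * g ^ 2 * (M * Z)) := by linarith
    have e3 := mul_le_mul_of_nonneg_left e2 (show (0 : ℝ) ≤ nn / 2 by positivity)
    refine e3.trans (le_of_eq ?_)
    rw [hP1]
    ring
  have f5 : nn / 2 * δ ≤ ε / 4 := by
    rw [hδ, div_mul_div_comm, div_le_div_iff₀ (by positivity) (by norm_num)]
    nlinarith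
  have f6 : (C5 * C4 * ρ2 + P2 * g ^ 2) * (M * Z) ≤ (ε / 2) * (M * Z) :=
    mul_le_mul_of_nonneg_right (by linarith) hMZ
  have f7 : (nn / 2 * δ + P1 * g ^ 2) * (M * Z) ≤ (ε / 2) * (M * Z) :=
    mul_le_mul_of_nonneg_right (by linarith) hMZ
  have f8 := mul_le_mul_of_nonneg_left hpot (show 0 ≤ 1 / g ^ 2 by positivity)
  calc _ ≤ 1 / (2 * g ^ 2) * JG + 1 / g ^ 2 * (1 / 2 * Y2 + CV * A3) := by linarith
    _ ≤ 1 / 2 * JL + 1 / g ^ 2 * (C5 * A3) := f1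
    _ ≤ 1 / 2 * (nn * tr * Z + nn * Y1) + ε / 2 * (M * Z) := by linarith
    _ = nn / 2 * tr * Z + nn / 2 * Y1 + ε / 2 * (M * Z) := by ring
    _ ≤ nn / 2 * tr * Z + ε / 2 * (M * Z) + ε / 2 * (M * Z) := by linarith
    _ = (nn / 2 * tr + ε * M) * Z := by ring

lemma aT_int (hBW : BW W κ K β η) (hη : 0 < η) {ρ r : ℝ} (hρ : 0 < ρ) (hr : 0 < r)
    (hrρ : β * (K * r) ^ 2 ≤ η * ρ ^ 2 / 2) {g : ℝ} (hg : 0 < g) :
    JJ μ L W (2 / g ^ 2) (aT L ρ) ≤ ct0 μ L K η ρ r * g ^ 4 *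
      (Fintype.card E * JJ μ L W (2 / g ^ 2) fun _ => 1) := by
  have h1 : JJ μ L W (2 / g ^ 2) (aT L ρ) =
      ∑ e, JJ μ L W (2 / g ^ 2) (fun U => Te L ρ (U e)) :=
    JJ_sum μ Finset.univ fun e => (Te_cont ρ).comp (continuous_apply e)
  rw [h1]
  refine (Finset.sum_le_sum fun e _ => tail' μ hBW hη hρ hr hrρ hg e).trans (le_of_eq ?_)
  rw [Finset.sum_const, Finset.card_univ, nsmul_eq_mul]
  ring

/-- **Upper bound of the energy of the trial state.** -/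
theorem up_main (L : LD G N n) {C : ℝ} (hC : 0 ≤ C)
    (hQ : ∀ g : G, ‖Qp L.X (L.rho g - 1)‖ ≤ C * ‖L.rho g - 1‖ ^ 2) {K : ℕ} {β η CV ε : ℝ}
    (hβ : 0 ≤ β) (hη : 0 < η) (hCV : 0 ≤ CV) (hε : 0 < ε) :
    ∃ h0 : ℝ, 0 < h0 ∧ ∀ g : ℝ, 0 < g → g ^ 2 ≤ h0 → ∀ (E : Type) [Fintype E] [DecidableEq E]
      (X : Type) [DecidableEq X] (W : RM E) (κ : E → X), BW W κ K β η → ∀ V : Sm L E,
      (∀ U, L.ev U V ≤ 1 / 2 * az L W 2 U + CV * aw L 3 U) →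
      g ^ 2 / 2 * L.I μ (Gam L.Dv (tri L W g) (tri L W g)) +
        1 / g ^ 2 * L.I μ (V * (tri L W g * tri L W g)) ≤
      (n / 2 * W.trace + ε * Fintype.card E) * L.I μ (tri L W g * tri L W g) := by
  obtain ⟨b, hb⟩ : ∃ b : ℝ, b = 2 * Real.sqrt N := ⟨_, rfl⟩
  have hb0 : 0 ≤ b := by rw [hb]; positivity
  obtain ⟨C3, hC3⟩ : ∃ x : ℝ, x = 2 * β ^ 2 * K ^ 2 * (C ^ 2 + 1) := ⟨_, rfl⟩
  have hC30 : 0 ≤ C3 := by rw [hC3]; positivity
  obtain ⟨ρ1, hρ1⟩ : ∃ x : ℝ, x = η ^ 2 / (2 * (C3 * b + 1)) := ⟨_, rfl⟩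
  have hρ10 : 0 < ρ1 := by rw [hρ1]; positivity
  obtain ⟨r1, hr10, hr1⟩ := exists_r hβ hη hρ10 K
  obtain ⟨c1, hc1⟩ : ∃ x : ℝ, x = ct0 μ L K η ρ1 r1 := ⟨_, rfl⟩
  have hc10 : 0 ≤ c1 := by rw [hc1]; exact ct0_nonneg μ
  obtain ⟨C4, hC4⟩ : ∃ x : ℝ, x = 2 / η ^ 2 * ((n : ℝ) * (β + β * (K * b)) / 2 +
    C3 * b ^ 3 * c1) := ⟨_, rfl⟩
  have hC40 : 0 ≤ C4 := by rw [hC4]; positivity
  obtain ⟨C5, hC5⟩ : ∃ x : ℝ, x = CV + C3 * b / 2 := ⟨_, rfl⟩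
  have hC50 : 0 ≤ C5 := by rw [hC5]; positivity
  obtain ⟨δ, hδ⟩ : ∃ x : ℝ, x = ε / (2 * ((n : ℝ) + 1)) := ⟨_, rfl⟩
  have hδ0 : 0 < δ := by rw [hδ]; positivity
  obtain ⟨ρ2, hρ2⟩ : ∃ x : ℝ, x = ε / (4 * (C5 * C4 + 1)) := ⟨_, rfl⟩
  have hρ20 : 0 < ρ2 := by rw [hρ2]; positivity
  obtain ⟨r2, hr20, hr2⟩ := exists_r hβ hη hρ20 K
  obtain ⟨c2, hc2⟩ : ∃ x : ℝ, x = ct0 μ L K η ρ2 r2 := ⟨_, rfl⟩
  have hc20 : 0 ≤ c2 := by rw [hc2]; exact ct0_nonneg μ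
  obtain ⟨P1, hP1⟩ : ∃ x : ℝ, x = (n : ℝ) / 2 * (β ^ 2 * (K : ℝ) ^ 2 * C4 / δ) := ⟨_, rfl⟩
  have hP10 : 0 ≤ P1 := by rw [hP1]; positivity
  obtain ⟨P2, hP2⟩ : ∃ x : ℝ, x = C5 * b ^ 2 * c2 := ⟨_, rfl⟩
  have hP20 : 0 ≤ P2 := by rw [hP2]; positivity
  refine ⟨min 1 (min (ε / (4 * (P1 + 1))) (ε / (4 * (P2 + 1)))),
    lt_min one_pos (lt_min (by positivity) (by positivity)), ?_⟩
  intro g hg hg2 E _ _ X _ W κ hBW V hV
  have hg1 : g ^ 2 ≤ 1 := hg2.trans (min_le_left _ _)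
  have hgP1 : P1 * g ^ 2 ≤ ε / 4 := by
    have h1 : g ^ 2 ≤ ε / (4 * (P1 + 1)) := hg2.trans ((min_le_right _ _).trans (min_le_left _ _))
    rw [le_div_iff₀ (by positivity)] at h1
    nlinarith [sq_nonneg g]
  have hgP2 : P2 * g ^ 2 ≤ ε / 4 := by
    have h1 : g ^ 2 ≤ ε / (4 * (P2 + 1)) := hg2.trans ((min_le_right _ _).trans (min_le_right _ _))
    rw [le_div_iff₀ (by positivity)] at h1
    nlinarith [sq_nonneg g]
  obtain ⟨ib1, ib2⟩ := tri_ibp μ (L := L) (W := W) hg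
  rw [ib2, I_tri, I_tri1]
  have cS : ∀ F : Sm L E, Continuous fun U => L.ev U F := fun F => Sm_cont F
  have htr : W.trace ≤ β * (Fintype.card E : ℝ) := by
    rw [trace]
    refine (Finset.sum_le_sum fun e _ => (le_abs_self _).trans (hBW.ent e e)).trans
      (le_of_eq ?_)
    rw [Finset.sum_const, Finset.card_univ, nsmul_eq_mul, mul_comm]
  have key : ∀ ρ r : ℝ, 0 < ρ → 0 < r → β * (K * r) ^ 2 ≤ η * ρ ^ 2 / 2 →
      JJ μ L W (2 / g ^ 2) (aw L 3) ≤ ρ * JJ μ L W (2 / g ^ 2) (aw L 2) +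
      b ^ 2 * (b * (ct0 μ L K η ρ r * g ^ 4 * (Fintype.card E *
        JJ μ L W (2 / g ^ 2) fun _ => 1)) / b) := by
    intro ρ r hρ hr hh
    have h1 := JJ_le_lin μ (L := L) (W := W) (t := 2 / g ^ 2) ρ ((2 * Real.sqrt N) ^ 2)
      (aw_cont (L := L) (E := E) 3) (aw_cont 2) (aT_cont ρ) (aw3_pt (L := L) (ρ := ρ))
    have h2 := aT_int μ (L := L) hBW hη hρ hr hh hg
    have h3 := mul_le_mul_of_nonneg_left h2 (sq_nonneg (2 * Real.sqrt N))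
    rw [← hb] at h1 h3
    refine h1.trans (add_le_add le_rfl (h3.trans ?_))
    rcases hb0.eq_or_lt with h | h
    · rw [← h]; simp
    · rw [mul_div_cancel_left₀ _ h.ne']
  have h44 := JJ_le_mul μ (L := L) (W := W) (t := 2 / g ^ 2) (2 * Real.sqrt N)
    (aw_cont (L := L) (E := E) 4) (aw_cont 3) (aw4_pt (L := L))
  rw [← hb] at h44
  have hLap := JJ_le_lin μ (L := L) (W := W) (t := 2 / g ^ 2) (n * W.trace) n
    (cS (Lap L.Dv (SW L W))) (continuous_const (y := (1 : ℝ))) (az_cont (W := W) 1) fun U => by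
      have h0 := hBW.Lap_up (L := L) U
      unfold az
      simp only [pow_one, mul_one]
      exact h0
  have hGam := JJ_le_lin μ (L := L) (W := W) (t := 2 / g ^ 2) 1 C3
    (az_cont (L := L) (W := W) 2) (cS (Gam L.Dv (SW L W) (SW L W))) (aw_cont (L := L) 4)
    fun U => by
      have h0 := hBW.Gam_low (L := L) hQ U
      rw [← hC3] at h0
      unfold az aw
      linarith
  have hYA := JJ_mul_le μ (L := L) (W := W) (t := 2 / g ^ 2) (η ^ 2)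
    (az_cont (W := W) 2) (aw_cont (L := L) 2) (hBW.zl_low hη.le)
  have hYb := JJ_mono μ (L := L) (W := W) (t := 2 / g ^ 2) (az_cont (L := L) (W := W) 1)
    continuous_const (hBW.az1_const hβ)
  rw [JJ_const, ← hb] at hYb
  have hY1s := JJ_le_lin μ (L := L) (W := W) (t := 2 / g ^ 2) (δ * Fintype.card E)
    (β ^ 2 * K ^ 2 / δ) (az_cont (L := L) (W := W) 1) (continuous_const (y := (1 : ℝ)))
    (aw_cont (L := L) 2) (hBW.az1_pt hδ0)
  have hpot := JJ_le_lin μ (L := L) (W := W) (t := 2 / g ^ 2) (1 / 2) CV (cS V)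
    (az_cont (L := L) (W := W) 2) (aw_cont (L := L) 3) hV
  have key1 := key ρ1 r1 hρ10 hr10 hr1
  have key2 := key ρ2 r2 hρ20 hr20 hr2
  rw [← hc1] at key1
  rw [← hc2] at key2
  refine real_up (A3 := JJ μ L W (2 / g ^ 2) (aw L 3)) (A2 := JJ μ L W (2 / g ^ 2) (aw L 2))
    (A4 := JJ μ L W (2 / g ^ 2) (aw L 4)) (Y1 := JJ μ L W (2 / g ^ 2) (az L W 1))
    (Y2 := JJ μ L W (2 / g ^ 2) (az L W 2)) hg hg1 hb0 hη hC30 hρ1 hc10
    (Nat.cast_nonneg n) hC4 hC40 hC5 hC50 hε hδ hδ0 hρ2 hρ20 hc20 hP1 hP2 hgP1 hgP2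
    (Nat.cast_nonneg _) (JJ_nonneg μ fun _ => zero_le_one) (JJ_nonneg μ (aw_nonneg 2)) htr
    key1 key2 h44 ib1 hLap (by linarith) hYA hYb hY1s hpot

end

end Pool.Agent.Q205.YM
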