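import Mathlib
import Pool.Agent.Q205.YM.Up
import Pool.Agent.Q205.YM.Avg
import Pool.Agent.Q205.YM.Cnt

/-!
# Two sided bounds of the vacuum energy on the torus
-/

open MeasureTheory Matrix
open scoped Matrix.Norms.Frobenius ContDiff
open Pool.Agent.H906R3.YM
open Pool.Agent.W793.YM (dv norm_sq_ip abs_ip_le norm_ct norm_lmul norm_rmul norm_X dv_nonneg
  dv_mul dv_conj dv_sq dv_one dv_inv)
open Pool.Agent.TH369.WL (Qp norm_Qp ip_Qp norm_Qp_le)

namespace Pool.Agent.Q205.YM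

set_option linter.unusedSectionVars false

noncomputable section

variable {G : Type*} [Group G] [TopologicalSpace G] [IsTopologicalGroup G] [CompactSpace G]
  [SecondCountableTopology G] [MeasurableSpace G] [BorelSpace G] {N n : ℕ} {L : LD G N n}

lemma real_plq {a b c d s p b0 x : ℝ} (ha : 0 ≤ a) (hb : 0 ≤ b) (hc : 0 ≤ c) (hd : 0 ≤ d)
    (hs : s = a + b + c + d) (hp0 : 0 ≤ p) (hp : p ≤ s) (hsb : s ≤ 4 * b0)
    (hx0 : 0 ≤ x) (hx : x ≤ p + (a * b + d * c)) :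
    1 / 2 * x ^ 2 ≤ 1 / 2 * p ^ 2 + 16 * (1 + 2 * b0) * (a ^ 3 + b ^ 3 + c ^ 3 + d ^ 3) := by
  have hs0 : 0 ≤ s := by rw [hs]; positivity
  have h1 : a * b + d * c ≤ s ^ 2 := by
    rw [hs]
    nlinarith [mul_nonneg ha hb, mul_nonneg ha hc, mul_nonneg ha hd, mul_nonneg hb hc,
      mul_nonneg hb hd, mul_nonneg hc hd]
  have h2 : x ≤ p + s ^ 2 := hx.trans (by linarith)
  have h3 : x ^ 2 ≤ (p + s ^ 2) ^ 2 := pow_le_pow_left₀ hx0 h2 2
  have h4 : (p + s ^ 2) ^ 2 ≤ p ^ 2 + 2 * (1 + 2 * b0) * s ^ 3 := by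
    have e1 : p * s ^ 2 ≤ s * s ^ 2 := mul_le_mul_of_nonneg_right hp (sq_nonneg s)
    have e2 : s * s ^ 3 ≤ 4 * b0 * s ^ 3 := mul_le_mul_of_nonneg_right hsb (by positivity)
    nlinarith
  have h5 : s ^ 3 ≤ 16 * (a ^ 3 + b ^ 3 + c ^ 3 + d ^ 3) := by
    have k : ∀ u v : ℝ, 0 ≤ u → 0 ≤ v → (u + v) ^ 3 ≤ 4 * (u ^ 3 + v ^ 3) := by
      intro u v hu hv
      nlinarith [mul_nonneg (add_nonneg hu hv) (sq_nonneg (u - v))]
    have k1 := k (a + b) (c + d) (by positivity) (by positivity)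
    have k2 := k a b ha hb
    have k3 := k c d hc hd
    have k4 : s = (a + b) + (c + d) := by rw [hs]; ring
    rw [k4]
    linarith
  have hb0 : 0 ≤ b0 := by linarith
  have h6 := mul_le_mul_of_nonneg_left h5 (show 0 ≤ 1 + 2 * b0 by positivity)
  nlinarith

lemma we_plq_up (a b c d : G) : we L (a * b * c⁻¹ * d⁻¹) ≤
    1 / 2 * ‖(L.rho a - 1) + (L.rho b - 1) - (L.rho c - 1) - (L.rho d - 1)‖ ^ 2 +
    16 * (1 + 2 * (2 * Real.sqrt N)) * (‖L.rho a - 1‖ ^ 3 + ‖L.rho b - 1‖ ^ 3 +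
      ‖L.rho c - 1‖ ^ 3 + ‖L.rho d - 1‖ ^ 3) := by
  have h1 : we L (a * b * c⁻¹ * d⁻¹) = 1 / 2 * dv L (a * b * c⁻¹ * d⁻¹) ^ 2 := by
    rw [dv_sq]; ring
  rw [h1]
  have h2 : dv L (a * b * c⁻¹ * d⁻¹) ≤
      ‖(L.rho a - 1) + (L.rho b - 1) - (L.rho c - 1) - (L.rho d - 1)‖ +
      (‖L.rho a - 1‖ * ‖L.rho b - 1‖ + ‖L.rho d - 1‖ * ‖L.rho c - 1‖) := by
    unfold dv
    rw [← norm_rmul (L := L) (d * c)]
    have e1 : (L.rho (a * b * c⁻¹ * d⁻¹) - 1) * L.rho (d * c) =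
        ((L.rho a - 1) + (L.rho b - 1) - (L.rho c - 1) - (L.rho d - 1)) +
        ((L.rho a - 1) * (L.rho b - 1) - (L.rho d - 1) * (L.rho c - 1)) := by
      rw [sub_mul, one_mul, ← map_mul]
      have e2 : a * b * c⁻¹ * d⁻¹ * (d * c) = a * b := by group
      rw [e2, map_mul, map_mul]
      noncomm_ring
    rw [e1]
    refine (norm_add_le _ _).trans (add_le_add le_rfl ((norm_sub_le _ _).trans
      (add_le_add (norm_mul_le _ _) (norm_mul_le _ _))))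
  have b1 := norm_dv_le (L := L) a
  have b2 := norm_dv_le (L := L) b
  have b3 := norm_dv_le (L := L) c
  have b4 := norm_dv_le (L := L) d
  refine real_plq (norm_nonneg _) (norm_nonneg _) (norm_nonneg _) (norm_nonneg _) rfl
    (norm_nonneg _) ?_ (by linarith) (dv_nonneg _) h2
  refine (norm_sub_le _ _).trans ?_
  have k1 := norm_sub_le ((L.rho a - 1) + (L.rho b - 1)) (L.rho c - 1)
  have k2 := norm_add_le (L.rho a - 1) (L.rho b - 1)
  linarith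

variable {D l : ℕ} [NeZero l]

/-- the magnetic energy is at most its quadratic part plus a cubic error -/
lemma VT_up {W : RM (Ed D l)} (hW : W.PosSemidef) (hWM : (W * W - MT D l).PosSemidef)
    (U : Ed D l → G) : L.ev U (VT L D l) ≤ 1 / 2 * az L W 2 U +
      16 * (1 + 2 * (2 * Real.sqrt N)) * (4 * D) * aw L 3 U := by
  rw [VT_apply]
  have h1 : ∀ p : Pl D l, we L (plqT U p.1.1 p.1.2.1 p.1.2.2) ≤
      1 / 2 * ∑ c, (incT p.1 ⬝ᵥ vl L U c) ^ 2 +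
      16 * (1 + 2 * (2 * Real.sqrt N)) * (‖wl L U (p.1.1, p.1.2.1)‖ ^ 3 +
        ‖wl L U (p.1.1 + eT p.1.2.1, p.1.2.2)‖ ^ 3 +
        ‖wl L U (p.1.1 + eT p.1.2.2, p.1.2.1)‖ ^ 3 + ‖wl L U (p.1.1, p.1.2.2)‖ ^ 3) := by
    intro p
    have h2 := we_plq_up (L := L) (U (p.1.1, p.1.2.1)) (U (p.1.1 + eT p.1.2.1, p.1.2.2))
      (U (p.1.1 + eT p.1.2.2, p.1.2.1)) (U (p.1.1, p.1.2.2))
    refine h2.trans (le_of_eq ?_)
    congr 1
    rw [norm_sq_co]
    congr 1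
    refine Finset.sum_congr rfl fun c _ => ?_
    congr 1
    have h3 := incT_sum p.1 (vl L U c)
    simp only [smul_eq_mul] at h3
    unfold dotProduct
    rw [h3]
    rw [map_sub, map_sub, map_add]
    rfl
  refine (Finset.sum_le_sum fun p _ => h1 p).trans ?_
  rw [Finset.sum_add_distrib, ← Finset.mul_sum, ← Finset.mul_sum]
  refine add_le_add ?_ ?_
  · refine mul_le_mul_of_nonneg_left ?_ (by norm_num)
    rw [Finset.sum_comm]
    unfold az
    rw [sum_zl_vl]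
    refine Finset.sum_le_sum fun c _ => ?_
    have h2 := (psd_iff.1 hWM).2 (vl L U c)
    rw [sub_mulVec, dotProduct_sub, dot_sq hW] at h2
    have h3 : vl L U c ⬝ᵥ (MT D l *ᵥ vl L U c) = ∑ p : Pl D l, (incT p.1 ⬝ᵥ vl L U c) ^ 2 := by
      unfold MT
      rw [SQ_quad]
    rw [h3] at h2
    linarith
  · have h2 := sum_plq (D := D) (l := l) (fun e => ‖wl L U e‖ ^ 3) fun e => by positivity
    have h3 := mul_le_mul_of_nonneg_left h2
      (show 0 ≤ 16 * (1 + 2 * (2 * Real.sqrt N)) by positivity)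
    refine h3.trans (le_of_eq ?_)
    unfold aw
    ring

/-- the matrix of the trial state satisfies the hypotheses -/
lemma mkBW {q m : ℕ} {W : RM (Ed D l)} {κ : Ed D l → (Fin D → Fin q) ⊕ Ed D l} {η : ℝ}
    (h1 : W.PosSemidef) (h2 : (W - η • (1 : RM (Ed D l))).PosSemidef)
    (h3 : ∀ v : Ed D l → ℝ, (W *ᵥ v) ⬝ᵥ (W *ᵥ v) ≤ (80 * D + η ^ 2) * (v ⬝ᵥ v))
    (h4 : ∀ e e', κ e ≠ κ e' → W e e' = 0)
    (h5 : ∀ k, Fintype.card {e // κ e = k} ≤ Fintype.card (Sb D m) + 1) :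
    BW W κ (Fintype.card (Sb D m) + 1) (Real.sqrt (80 * D + η ^ 2)) η := by
  refine ⟨h1, h2, ?_, h4, ?_⟩
  · intro e e'
    have h6 := h3 (Pi.single e' 1)
    have h7 : (Pi.single e' (1 : ℝ) : Ed D l → ℝ) ⬝ᵥ Pi.single e' 1 = 1 := by simp
    have h8 : W *ᵥ (Pi.single e' (1 : ℝ)) = fun e => W e e' := by
      funext e
      simp
    rw [h7, h8, mul_one] at h6
    have h9 : W e e' ^ 2 ≤ (fun e => W e e') ⬝ᵥ fun e => W e e' := by
      have := Finset.single_le_sum (f := fun e => W e e' * W e e')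
        (fun _ _ => mul_self_nonneg _) (Finset.mem_univ e)
      rw [sq]
      exact this
    rw [← Real.sqrt_sq_eq_abs]
    exact Real.sqrt_le_sqrt (h9.trans h6)
  · intro e
    have h6 := h5 (κ e)
    rw [Fintype.card_subtype] at h6
    exact h6

variable (μ : Measure G) [IsProbabilityMeasure μ] [μ.IsMulLeftInvariant]
  [μ.IsMulRightInvariant] [μ.IsOpenPosMeasure]

/-- the energy form -/
def En (L : LD G N n) (g : ℝ) (u : Sm L (Ed D l)) : ℝ :=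
  g ^ 2 / 2 * L.I μ (Gam L.Dv u u) + 1 / g ^ 2 * L.I μ (VT L D l * (u * u))

/-- **Two sided bounds of the vacuum energy.** -/
theorem tot (L : LD G N n) {C : ℝ} (hC : 0 ≤ C)
    (hQ : ∀ g : G, ‖Qp L.X (L.rho g - 1)‖ ≤ C * ‖L.rho g - 1‖ ^ 2) (D : ℕ) {ε : ℝ}
    (hε : 0 < ε) : ∃ h0 : ℝ, 0 < h0 ∧ ∃ L0 : ℕ, ∀ g : ℝ, 0 < g → g ^ 2 ≤ h0 →
      ∀ (l : ℕ) [NeZero l], L0 ≤ l →
      (∀ u : Sm L (Ed D l), (n / 2 * ((D - 1) * ∑ k : Si D l, om k) - ε * (l : ℝ) ^ D) *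
        L.I μ (u * u) ≤ En μ L g u) ∧
      ∃ v : Sm L (Ed D l), Inv v ∧ (∀ U, 0 < v.1 U) ∧
        En μ L g v ≤ (n / 2 * ((D - 1) * ∑ k : Si D l, om k) + ε * (l : ℝ) ^ D) *
          L.I μ (v * v) := by
  classical
  obtain ⟨ε1, hε1⟩ : ∃ x : ℝ, x = ε / (4 * (4 * n + 1)) := ⟨_, rfl⟩
  have hε10 : 0 < ε1 := by rw [hε1]; positivity
  have hε1' : 4 * n * ε1 ≤ ε / 4 := by
    rw [hε1, mul_div_assoc', div_le_div_iff₀ (by positivity) (by norm_num)]
    have : (0 : ℝ) ≤ n := by positivity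
    nlinarith
  obtain ⟨m, hm, L0, hL0, hcnt⟩ := count D hε10
  obtain ⟨R, hR, hRR⟩ := exists_sq (A := MB D m) (SQ_psd _)
  obtain ⟨h1, hh1, hlow⟩ := torus_low μ L hR hRR (show 0 < ε / 4 by positivity)
  obtain ⟨η, hη⟩ : ∃ x : ℝ, x = ε / (4 * ((n : ℝ) * D + 1)) := ⟨_, rfl⟩
  have hη0 : 0 < η := by rw [hη]; positivity
  have hη' : n / 2 * (η * D) ≤ ε / 4 := by
    have e1 : n / 2 * (η * D) = (n * D) * ε / (2 * (4 * ((n : ℝ) * D + 1))) := by
      rw [hη]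
      field_simp
    rw [e1, div_le_div_iff₀ (by positivity) (by norm_num)]
    have : (0 : ℝ) ≤ n * D := by positivity
    nlinarith
  obtain ⟨ε2, hε2⟩ : ∃ x : ℝ, x = ε / (4 * ((D : ℝ) + 1)) := ⟨_, rfl⟩
  have hε20 : 0 < ε2 := by rw [hε2]; positivity
  have hε2' : ε2 * D ≤ ε / 4 := by
    rw [hε2, div_mul_eq_mul_div, div_le_div_iff₀ (by positivity) (by norm_num)]
    have : (0 : ℝ) ≤ D := by positivity
    nlinarith
  obtain ⟨h2, hh2, hup⟩ := up_main μ L hC hQ (K := Fintype.card (Sb D m) + 1)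
    (β := Real.sqrt (80 * D + η ^ 2)) (η := η)
    (CV := 16 * (1 + 2 * (2 * Real.sqrt N)) * (4 * D)) (Real.sqrt_nonneg _) hη0
    (by positivity) hε20
  refine ⟨min h1 h2, lt_min hh1 hh2, L0, ?_⟩
  intro g hg hg2 l _ hl
  have hq : l / m * m ≤ l := Nat.div_mul_le_self l m
  have hml : m ≤ l := hL0.trans hl
  obtain ⟨T, hT, hTT⟩ := exists_sq (A := MT D l) (SQ_psd _)
  have htr := trace_sqrt_MT hT hTT
  have c1 := cmp_low hq hR hRR hT hTT
  have c2 := cmp_up hq hR hRR hT hTT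
  have c3 := hcnt l hl
  obtain ⟨S, hS⟩ : ∃ S : ℝ, S = ∑ k : Si D l, om k := ⟨_, rfl⟩
  rw [← hS] at htr ⊢
  obtain ⟨O, hO⟩ : ∃ O : ℝ, O = (Fintype.card (Out D m l (l / m)) : ℝ) := ⟨_, rfl⟩
  rw [← hO] at c2 c3
  have hO0 : 0 ≤ O := by rw [hO]; positivity
  have hn0 : (0 : ℝ) ≤ n := by positivity
  have hl0 : (0 : ℝ) ≤ (l : ℝ) ^ D := by positivity
  have hOn : 4 * n * O ≤ ε / 4 * (l : ℝ) ^ D := by
    have e1 := mul_le_mul_of_nonneg_left c3 (show 0 ≤ 4 * (n : ℝ) by positivity)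
    have e2 := mul_le_mul_of_nonneg_right hε1' hl0
    linarith
  constructor
  · intro u
    have k1 := hlow g hg (hg2.trans (min_le_left _ _)) l (l / m) hml hq u
    refine le_trans ?_ k1
    have hI : 0 ≤ L.I μ (u * u) := I_sq_nonneg μ u
    rw [show ((l / m : ℕ) : ℝ) ^ D * ((n / 2 * R.trace - ε / 4) * L.I μ (u * u)) =
      (((l / m : ℕ) : ℝ) ^ D * (n / 2 * R.trace - ε / 4)) * L.I μ (u * u) by ring]
    refine mul_le_mul_of_nonneg_right ?_ hI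
    rw [← htr]
    have e1 : ((l / m : ℕ) : ℝ) ^ D ≤ (l : ℝ) ^ D :=
      pow_le_pow_left₀ (by positivity) (by exact_mod_cast Nat.div_le_self l m) D
    have e2 := mul_le_mul_of_nonneg_left c2 (show (0 : ℝ) ≤ n / 2 by positivity)
    have e3 := mul_le_mul_of_nonneg_right e1 (show (0 : ℝ) ≤ ε / 4 by positivity)
    have e4 : (0 : ℝ) ≤ ε * (l : ℝ) ^ D := by positivity
    nlinarith
  · obtain ⟨W, κ, w1, w2, w3, w4, w5, w6, w7⟩ := exists_Om hq hR hRR hη0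
    have hBW := mkBW w1 w3 w4 w5 w6
    have k1 := hup g hg (hg2.trans (min_le_right _ _)) (Ed D l) _ W κ hBW (VT L D l)
      (VT_up w1 w2)
    obtain ⟨v, v1, v2, v3, v4, v5⟩ := inv_trial μ ((-(1 / g ^ 2)) • SW L W)
    refine ⟨v, v1, v2, ?_⟩
    have k2 : En μ L g v ≤ (n / 2 * W.trace + ε2 * Fintype.card (Ed D l)) *
        L.I μ (tri L W g * tri L W g) := by
      refine le_trans ?_ k1
      unfold En
      rw [v4]
      exact add_le_add (mul_le_mul_of_nonneg_left v5 (by positivity)) le_rfl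
    have k3 : L.I μ (tri L W g * tri L W g) = L.I μ (v * v) := v3.symm
    rw [k3] at k2
    refine k2.trans (mul_le_mul_of_nonneg_right ?_ (I_sq_nonneg μ v))
    have e1 : (Fintype.card (Ed D l) : ℝ) = (l : ℝ) ^ D * D := by
      rw [Fintype.card_prod, Fintype.card_fun, ZMod.card, Fintype.card_fin]
      push_cast
      ring
    rw [e1] at w7 ⊢
    rw [← htr]
    have w8 : W.trace ≤ T.trace + 8 * O + η * ((l : ℝ) ^ D * D) := by
      have : (Fintype.card (Out D m l (l / m)) : ℝ) = O := hO.symm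
      rw [this] at w7
      linarith
    have e2 := mul_le_mul_of_nonneg_left w8 (show (0 : ℝ) ≤ n / 2 by positivity)
    have e3 := mul_le_mul_of_nonneg_right hη' hl0
    have e4 := mul_le_mul_of_nonneg_right hε2' hl0
    have e5 : (0 : ℝ) ≤ ε * (l : ℝ) ^ D := by positivity
    nlinarith

end

end Pool.Agent.Q205.YM
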