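import Mathlib
import Pool.Agent.Q205.YM.Tot

/-!
# Equipartition
-/

open MeasureTheory Matrix
open scoped Matrix.Norms.Frobenius ContDiff
open Pool.Agent.H906R3.YM
open Pool.Agent.TH369.WL (Qp norm_Qp ip_Qp norm_Qp_le)

namespace Pool.Agent.Q205.YM

set_option linter.unusedSectionVars false

noncomputable section

variable {G : Type*} [Group G] [TopologicalSpace G] [IsTopologicalGroup G] [CompactSpace G]
  [SecondCountableTopology G] [MeasurableSpace G] [BorelSpace G] {N n : ℕ} {L : LD G N n}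

/-- the zero point energy of the free field -/
def e0 (n D l : ℕ) [NeZero l] : ℝ := n / 2 * ((D - 1) * ∑ k : Si D l, om k)

lemma real_sqrt_lem {η s e C X : ℝ} (hη : 0 < η) (hs : 0 < s) (hs2 : s ^ 2 = 1 + η ∨ s ^ 2 = 1 - η)
    (hη1 : η ≤ 1 / 2) (he : |e| ≤ C * X) : |(s - 1) * e| ≤ η * (C * X) := by
  have h1 : |s - 1| ≤ η := by
    rcases hs2 with h | h
    · rw [abs_le]
      constructor <;> nlinarith
    · rw [abs_le]
      constructor <;> nlinarith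
  rw [abs_mul]
  exact mul_le_mul h1 he (abs_nonneg _) hη.le

/-- the arithmetic of the equipartition -/
lemma real_eqp {a b e C X η s1 s2 ε' δ' ε : ℝ} (hη : 0 < η) (hη1 : η ≤ 1 / 2) (hX : 0 ≤ X)
    (hC : 0 ≤ C) (he : |e| ≤ C * X) (hs1 : 0 < s1) (hs1' : s1 ^ 2 = 1 - η) (hs2 : 0 < s2)
    (hs2' : s2 ^ 2 = 1 + η) (hε' : 0 ≤ ε') (hδ' : 0 ≤ δ')
    (h1 : s1 * (e - ε' * X) ≤ (1 - η) * a + b) (h2 : s2 * (e - ε' * X) ≤ (1 + η) * a + b)
    (h3 : a + b ≤ e + δ' * X) (h4 : e - ε' * X ≤ a + b)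
    (hc1 : η * C ≤ ε / 4) (hc2 : 2 * ε' + δ' ≤ η * (ε / 4)) (hε0 : 0 < ε) :
    |a - e / 2| ≤ ε * X ∧ |b - e / 2| ≤ ε * X := by
  have hs1l : s1 ≤ 1 := by nlinarith
  have hs2l : s2 ≤ 2 := by nlinarith
  have k1 : |(s1 - 1) * e| ≤ η * (C * X) := real_sqrt_lem hη hs1 (Or.inr hs1') hη1 he
  have k2 : |(s2 - 1) * e| ≤ η * (C * X) := real_sqrt_lem hη hs2 (Or.inl hs2') hη1 he
  have eX : 0 ≤ ε' * X := mul_nonneg hε' hX
  have dX : 0 ≤ δ' * X := mul_nonneg hδ' hX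
  -- s1 - 1 = -η / 2 - (s1 - 1) ^ 2 / 2
  have q1 : (s1 - 1) = -η / 2 - (s1 - 1) ^ 2 / 2 := by nlinarith
  have q2 : (s2 - 1) = η / 2 - (s2 - 1) ^ 2 / 2 := by nlinarith
  have a1 : |s1 - 1| ≤ η := by
    rw [abs_le]
    constructor <;> nlinarith
  have a2 : |s2 - 1| ≤ η := by
    rw [abs_le]
    constructor <;> nlinarith
  have b1 : |(s1 - 1) ^ 2 / 2 * e| ≤ η * (η / 2 * (C * X)) := by
    have e1 : (s1 - 1) ^ 2 / 2 * e = (s1 - 1) * ((s1 - 1) * e) / 2 := by ring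
    rw [e1, abs_div, abs_mul, abs_of_pos (show (0 : ℝ) < 2 by norm_num)]
    have := mul_le_mul a1 k1 (abs_nonneg _) hη.le
    linarith
  have b2 : |(s2 - 1) ^ 2 / 2 * e| ≤ η * (η / 2 * (C * X)) := by
    have e1 : (s2 - 1) ^ 2 / 2 * e = (s2 - 1) * ((s2 - 1) * e) / 2 := by ring
    rw [e1, abs_div, abs_mul, abs_of_pos (show (0 : ℝ) < 2 by norm_num)]
    have := mul_le_mul a2 k2 (abs_nonneg _) hη.le
    linarith
  have c1 : η * a ≤ η * (e / 2) + η * (η / 2 * (C * X)) + (ε' + δ') * X := by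
    have e1 : s1 * e = e + (s1 - 1) * e := by ring
    have e2 : (s1 - 1) * e = -η / 2 * e - (s1 - 1) ^ 2 / 2 * e := by
      rw [← sub_mul, ← q1]
    have e3 := (le_abs_self _).trans b1
    have e4 : s1 * (ε' * X) ≤ ε' * X := mul_le_of_le_one_left eX hs1l
    nlinarith
  have c2 : η * (e / 2) - η * (η / 2 * (C * X)) - (2 * ε' + δ') * X ≤ η * a := by
    have e1 : s2 * e = e + (s2 - 1) * e := by ring
    have e2 : (s2 - 1) * e = η / 2 * e - (s2 - 1) ^ 2 / 2 * e := by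
      rw [← sub_mul, ← q2]
    have e3 := (le_abs_self _).trans b2
    have e4 : s2 * (ε' * X) ≤ 2 * (ε' * X) := mul_le_mul_of_nonneg_right hs2l eX
    nlinarith
  have c3 : (2 * ε' + δ') * X ≤ η * (ε / 4 * X) := by
    have := mul_le_mul_of_nonneg_right hc2 hX
    linarith
  have c4 : η / 2 * (C * X) ≤ ε / 8 * X := by
    have := mul_le_mul_of_nonneg_right hc1 hX
    nlinarith
  have hεX : 0 ≤ ε * X := mul_nonneg hε0.le hX
  have d1 : a - e / 2 ≤ ε / 2 * X := by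
    have : η * (a - e / 2) ≤ η * (ε / 2 * X) := by
      have e1 := mul_le_mul_of_nonneg_left c4 hη.le
      have e2 : (ε' + δ') * X ≤ (2 * ε' + δ') * X := mul_le_mul_of_nonneg_right (by linarith) hX
      have e3 : 0 ≤ η * (ε * X) := mul_nonneg hη.le hεX
      nlinarith
    exact le_of_mul_le_mul_left this hη
  have d2 : -(ε / 2 * X) ≤ a - e / 2 := by
    have : η * (-(ε / 2 * X)) ≤ η * (a - e / 2) := by
      have e1 := mul_le_mul_of_nonneg_left c4 hη.le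
      have e3 : 0 ≤ η * (ε * X) := mul_nonneg hη.le hεX
      nlinarith
    exact le_of_mul_le_mul_left this hη
  have f1 : (2 * ε' + δ') * X ≤ ε / 8 * X := by
    have e1 : η * (ε / 4) ≤ ε / 8 := by nlinarith
    exact mul_le_mul_of_nonneg_right (hc2.trans e1) hX
  constructor
  · rw [abs_le]
    constructor <;> linarith
  · rw [abs_le]
    constructor <;> nlinarith

variable {D l : ℕ} [NeZero l]

lemma om_le (k : Si D l) : om k ≤ 2 * Real.sqrt D := by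
  unfold om
  have h1 : om2 k ≤ 4 * D := by
    unfold om2
    refine (Finset.sum_le_sum (g := fun _ => (4 : ℝ)) fun i _ => ?_).trans (le_of_eq ?_)
    · rw [ch_single]
      have := Real.sin_sq_le_one (Real.pi * ((k i).val : ℝ) / l)
      linarith
    · rw [Finset.sum_const, Finset.card_univ, Fintype.card_fin, nsmul_eq_mul]
      ring
  refine (Real.sqrt_le_sqrt h1).trans (le_of_eq ?_)
  rw [Real.sqrt_mul (by norm_num), show (4 : ℝ) = 2 ^ 2 by norm_num,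
    Real.sqrt_sq (by norm_num)]

lemma om_nonneg (k : Si D l) : 0 ≤ om k := Real.sqrt_nonneg _

lemma abs_e0 : |e0 n D l| ≤ (n / 2 * ((D + 1) * (2 * Real.sqrt D))) * (l : ℝ) ^ D := by
  unfold e0
  have h1 : 0 ≤ ∑ k : Si D l, om k := Finset.sum_nonneg fun k _ => om_nonneg k
  have h2 : ∑ k : Si D l, om k ≤ 2 * Real.sqrt D * (l : ℝ) ^ D := by
    refine (Finset.sum_le_sum fun k _ => om_le k).trans (le_of_eq ?_)
    rw [Finset.sum_const, Finset.card_univ, nsmul_eq_mul, Fintype.card_fun, ZMod.card,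
      Fintype.card_fin]
    push_cast
    ring
  rw [abs_mul, abs_mul, abs_of_nonneg h1, abs_of_nonneg (show (0 : ℝ) ≤ n / 2 by positivity),
    mul_assoc, mul_assoc]
  refine mul_le_mul_of_nonneg_left ?_ (by positivity)
  have h3 : |(D : ℝ) - 1| ≤ D + 1 := by
    rw [abs_le]
    have : (0 : ℝ) ≤ D := Nat.cast_nonneg _
    constructor <;> linarith
  exact mul_le_mul h3 h2 h1 (by positivity)

variable (μ : Measure G) [IsProbabilityMeasure μ] [μ.IsMulLeftInvariant]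
  [μ.IsMulRightInvariant] [μ.IsOpenPosMeasure]

lemma En_scale {g lam : ℝ} (hg : 0 < g) (hl : 0 < lam) (u : Sm L (Ed D l)) :
    Real.sqrt lam * En μ L (g * Real.sqrt (Real.sqrt lam)) u =
      lam * (g ^ 2 / 2 * L.I μ (Gam L.Dv u u)) + 1 / g ^ 2 * L.I μ (VT L D l * (u * u)) := by
  unfold En
  have h1 : 0 < Real.sqrt lam := Real.sqrt_pos.2 hl
  have h2 : (g * Real.sqrt (Real.sqrt lam)) ^ 2 = g ^ 2 * Real.sqrt lam := by
    rw [mul_pow, Real.sq_sqrt h1.le]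
  have h3 : Real.sqrt lam * Real.sqrt lam = lam := Real.mul_self_sqrt hl.le
  rw [h2]
  generalize Real.sqrt lam = s at h1 h3 ⊢
  rw [← h3]
  field_simp

/-- **Equipartition.** -/
theorem equip (L : LD G N n) {C : ℝ} (hC : 0 ≤ C)
    (hQ : ∀ g : G, ‖Qp L.X (L.rho g - 1)‖ ≤ C * ‖L.rho g - 1‖ ^ 2) (D : ℕ) {ε : ℝ}
    (hε : 0 < ε) : ∃ h0 : ℝ, 0 < h0 ∧ ∃ L0 : ℕ, ∃ δ : ℝ, 0 < δ ∧ ∀ g : ℝ, 0 < g → g ^ 2 ≤ h0 →
      ∀ (l : ℕ) [NeZero l], L0 ≤ l → ∀ u : Sm L (Ed D l), L.I μ (u * u) = 1 →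
      En μ L g u ≤ e0 n D l + δ * (l : ℝ) ^ D →
      |g ^ 2 / 2 * L.I μ (Gam L.Dv u u) - e0 n D l / 2| ≤ ε * (l : ℝ) ^ D ∧
      |1 / g ^ 2 * L.I μ (VT L D l * (u * u)) - e0 n D l / 2| ≤ ε * (l : ℝ) ^ D := by
  obtain ⟨C0, hC0⟩ : ∃ x : ℝ, x = n / 2 * (((D : ℝ) + 1) * (2 * Real.sqrt D)) := ⟨_, rfl⟩
  have hC00 : 0 ≤ C0 := by rw [hC0]; positivity
  obtain ⟨η, hη⟩ : ∃ x : ℝ, x = min (1 / 2) (ε / (4 * (C0 + 1))) := ⟨_, rfl⟩
  have hη0 : 0 < η := by rw [hη]; exact lt_min (by norm_num) (by positivity)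
  have hη1 : η ≤ 1 / 2 := by rw [hη]; exact min_le_left _ _
  have hηC : η * C0 ≤ ε / 4 := by
    have h1 : η ≤ ε / (4 * (C0 + 1)) := by rw [hη]; exact min_le_right _ _
    rw [le_div_iff₀ (by positivity)] at h1
    nlinarith
  obtain ⟨ε', hε'⟩ : ∃ x : ℝ, x = η * (ε / 12) := ⟨_, rfl⟩
  have hε'0 : 0 < ε' := by rw [hε']; positivity
  obtain ⟨h1, hh1, L0, hmain⟩ := tot μ L hC hQ D hε'0
  refine ⟨h1 / 2, by positivity, L0, ε', hε'0, ?_⟩
  intro g hg hg2 l _ hl u hu hE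
  have key : ∀ lam : ℝ, 0 < lam → lam ≤ 4 → Real.sqrt lam * (e0 n D l - ε' * (l : ℝ) ^ D) ≤
      lam * (g ^ 2 / 2 * L.I μ (Gam L.Dv u u)) + 1 / g ^ 2 * L.I μ (VT L D l * (u * u)) := by
    intro lam hlam hlam4
    have hs : 0 < Real.sqrt lam := Real.sqrt_pos.2 hlam
    have hs2 : Real.sqrt lam ≤ 2 := by
      rw [show (2 : ℝ) = Real.sqrt 4 by
        rw [show (4 : ℝ) = 2 ^ 2 by norm_num, Real.sqrt_sq (by norm_num)]]
      exact Real.sqrt_le_sqrt hlam4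
    have h2 : (g * Real.sqrt (Real.sqrt lam)) ^ 2 = g ^ 2 * Real.sqrt lam := by
      rw [mul_pow, Real.sq_sqrt hs.le]
    have h3 : (g * Real.sqrt (Real.sqrt lam)) ^ 2 ≤ h1 := by
      rw [h2]
      have e1 := mul_le_mul hg2 hs2 hs.le (by positivity)
      linarith
    have h4 := (hmain (g * Real.sqrt (Real.sqrt lam)) (mul_pos hg (Real.sqrt_pos.2 hs)) h3 l
      hl).1 u
    rw [hu, mul_one] at h4
    rw [← En_scale μ hg hlam u]
    exact mul_le_mul_of_nonneg_left h4 hs.le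
  have k0 := key 1 one_pos (by norm_num)
  rw [Real.sqrt_one, one_mul, one_mul] at k0
  have p1 : 0 < 1 - η := by linarith
  have p2 : 0 < 1 + η := by linarith
  exact real_eqp hη0 hη1 (by positivity) hC00 (by rw [hC0]; exact abs_e0) (Real.sqrt_pos.2 p1)
    (Real.sq_sqrt p1.le) (Real.sqrt_pos.2 p2) (Real.sq_sqrt p2.le) hε'0.le hε'0.le
    (key (1 - η) p1 (by linarith)) (key (1 + η) p2 (by linarith)) hE k0 hηC
    (by rw [hε']; linarith) hε

end

end Pool.Agent.Q205.YM
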