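import Mathlib
import Pool.Agent.Q205.YM.Fou

/-!
# Riemann sums over the momenta
-/

open MeasureTheory Filter Topology
open scoped Pointwise

namespace Pool.Agent.Q205.YM

noncomputable section

/-- the unit cube -/
def cube (D : ℕ) : Set (Fin D → ℝ) := Set.univ.pi fun _ => Set.Ico (0 : ℝ) 1

lemma cube_bdd (D : ℕ) : Bornology.IsBounded (cube D) :=
  Bornology.IsBounded.pi fun _ => Metric.isBounded_Ico 0 1

lemma cube_meas (D : ℕ) : MeasurableSet (cube D) :=
  MeasurableSet.univ_pi fun _ => measurableSet_Ico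

lemma cube_front (D : ℕ) : volume (frontier (cube D)) = 0 :=
  (convex_pi fun _ _ => convex_Ico (0 : ℝ) 1).addHaar_frontier volume

/-- the points of the cube -/
def pt (D l : ℕ) (k : Fin D → ZMod l) : Fin D → ℝ := fun i => ((k i).val : ℝ) / l

lemma pt_mem {D l : ℕ} [NeZero l] (k : Fin D → ZMod l) : pt D l k ∈ cube D ∩
    (l : ℝ)⁻¹ • (Submodule.span ℤ (Set.range (Pi.basisFun ℝ (Fin D))) : Set (Fin D → ℝ)) := by
  have hl : (0 : ℝ) < l := by
    have := NeZero.pos l
    exact_mod_cast this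
  constructor
  · intro i _
    show ((k i).val : ℝ) / l ∈ Set.Ico (0 : ℝ) 1
    refine ⟨by positivity, ?_⟩
    rw [div_lt_one hl]
    exact_mod_cast (k i).val_lt
  · refine Set.mem_smul_set.2 ⟨fun i => ((k i).val : ℝ), ?_, ?_⟩
    · rw [SetLike.mem_coe, Module.Basis.mem_span_iff_repr_mem]
      intro i
      exact ⟨((k i).val : ℤ), by simp⟩
    · funext i
      simp only [Pi.smul_apply, smul_eq_mul]
      unfold pt
      rw [div_eq_inv_mul]

lemma pt_inj {D l : ℕ} [NeZero l] : Function.Injective (pt D l) := by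
  intro k k' h
  funext i
  have hl : (l : ℝ) ≠ 0 := by
    have := NeZero.ne l
    exact_mod_cast this
  have h1 := congrFun h i
  unfold pt at h1
  rw [div_left_inj' hl] at h1
  exact ZMod.val_injective l (by exact_mod_cast h1)

lemma pt_surj {D l : ℕ} [NeZero l] {x : Fin D → ℝ} (hx : x ∈ cube D ∩
    (l : ℝ)⁻¹ • (Submodule.span ℤ (Set.range (Pi.basisFun ℝ (Fin D))) : Set (Fin D → ℝ))) :
    ∃ k, pt D l k = x := by
  have hl : (0 : ℝ) < l := by
    have := NeZero.pos l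
    exact_mod_cast this
  obtain ⟨h1, h2⟩ := hx
  obtain ⟨y, hy, rfl⟩ := Set.mem_smul_set.1 h2
  rw [SetLike.mem_coe, Module.Basis.mem_span_iff_repr_mem] at hy
  have hy' : ∀ i, ∃ z : ℤ, (z : ℝ) = y i := by
    intro i
    obtain ⟨z, hz⟩ := hy i
    exact ⟨z, by simpa using hz⟩
  choose z hz using hy'
  have h3 : ∀ i, 0 ≤ z i ∧ z i < l := by
    intro i
    have h4 := h1 i (Set.mem_univ i)
    have h5 : ((l : ℝ)⁻¹ • y) i = (z i : ℝ) / l := by
      rw [Pi.smul_apply, smul_eq_mul, ← hz, div_eq_inv_mul]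
    rw [h5] at h4
    obtain ⟨h6, h7⟩ := h4
    rw [div_lt_one hl] at h7
    have h8 : 0 ≤ (z i : ℝ) := by
      have := mul_nonneg h6 hl.le
      rwa [div_mul_cancel₀ _ hl.ne'] at this
    constructor
    · exact_mod_cast h8
    · exact_mod_cast h7
  refine ⟨fun i => ((z i).toNat : ZMod l), ?_⟩
  funext i
  unfold pt
  have h4 : ((((z i).toNat : ℕ) : ZMod l)).val = (z i).toNat := by
    rw [ZMod.val_natCast, Nat.mod_eq_of_lt]
    have := (h3 i).2
    have h5 := (h3 i).1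
    omega
  rw [h4, Pi.smul_apply, smul_eq_mul, ← hz, div_eq_inv_mul]
  congr 1
  have h5 := Int.toNat_of_nonneg (h3 i).1
  have h6 : (((z i).toNat : ℤ) : ℝ) = (z i : ℝ) := by rw [h5]
  exact_mod_cast h6

/-- **Riemann sums.** -/
theorem riemann (D : ℕ) {F : (Fin D → ℝ) → ℝ} (hF : Continuous F) {ε : ℝ} (hε : 0 < ε) :
    ∃ L : ℕ, ∀ (l : ℕ) [NeZero l], L ≤ l →
      |∑ k : Fin D → ZMod l, F (pt D l k) - (∫ x in cube D, F x) * (l : ℝ) ^ D| ≤
        ε * (l : ℝ) ^ D := by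
  have h := tendsto_tsum_div_pow_atTop_integral (cube D) F hF (cube_bdd D) (cube_meas D)
    (cube_front D)
  rw [Metric.tendsto_atTop] at h
  obtain ⟨L, hL⟩ := h ε hε
  refine ⟨L, fun l _ hl => ?_⟩
  have h1 := hL l hl
  have hl0 : (0 : ℝ) < l := by
    have := NeZero.pos l
    exact_mod_cast this
  have hlD : (0 : ℝ) < (l : ℝ) ^ D := by positivity
  have h2 : (∑' x : ↑(cube D ∩ (l : ℝ)⁻¹ •
      (Submodule.span ℤ (Set.range (Pi.basisFun ℝ (Fin D))) : Set (Fin D → ℝ))), F x) =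
      ∑ k : Fin D → ZMod l, F (pt D l k) := by
    have e : Function.Bijective (fun k : Fin D → ZMod l =>
        (⟨pt D l k, pt_mem k⟩ : ↑(cube D ∩ (l : ℝ)⁻¹ •
          (Submodule.span ℤ (Set.range (Pi.basisFun ℝ (Fin D))) : Set (Fin D → ℝ))))) := by
      constructor
      · intro k k' hk
        exact pt_inj (congrArg Subtype.val hk)
      · rintro ⟨x, hx⟩
        obtain ⟨k, hk⟩ := pt_surj hx
        exact ⟨k, Subtype.ext hk⟩
    rw [← (Equiv.ofBijective _ e).tsum_eq]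
    rw [tsum_fintype]
    rfl
  rw [h2, Fintype.card_fin, Real.dist_eq] at h1
  have h3 : (∑ k : Fin D → ZMod l, F (pt D l k)) / (l : ℝ) ^ D - ∫ x in cube D, F x =
      (∑ k : Fin D → ZMod l, F (pt D l k) - (∫ x in cube D, F x) * (l : ℝ) ^ D) /
        (l : ℝ) ^ D := by
    rw [sub_div, mul_div_assoc, div_self hlD.ne', mul_one]
  rw [h3, abs_div, abs_of_pos hlD, div_lt_iff₀ hlD] at h1
  exact h1.le

end

end Pool.Agent.Q205.YM
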